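import Mathlib

set_option autoImplicit false

open Complex ComplexConjugate Real Metric

namespace Pool.Agent.Helper897.PickIneq

noncomputable section

/-- The kernel `r²/(r² - conj z ζ)` of the circle of radius `r`. -/
def ker (r : ℝ) (z ζ : ℂ) : ℂ := (r:ℂ) ^ 2 / ((r:ℂ) ^ 2 - conj z * ζ)

lemma ker_den_ne {r : ℝ} {z ζ : ℂ} (hz : z ∈ ball (0:ℂ) r) (hζ : ζ ∈ closedBall (0:ℂ) r) :
    (r:ℂ) ^ 2 - conj z * ζ ≠ 0 := by
  intro h
  rw [mem_ball_zero_iff] at hz
  rw [mem_closedBall_zero_iff] at hζ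
  have h1 : (r:ℂ) ^ 2 = conj z * ζ := sub_eq_zero.1 h
  have h2 : ‖(r:ℂ) ^ 2‖ = ‖conj z * ζ‖ := by rw [h1]
  have hr : 0 < r := lt_of_le_of_lt (norm_nonneg _) hz
  rw [norm_pow, norm_mul, Complex.norm_real, Real.norm_of_nonneg hr.le, RCLike.norm_conj] at h2
  have h3 : ‖z‖ * ‖ζ‖ ≤ ‖z‖ * r := mul_le_mul_of_nonneg_left hζ (norm_nonneg _)
  nlinarith

lemma ker_differentiableOn {r : ℝ} {z : ℂ} (hz : z ∈ ball (0:ℂ) r) :
    DifferentiableOn ℂ (ker r z) (closedBall 0 r) := by
  intro ζ hζ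
  apply DifferentiableAt.differentiableWithinAt
  unfold ker
  apply DifferentiableAt.div (by fun_prop) (by fun_prop)
  exact ker_den_ne hz hζ

lemma conj_ker {r : ℝ} {z ζ : ℂ} (hz : z ∈ ball (0:ℂ) r) (hζ : ζ ∈ sphere (0:ℂ) r) :
    conj (ker r z ζ) = ζ / (ζ - z) := by
  have hζ' : ‖ζ‖ = r := by simpa using hζ
  have hz' : ‖z‖ < r := by simpa using hz
  have hr : 0 < r := lt_of_le_of_lt (norm_nonneg _) hz'
  have h1 : ζ * conj ζ = (r:ℂ) ^ 2 := by
    rw [Complex.mul_conj, Complex.normSq_eq_norm_sq, hζ']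
    push_cast
    rfl
  have hζ0 : ζ ≠ 0 := by
    intro h
    rw [h, norm_zero] at hζ'
    linarith
  have hne : ζ - z ≠ 0 := by
    intro h
    have : ζ = z := sub_eq_zero.1 h
    rw [this] at hζ'
    linarith
  have hden : (r:ℂ) ^ 2 - z * conj ζ ≠ 0 := by
    intro h
    have h2 := ker_den_ne hz (sphere_subset_closedBall hζ)
    apply h2
    have h3 : conj ((r:ℂ) ^ 2 - z * conj ζ) = (r:ℂ) ^ 2 - conj z * ζ := by
      simp
    rw [← h3, h, map_zero]
  unfold ker
  rw [map_div₀, map_sub, map_mul, map_pow, Complex.conj_ofReal, Complex.conj_conj]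
  rw [div_eq_div_iff hden hne, ← h1]
  ring

/-- Cauchy's formula in the form of a reproducing property. -/
lemma avg_ker {r : ℝ} {z : ℂ} {p : ℂ → ℂ} (hp : DiffContOnCl ℂ p (ball 0 r))
    (hz : z ∈ ball (0:ℂ) r) :
    circleAverage (fun ζ => p ζ * conj (ker r z ζ)) 0 r = p z := by
  have hz' : ‖z‖ < r := by simpa using hz
  have hr : 0 < r := lt_of_le_of_lt (norm_nonneg _) hz'
  have habs : |r| = r := abs_of_pos hr
  rw [← DiffContOnCl.circleAverage_smul_div (f := p) (c := 0) (R := r) (w := z)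
    (by rwa [habs]) (by rwa [habs])]
  apply circleAverage_congr_sphere
  intro ζ hζ
  rw [habs] at hζ
  simp only
  rw [conj_ker hz hζ, smul_eq_mul, sub_zero, mul_comm]

variable {ι : Type*}

/-- Finite combinations of kernels. -/
def comb (r : ℝ) (s : Finset ι) (z : ι → ℂ) (c : ι → ℂ) (ζ : ℂ) : ℂ :=
  ∑ j ∈ s, c j * ker r (z j) ζ

lemma comb_differentiableOn {r : ℝ} {s : Finset ι} {z : ι → ℂ} (c : ι → ℂ)
    (hz : ∀ j ∈ s, z j ∈ ball (0:ℂ) r) :
    DifferentiableOn ℂ (comb r s z c) (closedBall 0 r) := by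
  unfold comb
  apply DifferentiableOn.fun_sum
  intro j hj
  exact (ker_differentiableOn (hz j hj)).const_mul _

lemma comb_diffContOnCl {r : ℝ} {s : Finset ι} {z : ι → ℂ} (c : ι → ℂ)
    (hz : ∀ j ∈ s, z j ∈ ball (0:ℂ) r) :
    DiffContOnCl ℂ (comb r s z c) (ball 0 r) := by
  have h := comb_differentiableOn c hz
  refine ⟨h.mono ball_subset_closedBall, ?_⟩
  exact h.continuousOn.mono closure_ball_subset_closedBall

lemma circleIntegrable_of {E : Type*} [NormedAddCommGroup E] {r : ℝ} (hr : 0 ≤ r) {f : ℂ → E}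
    (hf : ContinuousOn f (closedBall 0 r)) : CircleIntegrable f 0 r :=
  ContinuousOn.circleIntegrable hr (hf.mono sphere_subset_closedBall)

lemma avg_comb {r : ℝ} (hr : 0 < r) {s : Finset ι} {z : ι → ℂ} (c : ι → ℂ)
    (hz : ∀ j ∈ s, z j ∈ ball (0:ℂ) r) {p : ℂ → ℂ} (hp : DiffContOnCl ℂ p (ball 0 r)) :
    circleAverage (fun ζ => p ζ * conj (comb r s z c ζ)) 0 r = ∑ j ∈ s, conj (c j) * p (z j) := by
  have hpc : ContinuousOn p (closedBall 0 r) := by
    have := hp.2
    rwa [closure_ball _ hr.ne'] at this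
  have h1 : (fun ζ => p ζ * conj (comb r s z c ζ))
      = fun ζ => ∑ j ∈ s, (conj (c j)) • (p ζ * conj (ker r (z j) ζ)) := by
    funext ζ
    unfold comb
    rw [map_sum, Finset.mul_sum]
    apply Finset.sum_congr rfl
    intro j _
    rw [map_mul, smul_eq_mul]
    ring
  rw [h1, circleAverage_fun_sum]
  · apply Finset.sum_congr rfl
    intro j hj
    rw [circleAverage_fun_smul, avg_ker hp (hz j hj), smul_eq_mul]
  · intro j hj
    apply circleIntegrable_of hr.le
    have h2 : ContinuousOn (fun ζ => p ζ * conj (ker r (z j) ζ)) (closedBall 0 r) :=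
      hpc.mul (Complex.continuous_conj.comp_continuousOn
        (ker_differentiableOn (hz j hj)).continuousOn)
    exact ContinuousOn.mul (continuousOn_const (c := conj (c j))) h2

/-- The Pick inequality for the disc of radius `r`, in the form `‖T* u‖ ≤ ‖u‖`. -/
lemma pick_r {r : ℝ} (hr : 0 < r) {s : Finset ι} {z : ι → ℂ} (c : ι → ℂ)
    (hz : ∀ j ∈ s, z j ∈ ball (0:ℂ) r) {h : ℂ → ℂ} (hh : DiffContOnCl ℂ h (ball 0 r))
    (hb : ∀ ζ ∈ closedBall (0:ℂ) r, ‖h ζ‖ ≤ 1) :
    0 ≤ (∑ j ∈ s, ∑ k ∈ s, conj (c j) * c k *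
      ((1 - h (z j) * conj (h (z k))) * ker r (z k) (z j))).re := by
  set u := comb r s z c with hu
  set c' : ι → ℂ := fun j => c j * conj (h (z j)) with hc'
  set w := comb r s z c' with hw
  have hud := comb_diffContOnCl c hz
  have hwd := comb_diffContOnCl c' hz
  have huc : ContinuousOn u (closedBall 0 r) := (comb_differentiableOn c hz).continuousOn
  have hwc : ContinuousOn w (closedBall 0 r) := (comb_differentiableOn c' hz).continuousOn
  have hhc : ContinuousOn h (closedBall 0 r) := by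
    have := hh.2
    rwa [closure_ball _ hr.ne'] at this
  have e1 : circleAverage (fun ζ => u ζ * conj (u ζ)) 0 r = ∑ j ∈ s, conj (c j) * u (z j) :=
    avg_comb hr c hz hud
  have e2 : circleAverage (fun ζ => w ζ * conj (w ζ)) 0 r = ∑ j ∈ s, conj (c' j) * w (z j) :=
    avg_comb hr c' hz hwd
  have e3 : circleAverage (fun ζ => (h ζ * w ζ) * conj (u ζ)) 0 r
      = ∑ j ∈ s, conj (c j) * (h (z j) * w (z j)) :=
    avg_comb hr c hz ⟨hh.1.mul hwd.1, hh.2.mul hwd.2⟩
  have e4 : (∑ j ∈ s, conj (c' j) * w (z j)) = ∑ j ∈ s, conj (c j) * (h (z j) * w (z j)) := by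
    apply Finset.sum_congr rfl
    intro j _
    simp only [hc', map_mul, Complex.conj_conj]
    ring
  -- real forms
  have r1 : (circleAverage (fun ζ => u ζ * conj (u ζ)) 0 r).re
      = circleAverage (fun ζ => ‖u ζ‖ ^ 2) 0 r := by
    have hint : CircleIntegrable (fun ζ => u ζ * conj (u ζ)) 0 r :=
      circleIntegrable_of hr.le (huc.mul (Complex.continuous_conj.comp_continuousOn huc))
    have := ContinuousLinearMap.circleAverage_comp_comm Complex.reCLM hint
    rw [Complex.reCLM_apply] at this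
    rw [← this]
    apply circleAverage_congr_sphere
    intro ζ _
    simp only [Function.comp, Complex.reCLM_apply]
    rw [Complex.mul_conj, Complex.ofReal_re, Complex.normSq_eq_norm_sq]
  have r2 : (circleAverage (fun ζ => w ζ * conj (w ζ)) 0 r).re
      = circleAverage (fun ζ => ‖w ζ‖ ^ 2) 0 r := by
    have hint : CircleIntegrable (fun ζ => w ζ * conj (w ζ)) 0 r :=
      circleIntegrable_of hr.le (hwc.mul (Complex.continuous_conj.comp_continuousOn hwc))
    have := ContinuousLinearMap.circleAverage_comp_comm Complex.reCLM hint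
    rw [Complex.reCLM_apply] at this
    rw [← this]
    apply circleAverage_congr_sphere
    intro ζ _
    simp only [Function.comp, Complex.reCLM_apply]
    rw [Complex.mul_conj, Complex.ofReal_re, Complex.normSq_eq_norm_sq]
  have r3 : (circleAverage (fun ζ => (h ζ * w ζ) * conj (u ζ)) 0 r).re
      ≤ circleAverage (fun ζ => (‖w ζ‖ ^ 2 + ‖u ζ‖ ^ 2) / 2) 0 r := by
    have hint : CircleIntegrable (fun ζ => (h ζ * w ζ) * conj (u ζ)) 0 r :=
      circleIntegrable_of hr.le ((hhc.mul hwc).mul (Complex.continuous_conj.comp_continuousOn huc))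
    have := ContinuousLinearMap.circleAverage_comp_comm Complex.reCLM hint
    rw [Complex.reCLM_apply] at this
    rw [← this]
    apply circleAverage_mono
    · apply circleIntegrable_of hr.le
      exact Complex.continuous_re.comp_continuousOn
        ((hhc.mul hwc).mul (Complex.continuous_conj.comp_continuousOn huc))
    · apply circleIntegrable_of hr.le
      exact ((hwc.norm.pow 2).add (huc.norm.pow 2)).div_const _
    · intro ζ hζ
      rw [abs_of_pos hr] at hζ
      simp only [Function.comp, Complex.reCLM_apply]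
      have h1 : ‖h ζ‖ ≤ 1 := hb ζ (sphere_subset_closedBall hζ)
      calc ((h ζ * w ζ) * conj (u ζ)).re ≤ ‖(h ζ * w ζ) * conj (u ζ)‖ := Complex.re_le_norm _
        _ = ‖h ζ‖ * ‖w ζ‖ * ‖u ζ‖ := by rw [norm_mul, norm_mul, RCLike.norm_conj]
        _ ≤ 1 * ‖w ζ‖ * ‖u ζ‖ := by gcongr
        _ ≤ (‖w ζ‖ ^ 2 + ‖u ζ‖ ^ 2) / 2 := by nlinarith [sq_nonneg (‖w ζ‖ - ‖u ζ‖)]
  have r4 : circleAverage (fun ζ => (‖w ζ‖ ^ 2 + ‖u ζ‖ ^ 2) / 2) 0 r
      = (circleAverage (fun ζ => ‖w ζ‖ ^ 2) 0 r + circleAverage (fun ζ => ‖u ζ‖ ^ 2) 0 r) / 2 := by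
    have h1 : (fun ζ => (‖w ζ‖ ^ 2 + ‖u ζ‖ ^ 2) / 2)
        = fun ζ => (2:ℝ)⁻¹ • (‖w ζ‖ ^ 2 + ‖u ζ‖ ^ 2) := by
      funext ζ
      rw [smul_eq_mul]
      ring
    rw [h1, circleAverage_fun_smul, circleAverage_fun_add, smul_eq_mul]
    · ring
    · exact circleIntegrable_of hr.le (hwc.norm.pow 2)
    · exact circleIntegrable_of hr.le (huc.norm.pow 2)
  rw [r4, ← r1, ← r2, e3, ← e4, e1, e2] at r3
  -- conclude
  have e5 : (∑ j ∈ s, ∑ k ∈ s, conj (c j) * c k *
      ((1 - h (z j) * conj (h (z k))) * ker r (z k) (z j)))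
      = (∑ j ∈ s, conj (c j) * u (z j)) - ∑ j ∈ s, conj (c' j) * w (z j) := by
    rw [← Finset.sum_sub_distrib]
    apply Finset.sum_congr rfl
    intro j _
    simp only [hu, hw, hc', comb, map_mul, Complex.conj_conj]
    rw [Finset.mul_sum, Finset.mul_sum, ← Finset.sum_sub_distrib]
    apply Finset.sum_congr rfl
    intro k _
    ring
  rw [e5, Complex.sub_re]
  linarith

/-- **Pick inequality** in the unit disc. -/
lemma pick {s : Finset ι} {z : ι → ℂ} (c : ι → ℂ)
    (hz : ∀ j ∈ s, z j ∈ ball (0:ℂ) 1) {h : ℂ → ℂ} (hh : DifferentiableOn ℂ h (ball 0 1))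
    (hb : ∀ ζ ∈ ball (0:ℂ) 1, ‖h ζ‖ ≤ 1) :
    0 ≤ (∑ j ∈ s, ∑ k ∈ s, conj (c j) * c k *
      ((1 - h (z j) * conj (h (z k))) / (1 - conj (z k) * z j))).re := by
  -- a radius containing all points
  obtain ⟨r₀, hr₀0, hr₀1, hr₀⟩ : ∃ r₀ : ℝ, 0 < r₀ ∧ r₀ < 1 ∧ ∀ j ∈ s, ‖z j‖ < r₀ := by
    classical
    induction s using Finset.induction_on with
    | empty => exact ⟨1/2, by norm_num, by norm_num, by simp⟩
    | insert a s ha ih =>
      obtain ⟨r, h0, h1, h2⟩ := ih (fun j hj => hz j (Finset.mem_insert_of_mem hj))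
      have hza : ‖z a‖ < 1 := by simpa using hz a (Finset.mem_insert_self a s)
      refine ⟨max r ((‖z a‖ + 1) / 2), lt_max_of_lt_left h0, max_lt h1 (by linarith), ?_⟩
      intro j hj
      rw [Finset.mem_insert] at hj
      rcases hj with rfl | hj
      · exact lt_max_of_lt_right (by linarith)
      · exact lt_max_of_lt_left (h2 j hj)
  have hlim : Filter.Tendsto (fun r : ℝ => (∑ j ∈ s, ∑ k ∈ s, conj (c j) * c k *
      ((1 - h (z j) * conj (h (z k))) * ker r (z k) (z j))).re) (nhdsWithin 1 (Set.Iio 1))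
      (nhds (∑ j ∈ s, ∑ k ∈ s, conj (c j) * c k *
      ((1 - h (z j) * conj (h (z k))) / (1 - conj (z k) * z j))).re) := by
    apply (Complex.continuous_re.tendsto _).comp
    apply tendsto_finsetSum
    intro j hj
    apply tendsto_finsetSum
    intro k hk
    apply Filter.Tendsto.const_mul
    rw [div_eq_mul_inv]
    apply Filter.Tendsto.const_mul
    have hden : (1:ℂ) - conj (z k) * z j ≠ 0 := by
      have := ker_den_ne (r := 1) (hz k hk) (ball_subset_closedBall (hz j hj))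
      simpa using this
    have hcont : ContinuousAt (fun r : ℝ => ker r (z k) (z j)) 1 := by
      unfold ker
      apply ContinuousAt.div
      · fun_prop
      · fun_prop
      · simpa using hden
    have h1 : ker 1 (z k) (z j) = (1 - conj (z k) * z j)⁻¹ := by
      unfold ker
      simp
    rw [← h1]
    exact hcont.tendsto.mono_left nhdsWithin_le_nhds
  refine ge_of_tendsto hlim ?_
  have hmem : Set.Ioo r₀ 1 ∈ nhdsWithin (1:ℝ) (Set.Iio 1) := Ioo_mem_nhdsLT hr₀1
  filter_upwards [hmem] with r hr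
  have hr0 : 0 < r := hr₀0.trans hr.1
  have hsub : closedBall (0:ℂ) r ⊆ ball 0 1 := closedBall_subset_ball hr.2
  apply pick_r hr0 c
  · intro j hj
    rw [mem_ball_zero_iff]
    exact (hr₀ j hj).trans hr.1
  · refine ⟨hh.mono (ball_subset_closedBall.trans hsub), ?_⟩
    exact hh.continuousOn.mono (closure_ball_subset_closedBall.trans hsub)
  · intro ζ hζ
    exact hb ζ (hsub hζ)

end

end Pool.Agent.Helper897.PickIneq
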