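import Mathlib
import Pool.Agent.Helper897.PickIneq

set_option autoImplicit false

open Complex ComplexConjugate Metric

namespace Pool.Agent.Helper897.InnerUnique

open Pool.Agent.Helper897.PickIneq

noncomputable section

/-- Cayley transform from the disc to the upper half-plane. -/
def W (z : ℂ) : ℂ := I * ((1 + z) / (1 - z))

/-- The singular inner function `exp(-(1+z)/(1-z))`. -/
def S (z : ℂ) : ℂ := Complex.exp (-((1 + z) / (1 - z)))

lemma S_eq (z : ℂ) : S z = Complex.exp (I * W z) := by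
  unfold S W
  congr 1
  rw [← mul_assoc, I_mul_I]
  ring

lemma one_sub_ne {z : ℂ} (hz : z ∈ ball (0:ℂ) 1) : 1 - z ≠ 0 := by
  intro h
  have : z = 1 := (sub_eq_zero.1 h).symm
  rw [this, mem_ball_zero_iff, norm_one] at hz
  exact lt_irrefl _ hz

lemma W_add_I {z : ℂ} (hz : z ∈ ball (0:ℂ) 1) : W z + I = 2 * I / (1 - z) := by
  have h := one_sub_ne hz
  unfold W
  field_simp
  ring

lemma W_add_I_ne {z : ℂ} (hz : z ∈ ball (0:ℂ) 1) : W z + I ≠ 0 := by
  rw [W_add_I hz]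
  exact div_ne_zero (mul_ne_zero two_ne_zero I_ne_zero) (one_sub_ne hz)

lemma den_ne {z z' : ℂ} (hz : z ∈ ball (0:ℂ) 1) (hz' : z' ∈ ball (0:ℂ) 1) :
    1 - conj z' * z ≠ 0 := by
  have := ker_den_ne (r := 1) hz' (ball_subset_closedBall hz)
  simpa using this

lemma W_sub_conj {z z' : ℂ} (hz : z ∈ ball (0:ℂ) 1) (hz' : z' ∈ ball (0:ℂ) 1) :
    W z - conj (W z') = 2 * I * (1 - conj z' * z) / ((1 - z) * (1 - conj z')) := by
  have h := one_sub_ne hz
  have h' : 1 - conj z' ≠ 0 := by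
    have := one_sub_ne hz'
    intro h0
    apply this
    have h1 : conj (1 - conj z') = 1 - z' := by simp
    rw [← h1, h0, map_zero]
  unfold W
  rw [map_mul, map_div₀, map_add, map_sub, map_one, conj_I]
  field_simp
  ring

lemma W_sub_conj_ne {z z' : ℂ} (hz : z ∈ ball (0:ℂ) 1) (hz' : z' ∈ ball (0:ℂ) 1) :
    W z - conj (W z') ≠ 0 := by
  rw [W_sub_conj hz hz']
  have h := one_sub_ne hz
  have h' : 1 - conj z' ≠ 0 := by
    have := one_sub_ne hz'
    intro h0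
    apply this
    have h1 : conj (1 - conj z') = 1 - z' := by simp
    rw [← h1, h0, map_zero]
  exact div_ne_zero (mul_ne_zero (mul_ne_zero two_ne_zero I_ne_zero) (den_ne hz hz'))
    (mul_ne_zero h h')

/-- Transfer of the Szegő kernel to the half-plane. -/
lemma kernel_transfer {z z' : ℂ} (hz : z ∈ ball (0:ℂ) 1) (hz' : z' ∈ ball (0:ℂ) 1) :
    (1 - conj z' * z)⁻¹
      = (1 / 2) * (W z + I) * conj (W z' + I) * (I / (W z - conj (W z'))) := by
  have h := one_sub_ne hz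
  have h' : 1 - conj z' ≠ 0 := by
    have := one_sub_ne hz'
    intro h0
    apply this
    have h1 : conj (1 - conj z') = 1 - z' := by simp
    rw [← h1, h0, map_zero]
  have hd := den_ne hz hz'
  rw [W_sub_conj hz hz', W_add_I hz, W_add_I hz', map_div₀, map_sub, map_one, map_mul, conj_I,
    map_ofNat]
  field_simp
  ring_nf
  rw [I_sq]
  ring

/-- `S` on the conjugate side. -/
lemma conj_S (z : ℂ) : conj (S z) = Complex.exp (-(I * conj (W z))) := by
  rw [S_eq, ← Complex.exp_conj, map_mul, conj_I]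
  congr 1
  ring

lemma int_exp {σ : ℂ} (hσ : σ ≠ 0) :
    ∫ t in (0:ℝ)..1, Complex.exp (I * t * σ) = I * (1 - Complex.exp (I * σ)) / σ := by
  have h1 : ∀ t : ℝ, Complex.exp (I * t * σ) = Complex.exp ((I * σ) * t) := by
    intro t
    congr 1
    ring
  simp_rw [h1]
  rw [integral_exp_mul_complex (mul_ne_zero I_ne_zero hσ)]
  simp only [ofReal_one, mul_one, ofReal_zero, mul_zero, Complex.exp_zero]
  rw [div_eq_div_iff (mul_ne_zero I_ne_zero hσ) hσ]
  ring_nf
  rw [I_sq]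
  ring

/-- The function `t ↦ -i t` on `[0,1]`. -/
def A : C(Set.Icc (0:ℝ) 1, ℂ) := ⟨fun t => -(I * ((t : ℝ) : ℂ)), by fun_prop⟩

/-- The exponential `e_s(t) = exp(-i t s)`. -/
def e (s : ℂ) : C(Set.Icc (0:ℝ) 1, ℂ) := NormedSpace.exp (s • A)

lemma e_apply (s : ℂ) (t : Set.Icc (0:ℝ) 1) : e s t = Complex.exp (-(I * (t : ℝ) * s)) := by
  unfold e
  rw [NormedSpace.exp_continuousMap_eq]
  show NormedSpace.exp ((s • A) t) = _
  rw [Complex.exp_eq_exp_ℂ]
  congr 1
  show s * -(I * ((t : ℝ) : ℂ)) = _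
  ring

lemma e_norm (s : ℂ) : ‖e s‖ ≤ Real.exp ‖s‖ := by
  rw [ContinuousMap.norm_le _ (Real.exp_pos _).le]
  intro t
  rw [e_apply, Complex.norm_exp]
  apply Real.exp_le_exp.2
  refine (Complex.re_le_norm _).trans ?_
  rw [norm_neg, norm_mul, norm_mul, norm_I, one_mul, Complex.norm_real, Real.norm_of_nonneg t.2.1]
  exact mul_le_of_le_one_left (norm_nonneg _) t.2.2

lemma e_hasDeriv (s : ℂ) : HasDerivAt e (e s * A) s := hasDerivAt_exp_smul_const A s

variable {ι : Type*}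

/-- The moment theorem of Helly type. -/
lemma helly {E : Type*} [NormedAddCommGroup E] [NormedSpace ℂ E] (x : ι → E) (a : ι → ℂ) (C : ℝ)
    (h : ∀ d : ι →₀ ℂ, ‖Finsupp.linearCombination ℂ a d‖ ≤ C * ‖Finsupp.linearCombination ℂ x d‖) :
    ∃ F : E →L[ℂ] ℂ, ∀ j, F (x j) = a j := by
  set L := Finsupp.linearCombination ℂ x with hL
  set Λ := Finsupp.linearCombination ℂ a with hΛ
  have hker : LinearMap.ker L ≤ LinearMap.ker Λ := by
    intro d hd
    rw [LinearMap.mem_ker] at hd ⊢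
    have h1 := h d
    rw [hd, norm_zero, mul_zero] at h1
    exact norm_le_zero_iff.1 h1
  set g : LinearMap.range L →ₗ[ℂ] ℂ :=
    ((LinearMap.ker L).liftQ Λ hker).comp (L.quotKerEquivRange.symm : _ →ₗ[ℂ] _) with hg
  have hgL : ∀ d, g ⟨L d, LinearMap.mem_range_self L d⟩ = Λ d := by
    intro d
    have h1 : L.quotKerEquivRange.symm ⟨L d, LinearMap.mem_range_self L d⟩
        = (LinearMap.ker L).mkQ d := by
      rw [LinearEquiv.symm_apply_eq]
      rfl
    rw [hg, LinearMap.comp_apply]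
    show ((LinearMap.ker L).liftQ Λ hker) (L.quotKerEquivRange.symm ⟨L d, _⟩) = Λ d
    rw [h1]
    exact Submodule.liftQ_apply _ _ _
  have hbound : ∀ y : LinearMap.range L, ‖g y‖ ≤ C * ‖y‖ := by
    rintro ⟨_, d, rfl⟩
    rw [hgL d]
    exact h d
  obtain ⟨F, hF, -⟩ := exists_extension_norm_eq (LinearMap.range L) (g.mkContinuous C hbound)
  refine ⟨F, fun j => ?_⟩
  have h1 : x j = L (Finsupp.single j 1) := by
    rw [hL, Finsupp.linearCombination_single, one_smul]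
  have h2 := hF ⟨L (Finsupp.single j 1), LinearMap.mem_range_self L _⟩
  rw [LinearMap.mkContinuous_apply, hgL] at h2
  rw [h1]
  simp only at h2
  rw [h2, hΛ, Finsupp.linearCombination_single, one_smul]

/-- The values prescribed for the functional. -/
def lam (h : ℂ → ℂ) (z0 : ℂ) (z : ℂ) : ℂ :=
  I * (1 - h z0 * conj (S z)) / (W z0 - conj (W z))

lemma quad_term {h : ℂ → ℂ} {zj zk dj dk : ℂ} (hzj : zj ∈ ball (0:ℂ) 1) (hzk : zk ∈ ball (0:ℂ) 1)
    (hj : h zj = S zj) (hk : h zk = S zk) :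
    conj (dj / conj (W zj + I)) * (dk / conj (W zk + I)) *
      ((1 - h zj * conj (h zk)) / (1 - conj zk * zj))
    = (1 / 2) * ∫ t in (0:ℝ)..1, (conj dj * Complex.exp (I * t * W zj)) *
        (dk * Complex.exp (-(I * t * conj (W zk)))) := by
  have h1 : ∀ t : ℝ, (conj dj * Complex.exp (I * t * W zj)) *
        (dk * Complex.exp (-(I * t * conj (W zk))))
      = (conj dj * dk) * Complex.exp (I * t * (W zj - conj (W zk))) := by
    intro t
    rw [mul_mul_mul_comm, ← Complex.exp_add]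
    congr 2
    ring
  simp_rw [h1]
  rw [intervalIntegral.integral_const_mul, int_exp (W_sub_conj_ne hzj hzk), div_eq_mul_inv
    (1 - h zj * conj (h zk)), kernel_transfer hzj hzk, hj, hk, conj_S, S_eq]
  have h2 : Complex.exp (I * (W zj - conj (W zk)))
      = Complex.exp (I * W zj) * Complex.exp (-(I * conj (W zk))) := by
    rw [← Complex.exp_add]
    congr 1
    ring
  rw [h2, map_div₀, Complex.conj_conj]
  have hne1 := W_add_I_ne hzj
  have hne2 : conj (W zk + I) ≠ 0 := by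
    intro h0
    apply W_add_I_ne hzk
    have := congrArg conj h0
    rwa [Complex.conj_conj, map_zero] at this
  have hne3 := W_sub_conj_ne hzj hzk
  field_simp

lemma cross_term {h : ℂ → ℂ} {z0 zk c0 dk : ℂ} (hz0 : z0 ∈ ball (0:ℂ) 1)
    (hzk : zk ∈ ball (0:ℂ) 1) (hk : h zk = S zk) :
    conj c0 * (dk / conj (W zk + I)) * ((1 - h z0 * conj (h zk)) / (1 - conj zk * z0))
    = (1 / 2) * (conj c0 * (W z0 + I)) * (dk * lam h z0 zk) := by
  rw [div_eq_mul_inv (1 - h z0 * conj (h zk)), kernel_transfer hz0 hzk, hk]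
  unfold lam
  have hne2 : conj (W zk + I) ≠ 0 := by
    intro h0
    apply W_add_I_ne hzk
    have := congrArg conj h0
    rwa [Complex.conj_conj, map_zero] at this
  have hne3 := W_sub_conj_ne hz0 hzk
  field_simp

/-- The basic estimate. -/
lemma bound (s : Finset ι) (z : ι → ℂ) (hz : ∀ j, z j ∈ ball (0:ℂ) 1) {h : ℂ → ℂ}
    (hh : DifferentiableOn ℂ h (ball 0 1)) (hb : ∀ ζ ∈ ball (0:ℂ) 1, ‖h ζ‖ ≤ 1)
    (hS : ∀ j, h (z j) = S (z j)) {z0 : ℂ} (hz0 : z0 ∈ ball (0:ℂ) 1) (d : ι → ℂ) (c0 : ℂ) :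
    0 ≤ (1 / 2) * ‖∑ j ∈ s, d j • e (conj (W (z j)))‖ ^ 2
      + (conj c0 * (W z0 + I) * ∑ j ∈ s, d j * lam h z0 (z j)).re
      + ‖c0‖ ^ 2 * ((1 - ‖h z0‖ ^ 2) / (1 - ‖z0‖ ^ 2)) := by
  classical
  set f : C(Set.Icc (0:ℝ) 1, ℂ) := ∑ j ∈ s, d j • e (conj (W (z j))) with hf
  set z' : Option ι → ℂ := fun o => o.elim z0 z with hz'
  set c' : Option ι → ℂ := fun o => o.elim c0 (fun j => d j / conj (W (z j) + I)) with hc'
  have hp := pick (s := Finset.insertNone s) (z := z') c' (by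
    intro o _
    cases o with
    | none => exact hz0
    | some j => exact hz j) hh hb
  rw [Finset.sum_insertNone] at hp
  simp_rw [Finset.sum_insertNone] at hp
  simp only [hz', hc', Option.elim] at hp
  rw [Finset.sum_add_distrib] at hp
  -- the four pieces
  have p1 : (conj c0 * c0 * ((1 - h z0 * conj (h z0)) / (1 - conj z0 * z0))).re
      = ‖c0‖ ^ 2 * ((1 - ‖h z0‖ ^ 2) / (1 - ‖z0‖ ^ 2)) := by
    have e1 : conj c0 * c0 = ((‖c0‖ ^ 2 : ℝ) : ℂ) := by
      rw [mul_comm, Complex.mul_conj, Complex.normSq_eq_norm_sq]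
    have e2 : h z0 * conj (h z0) = ((‖h z0‖ ^ 2 : ℝ) : ℂ) := by
      rw [Complex.mul_conj, Complex.normSq_eq_norm_sq]
    have e3 : conj z0 * z0 = ((‖z0‖ ^ 2 : ℝ) : ℂ) := by
      rw [mul_comm, Complex.mul_conj, Complex.normSq_eq_norm_sq]
    rw [e1, e2, e3, ← Complex.ofReal_one, ← Complex.ofReal_sub, ← Complex.ofReal_sub,
      ← Complex.ofReal_div, ← Complex.ofReal_mul, Complex.ofReal_re]
  have p2 : (∑ x ∈ s, conj c0 * (d x / conj (W (z x) + I)) *
      ((1 - h z0 * conj (h (z x))) / (1 - conj (z x) * z0)))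
      = (1 / 2) * (conj c0 * (W z0 + I)) * ∑ j ∈ s, d j * lam h z0 (z j) := by
    rw [Finset.mul_sum]
    apply Finset.sum_congr rfl
    intro k _
    exact cross_term hz0 (hz k) (hS k)
  have p3 : (∑ x ∈ s, conj (d x / conj (W (z x) + I)) * c0 *
      ((1 - h (z x) * conj (h z0)) / (1 - conj z0 * z x)))
      = conj ((1 / 2) * (conj c0 * (W z0 + I)) * ∑ j ∈ s, d j * lam h z0 (z j)) := by
    rw [← p2, map_sum]
    apply Finset.sum_congr rfl
    intro k _
    rw [map_mul, map_mul, map_div₀ (starRingEnd ℂ) (1 - h z0 * conj (h (z k))), map_sub, map_sub,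
      map_mul, map_mul, map_one, Complex.conj_conj, Complex.conj_conj, Complex.conj_conj]
    ring
  have p4 : (∑ x ∈ s, ∑ x_1 ∈ s, conj (d x / conj (W (z x) + I)) * (d x_1 / conj (W (z x_1) + I)) *
      ((1 - h (z x) * conj (h (z x_1))) / (1 - conj (z x_1) * z x)))
      = (1 / 2) * ∫ t in (0:ℝ)..1, (∑ j ∈ s, conj (d j) * Complex.exp (I * t * W (z j))) *
        (∑ k ∈ s, d k * Complex.exp (-(I * t * conj (W (z k))))) := by
    have q1 : ∀ t : ℝ, (∑ j ∈ s, conj (d j) * Complex.exp (I * t * W (z j))) *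
        (∑ k ∈ s, d k * Complex.exp (-(I * t * conj (W (z k)))))
        = ∑ j ∈ s, ∑ k ∈ s, (conj (d j) * Complex.exp (I * t * W (z j))) *
          (d k * Complex.exp (-(I * t * conj (W (z k))))) := by
      intro t
      rw [Finset.sum_mul_sum]
    simp_rw [q1]
    rw [intervalIntegral.integral_finsetSum, Finset.mul_sum]
    · apply Finset.sum_congr rfl
      intro j _
      rw [intervalIntegral.integral_finsetSum, Finset.mul_sum]
      · apply Finset.sum_congr rfl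
        intro k _
        exact quad_term (hz j) (hz k) (hS j) (hS k)
      · intro k _
        apply Continuous.intervalIntegrable
        fun_prop
    · intro j _
      apply Continuous.intervalIntegrable
      fun_prop
  have p5 : ((1 / 2 : ℂ) * ∫ t in (0:ℝ)..1, (∑ j ∈ s, conj (d j) * Complex.exp (I * t * W (z j))) *
        (∑ k ∈ s, d k * Complex.exp (-(I * t * conj (W (z k)))))).re ≤ (1 / 2) * ‖f‖ ^ 2 := by
    refine (Complex.re_le_norm _).trans ?_
    rw [norm_mul]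
    have n1 : ‖(1 / 2 : ℂ)‖ = 1 / 2 := by norm_num
    rw [n1]
    apply mul_le_mul_of_nonneg_left _ (by norm_num)
    have hle : ∀ t ∈ Set.uIoc (0:ℝ) 1, ‖(∑ j ∈ s, conj (d j) * Complex.exp (I * t * W (z j))) *
        (∑ k ∈ s, d k * Complex.exp (-(I * t * conj (W (z k)))))‖ ≤ ‖f‖ ^ 2 := by
      intro t ht
      rw [Set.uIoc_of_le zero_le_one] at ht
      have ht' : t ∈ Set.Icc (0:ℝ) 1 := ⟨ht.1.le, ht.2⟩
      have f1 : (∑ k ∈ s, d k * Complex.exp (-(I * t * conj (W (z k))))) = f ⟨t, ht'⟩ := by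
        rw [hf, ContinuousMap.coe_sum, Finset.sum_apply]
        apply Finset.sum_congr rfl
        intro k _
        rw [ContinuousMap.smul_apply, e_apply, smul_eq_mul]
      have f2 : (∑ j ∈ s, conj (d j) * Complex.exp (I * t * W (z j))) = conj (f ⟨t, ht'⟩) := by
        rw [← f1, map_sum]
        apply Finset.sum_congr rfl
        intro k _
        rw [map_mul, ← Complex.exp_conj, map_neg, map_mul, map_mul, conj_I, Complex.conj_ofReal,
          Complex.conj_conj]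
        congr 2
        ring
      rw [f1, f2, norm_mul, RCLike.norm_conj, ← sq]
      have := ContinuousMap.norm_coe_le_norm f ⟨t, ht'⟩
      gcongr
    have := intervalIntegral.norm_integral_le_of_norm_le_const hle
    simpa using this
  rw [p2, p3, p4] at hp
  simp only [Complex.add_re, Complex.conj_re] at hp
  rw [p1] at hp
  have p6 : ((1 / 2 : ℂ) * (conj c0 * (W z0 + I)) * ∑ j ∈ s, d j * lam h z0 (z j)).re
      = (1 / 2) * (conj c0 * (W z0 + I) * ∑ j ∈ s, d j * lam h z0 (z j)).re := by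
    rw [mul_assoc]
    have : (1 / 2 : ℂ) = ((1 / 2 : ℝ) : ℂ) := by push_cast; rfl
    rw [this, Complex.re_ofReal_mul]
  rw [p6] at hp
  linarith

/-- The functional bound. -/
lemma bound' (s : Finset ι) (z : ι → ℂ) (hz : ∀ j, z j ∈ ball (0:ℂ) 1) {h : ℂ → ℂ}
    (hh : DifferentiableOn ℂ h (ball 0 1)) (hb : ∀ ζ ∈ ball (0:ℂ) 1, ‖h ζ‖ ≤ 1)
    (hS : ∀ j, h (z j) = S (z j)) {z0 : ℂ} (hz0 : z0 ∈ ball (0:ℂ) 1) (d : ι → ℂ) :
    ‖∑ j ∈ s, d j * lam h z0 (z j)‖ ≤
      (Real.sqrt (2 * ((1 - ‖h z0‖ ^ 2) / (1 - ‖z0‖ ^ 2) + 1)) / ‖W z0 + I‖) *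
        ‖∑ j ∈ s, d j • e (conj (W (z j)))‖ := by
  set K := (1 - ‖h z0‖ ^ 2) / (1 - ‖z0‖ ^ 2) with hK
  set X := ∑ j ∈ s, d j * lam h z0 (z j) with hX
  set f : C(Set.Icc (0:ℝ) 1, ℂ) := ∑ j ∈ s, d j • e (conj (W (z j))) with hf
  have hz0' : ‖z0‖ < 1 := by simpa using hz0
  have hK0 : 0 ≤ K := by
    apply div_nonneg
    · have := hb z0 hz0
      nlinarith [norm_nonneg (h z0)]
    · nlinarith [norm_nonneg z0]
  have hα : 0 < ‖W z0 + I‖ := norm_pos_iff.2 (W_add_I_ne hz0)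
  set Y := (W z0 + I) * X with hY
  set τ : ℝ := 1 / (2 * (K + 1)) with hτ
  have hτ0 : 0 < τ := by positivity
  have h1 := bound s z hz hh hb hS hz0 d (-(τ:ℂ) * Y)
  rw [← hf, ← hK, ← hX] at h1
  have e1 : (conj (-(τ:ℂ) * Y) * (W z0 + I) * X).re = -τ * ‖Y‖ ^ 2 := by
    have : conj (-(τ:ℂ) * Y) * (W z0 + I) * X = ((-τ * ‖Y‖ ^ 2 : ℝ) : ℂ) := by
      rw [map_mul, map_neg, Complex.conj_ofReal, mul_assoc, ← hY, mul_assoc, mul_comm (conj Y),
        Complex.mul_conj, Complex.normSq_eq_norm_sq]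
      push_cast
      ring
    rw [this, Complex.ofReal_re]
  have e2 : ‖-(τ:ℂ) * Y‖ ^ 2 = τ ^ 2 * ‖Y‖ ^ 2 := by
    rw [norm_mul, norm_neg, Complex.norm_real, Real.norm_of_nonneg hτ0.le]
    ring
  rw [e1, e2] at h1
  have h2 : τ * K ≤ 1 / 2 := by
    rw [hτ, one_div, inv_mul_le_iff₀ (by positivity)]
    linarith
  have h3 : τ * ‖Y‖ ^ 2 ≤ ‖f‖ ^ 2 := by
    have h4 : τ ^ 2 * ‖Y‖ ^ 2 * K ≤ (1/2) * (τ * ‖Y‖ ^ 2) := by
      have : τ ^ 2 * ‖Y‖ ^ 2 * K = (τ * K) * (τ * ‖Y‖ ^ 2) := by ring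
      rw [this]
      apply mul_le_mul_of_nonneg_right h2 (by positivity)
    linarith
  have h5 : ‖Y‖ ^ 2 ≤ (2 * (K + 1)) * ‖f‖ ^ 2 := by
    have h6 : ‖Y‖ ^ 2 = (2 * (K + 1)) * (τ * ‖Y‖ ^ 2) := by
      rw [hτ]
      field_simp
    rw [h6]
    apply mul_le_mul_of_nonneg_left h3 (by positivity)
  have h7 : ‖Y‖ ≤ Real.sqrt (2 * (K + 1)) * ‖f‖ := by
    apply le_of_sq_le_sq _ (by positivity)
    rw [mul_pow, Real.sq_sqrt (by positivity)]
    exact h5
  rw [hY, norm_mul] at h7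
  rw [div_mul_eq_mul_div, le_div_iff₀ hα]
  linarith

/-- The entire function attached to a competitor `h`. -/
lemma exists_entire (z : ι → ℂ) (hz : ∀ j, z j ∈ ball (0:ℂ) 1) {h : ℂ → ℂ}
    (hh : DifferentiableOn ℂ h (ball 0 1)) (hb : ∀ ζ ∈ ball (0:ℂ) 1, ‖h ζ‖ ≤ 1)
    (hS : ∀ j, h (z j) = S (z j)) {z0 : ℂ} (hz0 : z0 ∈ ball (0:ℂ) 1) :
    ∃ (G : ℂ → ℂ) (M : ℝ), Differentiable ℂ G ∧ (∀ s, ‖G s‖ ≤ M * Real.exp (2 * ‖s‖)) ∧
      (∀ j, G (conj (W (z j))) = 0) ∧ (G (W z0) = 0 → h z0 = S z0) := by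
  obtain ⟨F, hF⟩ := helly (fun j => e (conj (W (z j)))) (fun j => lam h z0 (z j))
    (Real.sqrt (2 * ((1 - ‖h z0‖ ^ 2) / (1 - ‖z0‖ ^ 2) + 1)) / ‖W z0 + I‖) (by
      intro d
      rw [Finsupp.linearCombination_apply, Finsupp.linearCombination_apply, Finsupp.sum,
        Finsupp.sum]
      exact bound' d.support z hz hh hb hS hz0 d)
  refine ⟨fun s => -(I * (W z0 - s) * F (e s)) - (1 - h z0 * Complex.exp (-(I * s))),
    (‖W z0‖ + 1) * ‖F‖ + 1 + ‖h z0‖, ?_, ?_, ?_, ?_⟩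
  · have h1 : Differentiable ℂ (fun s => F (e s)) := by
      intro s
      exact (F.differentiableAt.comp s (e_hasDeriv s).differentiableAt)
    have h2 : Differentiable ℂ (fun s : ℂ => I * (W z0 - s)) := by fun_prop
    have h3 : Differentiable ℂ (fun s : ℂ => 1 - h z0 * Complex.exp (-(I * s))) := by fun_prop
    exact (h2.mul h1).neg.sub h3
  · intro s
    have hx : 1 ≤ Real.exp ‖s‖ := Real.one_le_exp (norm_nonneg _)
    have hx2 : Real.exp (2 * ‖s‖) = Real.exp ‖s‖ * Real.exp ‖s‖ := by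
      rw [two_mul, Real.exp_add]
    have hsx : ‖s‖ ≤ Real.exp ‖s‖ := by
      have := Real.add_one_le_exp ‖s‖
      linarith
    have h1 : ‖F (e s)‖ ≤ ‖F‖ * Real.exp ‖s‖ :=
      (F.le_opNorm _).trans (mul_le_mul_of_nonneg_left (e_norm s) (norm_nonneg _))
    have h2 : ‖W z0 - s‖ ≤ (‖W z0‖ + 1) * Real.exp ‖s‖ := by
      refine (norm_sub_le _ _).trans ?_
      nlinarith [norm_nonneg (W z0)]
    have h3 : ‖Complex.exp (-(I * s))‖ ≤ Real.exp ‖s‖ := by
      rw [Complex.norm_exp]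
      apply Real.exp_le_exp.2
      refine (Complex.re_le_norm _).trans ?_
      rw [norm_neg, norm_mul, norm_I, one_mul]
    calc ‖-(I * (W z0 - s) * F (e s)) - (1 - h z0 * Complex.exp (-(I * s)))‖
        ≤ ‖-(I * (W z0 - s) * F (e s))‖ + ‖1 - h z0 * Complex.exp (-(I * s))‖ := norm_sub_le _ _
      _ ≤ ‖W z0 - s‖ * ‖F (e s)‖ + (1 + ‖h z0‖ * ‖Complex.exp (-(I * s))‖) := by
          gcongr
          · rw [norm_neg, norm_mul, norm_mul, norm_I, one_mul]
          · refine (norm_sub_le _ _).trans ?_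
            rw [norm_one, norm_mul]
      _ ≤ ((‖W z0‖ + 1) * Real.exp ‖s‖) * (‖F‖ * Real.exp ‖s‖)
          + (1 + ‖h z0‖ * Real.exp ‖s‖) := by
          gcongr
      _ ≤ ((‖W z0‖ + 1) * ‖F‖ + 1 + ‖h z0‖) * Real.exp (2 * ‖s‖) := by
          rw [hx2]
          have h5 : (1:ℝ) ≤ Real.exp ‖s‖ * Real.exp ‖s‖ := by nlinarith
          have h6 : Real.exp ‖s‖ ≤ Real.exp ‖s‖ * Real.exp ‖s‖ := by nlinarith
          nlinarith [norm_nonneg (h z0), mul_le_mul_of_nonneg_left h6 (norm_nonneg (h z0))]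
  · intro j
    simp only
    rw [hF j]
    unfold lam
    have hne := W_sub_conj_ne hz0 (hz j)
    rw [conj_S]
    field_simp
    rw [I_sq]
    ring
  · intro h0
    simp only [sub_self, mul_zero, zero_mul, neg_zero, zero_sub, neg_eq_zero] at h0
    rw [S_eq]
    have h1 : h z0 * Complex.exp (-(I * W z0)) = 1 := (sub_eq_zero.1 h0).symm
    calc h z0 = h z0 * (Complex.exp (-(I * W z0)) * Complex.exp (I * W z0)) := by
          rw [← Complex.exp_add, neg_add_cancel, Complex.exp_zero, mul_one]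
      _ = (h z0 * Complex.exp (-(I * W z0))) * Complex.exp (I * W z0) := by ring
      _ = _ := by rw [h1, one_mul]

end

end Pool.Agent.Helper897.InnerUnique
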