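import Mathlib
import Pool.Agent.Helper897.InnerUnique

set_option autoImplicit false

open Complex ComplexConjugate Metric Filter Topology

namespace Pool.Agent.Helper897.InnerUnique

noncomputable section

lemma W_im_pos {z : ℂ} (hz : z ∈ ball (0:ℂ) 1) : 0 < (W z).im := by
  have hz' : ‖z‖ < 1 := by simpa using hz
  have h1 := one_sub_ne hz
  have h2 : 0 < normSq (1 - z) := normSq_pos.2 h1
  unfold W
  rw [Complex.I_mul_im, Complex.div_re]
  have h3 : (1 + z).re * (1 - z).re / normSq (1 - z) + (1 + z).im * (1 - z).im / normSq (1 - z)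
      = (1 - ‖z‖ ^ 2) / normSq (1 - z) := by
    rw [← Complex.normSq_eq_norm_sq, ← add_div]
    congr 1
    simp only [Complex.add_re, Complex.sub_re, Complex.one_re, Complex.add_im, Complex.sub_im,
      Complex.one_im, Complex.normSq_apply]
    ring
  rw [h3]
  apply div_pos _ h2
  nlinarith [norm_nonneg z]

lemma S_ne_zero (z : ℂ) : S z ≠ 0 := Complex.exp_ne_zero _

lemma norm_S (z : ℂ) : ‖S z‖ = Real.exp (-(W z).im) := by
  rw [S_eq, Complex.norm_exp]
  congr 1
  rw [Complex.I_mul_re]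

lemma S_norm_le_one {z : ℂ} (hz : z ∈ ball (0:ℂ) 1) : ‖S z‖ ≤ 1 := by
  rw [norm_S, Real.exp_le_one_iff]
  have := W_im_pos hz
  linarith

lemma S_differentiableOn : DifferentiableOn ℂ S (ball 0 1) := by
  intro z hz
  apply DifferentiableAt.differentiableWithinAt
  unfold S
  have h1 := one_sub_ne hz
  apply DifferentiableAt.cexp
  apply DifferentiableAt.neg
  exact DifferentiableAt.div (by fun_prop) (by fun_prop) h1

lemma S_nonconst : S 0 ≠ S (-1/2) := by
  intro h
  have h1 : ‖S 0‖ = ‖S (-1/2)‖ := by rw [h]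
  unfold S at h1
  rw [Complex.norm_exp, Complex.norm_exp, Real.exp_eq_exp] at h1
  norm_num at h1

/-- Identity-theorem version: if the points tend to `-1`, the only function in the unit ball of
`H^∞` agreeing with `S` on them is `S`. -/
theorem unique_of_tendsto (z : ℕ → ℂ) (hz : ∀ n, z n ∈ ball (0:ℂ) 1)
    (hlim : Tendsto z atTop (𝓝 (-1))) {h : ℂ → ℂ}
    (hh : DifferentiableOn ℂ h (ball 0 1)) (hb : ∀ ζ ∈ ball (0:ℂ) 1, ‖h ζ‖ ≤ 1)
    (hS : ∀ n, h (z n) = S (z n)) : Set.EqOn h S (ball 0 1) := by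
  intro z0 hz0
  obtain ⟨G, M, hG, -, hzero, hfin⟩ := exists_entire z hz hh hb hS hz0
  apply hfin
  have hW : Tendsto (fun n => conj (W (z n))) atTop (𝓝 0) := by
    have h1 : ContinuousAt (fun z => conj (W z)) (-1) := by
      unfold W
      apply Complex.continuous_conj.continuousAt.comp
      apply ContinuousAt.mul continuousAt_const
      apply ContinuousAt.div (by fun_prop) (by fun_prop)
      norm_num
    have h2 : conj (W (-1)) = 0 := by
      unfold W
      simp
    have h3 := h1.tendsto.comp hlim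
    rw [h2] at h3
    exact h3
  have hne : ∀ n, conj (W (z n)) ≠ 0 := by
    intro n h0
    have h1 := W_im_pos (hz n)
    have h2 : W (z n) = 0 := by
      have := congrArg conj h0
      rwa [Complex.conj_conj, map_zero] at this
    rw [h2] at h1
    simp at h1
  have hfreq : ∃ᶠ s in 𝓝[≠] (0:ℂ), G s = 0 := by
    have h1 : Tendsto (fun n => conj (W (z n))) atTop (𝓝[≠] 0) := by
      rw [tendsto_nhdsWithin_iff]
      exact ⟨hW, Eventually.of_forall hne⟩
    exact h1.frequently (Frequently.of_forall hzero)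
  have han : AnalyticOnNhd ℂ G Set.univ := by
    intro s _
    exact (hG.differentiableOn.analyticAt (s := Set.univ) univ_mem)
  have := han.eqOn_zero_of_preconnected_of_frequently_eq_zero isPreconnected_univ
    (Set.mem_univ 0) hfreq
  exact this (Set.mem_univ _)

/-- Division of an entire function by finitely many of its zeros. -/
lemma div_zeros {G : ℂ → ℂ} (hG : Differentiable ℂ G) (Z : Finset ℂ) (hZ : ∀ a ∈ Z, G a = 0) :
    ∃ Q : ℂ → ℂ, Differentiable ℂ Q ∧ ∀ s, G s = (∏ a ∈ Z, (s - a)) * Q s := by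
  classical
  induction Z using Finset.induction_on with
  | empty => exact ⟨G, hG, by simp⟩
  | insert b Z hb ih =>
    obtain ⟨Q, hQ, hGQ⟩ := ih (fun a ha => hZ a (Finset.mem_insert_of_mem ha))
    have hQb : Q b = 0 := by
      have h1 := hZ b (Finset.mem_insert_self b Z)
      rw [hGQ b, mul_eq_zero] at h1
      rcases h1 with h1 | h1
      · exfalso
        rw [Finset.prod_eq_zero_iff] at h1
        obtain ⟨a, ha, hab⟩ := h1
        rw [sub_eq_zero] at hab
        rw [hab] at hb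
        exact hb ha
      · exact h1
    refine ⟨dslope Q b, ?_, ?_⟩
    · rw [← differentiableOn_univ]
      rw [Complex.differentiableOn_dslope univ_mem]
      exact hQ.differentiableOn
    · intro s
      rw [Finset.prod_insert hb, hGQ s]
      have h2 := sub_smul_dslope Q b s
      rw [hQb, sub_zero, smul_eq_mul] at h2
      rw [← h2]
      ring

/-- Too many zeros force smallness. -/
lemma norm_le_of_zeros {G : ℂ → ℂ} (hG : Differentiable ℂ G) {M : ℝ}
    (hM : ∀ s, ‖G s‖ ≤ M * Real.exp (2 * ‖s‖)) (Z : Finset ℂ) (hZ : ∀ a ∈ Z, G a = 0) {ρ : ℝ}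
    (hρ : 0 < ρ) (hZρ : ∀ a ∈ Z, ‖a‖ ≤ ρ) {s0 : ℂ} (hs0 : ‖s0‖ ≤ ρ) :
    ‖G s0‖ ≤ M * Real.exp (10 * ρ) / 2 ^ Z.card := by
  obtain ⟨Q, hQ, hGQ⟩ := div_zeros hG Z hZ
  have hM0 : 0 ≤ M := by
    have := (norm_nonneg _).trans (hM 0)
    rw [norm_zero, mul_zero, Real.exp_zero, mul_one] at this
    exact this
  have hR : (0:ℝ) < 5 * ρ := by positivity
  -- bound on the circle of radius 5ρ
  have hcirc : ∀ s ∈ frontier (ball (0:ℂ) (5 * ρ)),
      ‖Q s‖ ≤ M * Real.exp (10 * ρ) / (4 * ρ) ^ Z.card := by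
    intro s hs
    rw [frontier_ball _ hR.ne'] at hs
    have hs' : ‖s‖ = 5 * ρ := by simpa using hs
    have h1 := hM s
    rw [hGQ s, norm_mul, hs'] at h1
    have h2 : (4 * ρ) ^ Z.card ≤ ‖∏ a ∈ Z, (s - a)‖ := by
      rw [norm_prod]
      rw [← Finset.prod_const]
      apply Finset.prod_le_prod
      · intro a _
        positivity
      · intro a ha
        have := norm_sub_norm_le s a
        have h3 := hZρ a ha
        linarith
    rw [le_div_iff₀ (by positivity)]
    calc ‖Q s‖ * (4 * ρ) ^ Z.card ≤ ‖Q s‖ * ‖∏ a ∈ Z, (s - a)‖ := by gcongr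
      _ = ‖∏ a ∈ Z, (s - a)‖ * ‖Q s‖ := mul_comm _ _
      _ ≤ M * Real.exp (2 * (5 * ρ)) := h1
      _ = M * Real.exp (10 * ρ) := by ring_nf
  have hQs0 : ‖Q s0‖ ≤ M * Real.exp (10 * ρ) / (4 * ρ) ^ Z.card := by
    apply Complex.norm_le_of_forall_mem_frontier_norm_le isBounded_ball hQ.diffContOnCl hcirc
    rw [closure_ball _ hR.ne', mem_closedBall_zero_iff]
    linarith
  rw [hGQ s0, norm_mul]
  have h3 : ‖∏ a ∈ Z, (s0 - a)‖ ≤ (2 * ρ) ^ Z.card := by
    rw [norm_prod, ← Finset.prod_const]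
    apply Finset.prod_le_prod
    · intro a _
      exact norm_nonneg _
    · intro a ha
      have := norm_sub_le s0 a
      have h3 := hZρ a ha
      linarith
  calc ‖∏ a ∈ Z, (s0 - a)‖ * ‖Q s0‖
      ≤ (2 * ρ) ^ Z.card * (M * Real.exp (10 * ρ) / (4 * ρ) ^ Z.card) := by gcongr
    _ = M * Real.exp (10 * ρ) / 2 ^ Z.card := by
        have h4 : (4 * ρ) ^ Z.card = 2 ^ Z.card * (2 * ρ) ^ Z.card := by
          rw [← mul_pow]
          congr 1
          ring
        rw [h4]
        field_simp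

/-- Density version: if for arbitrarily large `ρ` there are at least `20 ρ` of the points `W(z_j)`
in the disc of radius `ρ`, the only function in the unit ball of `H^∞` agreeing with `S` on the
points is `S`. -/
theorem unique_of_density {ι : Type*} (z : ι → ℂ) (hz : ∀ j, z j ∈ ball (0:ℂ) 1)
    (hdens : ∀ m : ℕ, ∃ ρ : ℕ, m ≤ ρ ∧ ∃ Z : Finset ι, Z.card = 20 * ρ ∧
      Set.InjOn (fun j => W (z j)) (Z : Set ι) ∧ ∀ j ∈ Z, ‖W (z j)‖ ≤ ρ) {h : ℂ → ℂ}
    (hh : DifferentiableOn ℂ h (ball 0 1)) (hb : ∀ ζ ∈ ball (0:ℂ) 1, ‖h ζ‖ ≤ 1)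
    (hS : ∀ n, h (z n) = S (z n)) : Set.EqOn h S (ball 0 1) := by
  classical
  intro z0 hz0
  obtain ⟨G, M, hG, hM, hzero, hfin⟩ := exists_entire z hz hh hb hS hz0
  apply hfin
  set s0 := W z0
  have key : ∀ m : ℕ, 0 < m → ‖s0‖ ≤ m → ∃ ρ : ℕ, m ≤ ρ ∧ ‖G s0‖ ≤ M * (Real.exp 1 / 4) ^ (10 * ρ) := by
    intro m hm0 hm
    obtain ⟨ρ, hmρ, Z, hZc, hZi, hZρ⟩ := hdens m
    refine ⟨ρ, hmρ, ?_⟩
    have hρ0 : (0:ℝ) < ρ := by
      have : 0 < ρ := lt_of_lt_of_le hm0 hmρ
      exact_mod_cast this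
    set Z' : Finset ℂ := Z.image (fun j => conj (W (z j))) with hZ'
    have hcard : Z'.card = 20 * ρ := by
      rw [hZ', Finset.card_image_of_injOn, hZc]
      intro i hi j hj hij
      apply hZi hi hj
      have := congrArg conj hij
      simpa using this
    have h1 := norm_le_of_zeros hG hM Z' (by
      intro a ha
      rw [hZ', Finset.mem_image] at ha
      obtain ⟨j, _, rfl⟩ := ha
      exact hzero j) hρ0 (by
      intro a ha
      rw [hZ', Finset.mem_image] at ha
      obtain ⟨j, hj, rfl⟩ := ha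
      rw [RCLike.norm_conj]
      exact hZρ j hj) (s0 := s0) (hm.trans (by exact_mod_cast hmρ))
    rw [hcard] at h1
    refine h1.trans (le_of_eq ?_)
    have h2 : Real.exp (10 * ρ) = Real.exp 1 ^ (10 * ρ) := by
      rw [← Real.exp_nat_mul]
      push_cast
      ring_nf
    have h3 : (2:ℝ) ^ (20 * ρ) = 4 ^ (10 * ρ) := by
      have : 20 * ρ = 2 * (10 * ρ) := by ring
      rw [this, pow_mul]
      norm_num
    rw [h2, h3, div_pow, mul_div_assoc]
  have hM0 : 0 ≤ M := by
    have := (norm_nonneg _).trans (hM 0)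
    rw [norm_zero, mul_zero, Real.exp_zero, mul_one] at this
    exact this
  have hq0 : 0 ≤ Real.exp 1 / 4 := by positivity
  have hq1 : Real.exp 1 / 4 < 1 := by
    rw [div_lt_one (by norm_num)]
    have := Real.exp_one_lt_d9
    linarith
  have hle : ∀ m : ℕ, 0 < m → ‖s0‖ ≤ m → ‖G s0‖ ≤ M * (Real.exp 1 / 4) ^ m := by
    intro m hm0 hm
    obtain ⟨ρ, hmρ, h1⟩ := key m hm0 hm
    refine h1.trans ?_
    apply mul_le_mul_of_nonneg_left _ hM0
    apply pow_le_pow_of_le_one hq0 hq1.le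
    omega
  have hlim : Tendsto (fun m : ℕ => M * (Real.exp 1 / 4) ^ m) atTop (𝓝 0) := by
    have := (tendsto_pow_atTop_nhds_zero_of_lt_one hq0 hq1).const_mul M
    rwa [mul_zero] at this
  have h0 : ‖G s0‖ ≤ 0 := by
    refine ge_of_tendsto hlim ?_
    obtain ⟨m0, hm0⟩ := exists_nat_ge ‖s0‖
    filter_upwards [eventually_ge_atTop (max m0 1)] with m hm
    apply hle m (by omega)
    refine hm0.trans ?_
    have : m0 ≤ m := le_trans (le_max_left _ _) hm
    exact_mod_cast this
  exact norm_le_zero_iff.1 h0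

/-- Inverse Cayley transform. -/
def Z (w : ℂ) : ℂ := (w - I) / (w + I)

lemma add_I_ne {w : ℂ} (hw : 0 < w.im) : w + I ≠ 0 := by
  intro h
  have : (w + I).im = 0 := by rw [h]; rfl
  rw [Complex.add_im, Complex.I_im] at this
  linarith

lemma one_sub_norm_sq_Z {w : ℂ} (hw : 0 < w.im) :
    1 - ‖Z w‖ ^ 2 = 4 * w.im / normSq (w + I) := by
  have h := add_I_ne hw
  have h2 : 0 < normSq (w + I) := normSq_pos.2 h
  unfold Z
  rw [norm_div, div_pow, ← Complex.normSq_eq_norm_sq, ← Complex.normSq_eq_norm_sq]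
  field_simp
  simp only [Complex.normSq_apply, Complex.add_re, Complex.add_im, Complex.sub_re, Complex.sub_im,
    Complex.I_re, Complex.I_im]
  ring

lemma Z_mem {w : ℂ} (hw : 0 < w.im) : Z w ∈ ball (0:ℂ) 1 := by
  rw [mem_ball_zero_iff]
  have h := one_sub_norm_sq_Z hw
  have h2 : 0 < normSq (w + I) := normSq_pos.2 (add_I_ne hw)
  have h3 : 0 < 4 * w.im / normSq (w + I) := by positivity
  nlinarith [norm_nonneg (Z w)]

lemma W_Z {w : ℂ} (hw : 0 < w.im) : W (Z w) = w := by
  have h := add_I_ne hw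
  unfold W Z
  have h1 : 1 - (w - I) / (w + I) = 2 * I / (w + I) := by
    field_simp
    ring
  have h2 : 1 + (w - I) / (w + I) = 2 * w / (w + I) := by
    field_simp
    ring
  rw [h1, h2]
  have hI := I_ne_zero
  field_simp

end

end Pool.Agent.Helper897.InnerUnique
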