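import Mathlib
import Pool.Agent.Helper897.InnerUnique2

set_option autoImplicit false

open Complex ComplexConjugate Metric Filter Topology

namespace Pool.Agent.Helper897.BlaschkeDiv

open Pool.Agent.Helper897.PickIneq Pool.Agent.Helper897.InnerUnique

noncomputable section

lemma normSq_identity (a z : ℂ) :
    ‖1 - conj a * z‖ ^ 2 = ‖z - a‖ ^ 2 + (1 - ‖a‖ ^ 2) * (1 - ‖z‖ ^ 2) := by
  simp only [← Complex.normSq_eq_norm_sq, Complex.normSq_apply, Complex.sub_re, Complex.sub_im,
    Complex.mul_re, Complex.mul_im, Complex.conj_re, Complex.conj_im, Complex.one_re,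
    Complex.one_im]
  ring

lemma div_step {g : ℂ → ℂ} {M : ℝ} (hg : DifferentiableOn ℂ g (ball 0 1))
    (hM : ∀ z ∈ ball (0:ℂ) 1, ‖g z‖ ≤ M) {a : ℂ} (ha : a ∈ ball (0:ℂ) 1) (hga : g a = 0) :
    ∃ g1 : ℂ → ℂ, DifferentiableOn ℂ g1 (ball 0 1) ∧ (∀ z ∈ ball (0:ℂ) 1, ‖g1 z‖ ≤ M) ∧
      ∀ z, g z * (1 - conj a * z) = (z - a) * g1 z := by
  have hM0 : 0 ≤ M := (norm_nonneg _).trans (hM a ha)
  have hdiv : ∀ z, g z * (1 - conj a * z) = (z - a) * (dslope g a z * (1 - conj a * z)) := by
    intro z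
    have h2 := sub_smul_dslope g a z
    rw [hga, sub_zero, smul_eq_mul] at h2
    rw [← mul_assoc, h2]
  have hd : DifferentiableOn ℂ (fun z => dslope g a z * (1 - conj a * z)) (ball 0 1) := by
    apply DifferentiableOn.mul
    · rw [Complex.differentiableOn_dslope (isOpen_ball.mem_nhds ha)]
      exact hg
    · fun_prop
  refine ⟨fun z => dslope g a z * (1 - conj a * z), hd, ?_, hdiv⟩
  intro z0 hz0
  have hz0' : ‖z0‖ < 1 := by simpa using hz0
  have ha' : ‖a‖ < 1 := by simpa using ha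
  have key : ∀ r : ℝ, max ‖z0‖ ‖a‖ < r → r < 1 →
      ‖dslope g a z0 * (1 - conj a * z0)‖ ^ 2 ≤ M ^ 2 * (1 + (1 - r ^ 2) / (r - ‖a‖) ^ 2) := by
    intro r hr hr1
    have hrz : ‖z0‖ < r := lt_of_le_of_lt (le_max_left _ _) hr
    have hra : ‖a‖ < r := lt_of_le_of_lt (le_max_right _ _) hr
    have hr0 : 0 < r := lt_of_le_of_lt (norm_nonneg _) hra
    have hsub : closedBall (0:ℂ) r ⊆ ball 0 1 := closedBall_subset_ball hr1
    have hb : ‖dslope g a z0 * (1 - conj a * z0)‖ ≤ M * Real.sqrt (1 + (1 - r ^ 2) / (r - ‖a‖) ^ 2) := by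
      apply Complex.norm_le_of_forall_mem_frontier_norm_le
        (f := fun z => dslope g a z * (1 - conj a * z)) (U := ball 0 r) isBounded_ball
      · constructor
        · exact hd.mono (ball_subset_closedBall.trans hsub)
        · rw [closure_ball _ hr0.ne']
          exact hd.continuousOn.mono hsub
      · intro z hz
        rw [frontier_ball _ hr0.ne'] at hz
        have hzr : ‖z‖ = r := by simpa using hz
        have hzm : z ∈ ball (0:ℂ) 1 := by
          rw [mem_ball_zero_iff, hzr]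
          exact hr1
        have h1 := hdiv z
        have h2 : 0 < ‖z - a‖ := by
          have := norm_sub_norm_le z a
          rw [hzr] at this
          linarith
        have h3 : r - ‖a‖ ≤ ‖z - a‖ := by
          have := norm_sub_norm_le z a
          rwa [hzr] at this
        have h4 : ‖1 - conj a * z‖ ≤ Real.sqrt (1 + (1 - r ^ 2) / (r - ‖a‖) ^ 2) * ‖z - a‖ := by
          apply le_of_sq_le_sq _ (by positivity)
          rw [mul_pow, Real.sq_sqrt, normSq_identity, hzr]
          · have h5 : (1 - ‖a‖ ^ 2) * (1 - r ^ 2) ≤ (1 - r ^ 2) / (r - ‖a‖) ^ 2 * ‖z - a‖ ^ 2 := by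
              have h6 : 0 ≤ 1 - r ^ 2 := by nlinarith
              have h7 : 1 ≤ ‖z - a‖ ^ 2 / (r - ‖a‖) ^ 2 := by
                rw [one_le_div (by nlinarith)]
                nlinarith
              have h8 : (1 - ‖a‖ ^ 2) ≤ 1 := by nlinarith [norm_nonneg a]
              calc (1 - ‖a‖ ^ 2) * (1 - r ^ 2) ≤ 1 * (1 - r ^ 2) :=
                    mul_le_mul_of_nonneg_right h8 h6
                _ ≤ (‖z - a‖ ^ 2 / (r - ‖a‖) ^ 2) * (1 - r ^ 2) :=
                    mul_le_mul_of_nonneg_right h7 h6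
                _ = _ := by ring
            linarith
          · have h6 : 0 ≤ 1 - r ^ 2 := by nlinarith
            positivity
        have h5 : ‖z - a‖ * ‖dslope g a z * (1 - conj a * z)‖
            ≤ ‖z - a‖ * (M * Real.sqrt (1 + (1 - r ^ 2) / (r - ‖a‖) ^ 2)) := by
          rw [← norm_mul, ← h1, norm_mul]
          calc ‖g z‖ * ‖1 - conj a * z‖
              ≤ M * (Real.sqrt (1 + (1 - r ^ 2) / (r - ‖a‖) ^ 2) * ‖z - a‖) :=
                mul_le_mul (hM z hzm) h4 (norm_nonneg _) hM0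
            _ = _ := by ring
        exact le_of_mul_le_mul_left h5 h2
      · rw [closure_ball _ hr0.ne', mem_closedBall_zero_iff]
        exact hrz.le
    have hx : 0 ≤ 1 + (1 - r ^ 2) / (r - ‖a‖) ^ 2 := by
      have h6 : 0 ≤ 1 - r ^ 2 := by nlinarith
      positivity
    calc ‖dslope g a z0 * (1 - conj a * z0)‖ ^ 2
        ≤ (M * Real.sqrt (1 + (1 - r ^ 2) / (r - ‖a‖) ^ 2)) ^ 2 := by gcongr
      _ = _ := by rw [mul_pow, Real.sq_sqrt hx]
  have hlim : Tendsto (fun r : ℝ => M ^ 2 * (1 + (1 - r ^ 2) / (r - ‖a‖) ^ 2)) (𝓝[<] 1)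
      (𝓝 (M ^ 2 * (1 + (1 - 1 ^ 2) / (1 - ‖a‖) ^ 2))) := by
    apply Tendsto.mono_left _ nhdsWithin_le_nhds
    apply ContinuousAt.tendsto (f := fun r : ℝ => M ^ 2 * (1 + (1 - r ^ 2) / (r - ‖a‖) ^ 2))
    apply ContinuousAt.mul continuousAt_const
    apply ContinuousAt.add continuousAt_const
    apply ContinuousAt.div (by fun_prop) (by fun_prop)
    have : 1 - ‖a‖ ≠ 0 := by linarith
    exact pow_ne_zero 2 this
  have hfin : ‖dslope g a z0 * (1 - conj a * z0)‖ ^ 2 ≤ M ^ 2 * (1 + (1 - 1 ^ 2) / (1 - ‖a‖) ^ 2) := by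
    refine ge_of_tendsto hlim ?_
    filter_upwards [Ioo_mem_nhdsLT (max_lt hz0' ha')] with r hr
    exact key r hr.1 hr.2
  have : M ^ 2 * (1 + (1 - 1 ^ 2) / (1 - ‖a‖) ^ 2) = M ^ 2 := by norm_num
  rw [this] at hfin
  exact le_of_sq_le_sq hfin hM0

/-- A bounded analytic function with given zeros is dominated by the Blaschke product. -/
lemma div_prod (F : Finset ℂ) (hF : ∀ a ∈ F, a ∈ ball (0:ℂ) 1) {M : ℝ} :
    ∀ {g : ℂ → ℂ}, DifferentiableOn ℂ g (ball 0 1) → (∀ z ∈ ball (0:ℂ) 1, ‖g z‖ ≤ M) →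
      (∀ a ∈ F, g a = 0) → ∀ z ∈ ball (0:ℂ) 1,
      ‖g z‖ ≤ M * ∏ a ∈ F, ‖(z - a) / (1 - conj a * z)‖ := by
  classical
  induction F using Finset.induction_on with
  | empty =>
    intro g _ hM _ z hz
    simpa using hM z hz
  | insert b F hb ih =>
    intro g hg hM hz0 z hz
    obtain ⟨g1, hg1, hM1, hdiv⟩ := div_step hg hM (hF b (Finset.mem_insert_self b F))
      (hz0 b (Finset.mem_insert_self b F))
    have h1 := ih (fun a ha => hF a (Finset.mem_insert_of_mem ha)) hg1 hM1 (by
      intro a ha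
      have h2 := hdiv a
      rw [hz0 a (Finset.mem_insert_of_mem ha), zero_mul] at h2
      rcases mul_eq_zero.1 h2.symm with h3 | h3
      · exfalso
        rw [sub_eq_zero] at h3
        rw [h3] at ha
        exact hb ha
      · exact h3) z hz
    rw [Finset.prod_insert hb]
    have hden : 1 - conj b * z ≠ 0 := den_ne hz (hF b (Finset.mem_insert_self b F))
    have h3 : g z = ((z - b) / (1 - conj b * z)) * g1 z := by
      have := hdiv z
      rw [div_mul_eq_mul_div, eq_div_iff hden]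
      exact this
    rw [h3, norm_mul]
    calc ‖(z - b) / (1 - conj b * z)‖ * ‖g1 z‖
        ≤ ‖(z - b) / (1 - conj b * z)‖ * (M * ∏ a ∈ F, ‖(z - a) / (1 - conj a * z)‖) := by gcongr
      _ = _ := by ring

lemma sub_conj_ne {w v : ℂ} (hw : 0 < w.im) (hv : 0 < v.im) : w - conj v ≠ 0 := by
  intro h
  have : (w - conj v).im = 0 := by rw [h]; rfl
  rw [Complex.sub_im, Complex.conj_im] at this
  linarith

lemma rho_transfer {w v : ℂ} (hw : 0 < w.im) (hv : 0 < v.im) :
    ‖(Z w - Z v) / (1 - conj (Z v) * Z w)‖ = ‖(w - v) / (w - conj v)‖ := by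
  have h1 := add_I_ne hw
  have h2 := add_I_ne hv
  have h3 : conj v - I ≠ 0 := by
    intro h0
    apply h2
    have := congrArg conj h0
    simpa using this
  have h4 := sub_conj_ne hw hv
  have h5 : Z w - Z v = 2 * I * (w - v) / ((w + I) * (v + I)) := by
    unfold Z
    field_simp
    ring
  have h6 : 1 - conj (Z v) * Z w = -(2 * I) * (w - conj v) / ((w + I) * (conj v - I)) := by
    unfold Z
    rw [map_div₀, map_sub, map_add, conj_I]
    have : conj v + -I = conj v - I := by ring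
    rw [this]
    field_simp
    ring
  rw [h5, h6]
  have h7 : 2 * I * (w - v) / ((w + I) * (v + I)) / (-(2 * I) * (w - conj v) / ((w + I) * (conj v - I)))
      = -((w - v) / (w - conj v) * ((conj v - I) / (v + I))) := by
    have hI := I_ne_zero
    field_simp
  rw [h7, norm_neg, norm_mul]
  have h8 : ‖(conj v - I) / (v + I)‖ = 1 := by
    have : conj v - I = conj (v + I) := by
      rw [map_add, conj_I]
      ring
    rw [this, norm_div, RCLike.norm_conj, div_self]
    exact norm_ne_zero_iff.2 h2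
  rw [h8, mul_one]

lemma rho_le_exp {w v : ℂ} (hw : 0 < w.im) (hv : 0 < v.im) :
    ‖(w - v) / (w - conj v)‖ ≤ Real.exp (-(2 * w.im * v.im / ‖w - conj v‖ ^ 2)) := by
  have h4 := sub_conj_ne hw hv
  have h5 : 0 < ‖w - conj v‖ ^ 2 := by positivity
  apply le_of_sq_le_sq _ (Real.exp_pos _).le
  rw [← Real.exp_nat_mul, norm_div, div_pow]
  have h6 : ‖w - v‖ ^ 2 = ‖w - conj v‖ ^ 2 - 4 * w.im * v.im := by
    simp only [← Complex.normSq_eq_norm_sq, Complex.normSq_apply, Complex.sub_re, Complex.sub_im,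
      Complex.conj_re, Complex.conj_im]
    ring
  rw [h6, sub_div, div_self h5.ne']
  have h7 := Real.add_one_le_exp (-(4 * w.im * v.im / ‖w - conj v‖ ^ 2))
  have h8 : ((2:ℕ):ℝ) * -(2 * w.im * v.im / ‖w - conj v‖ ^ 2) = -(4 * w.im * v.im / ‖w - conj v‖ ^ 2) := by
    push_cast
    ring
  rw [h8]
  linarith

variable {ι : Type*}

/-- Half-plane version of `div_prod`. -/
lemma half_div (F : Finset ι) (v : ι → ℂ) (hv : ∀ j ∈ F, 0 < (v j).im)
    (hinj : Set.InjOn v (F : Set ι)) {M : ℝ}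
    {G : ℂ → ℂ} (hG : DifferentiableOn ℂ G {w | 0 < w.im}) (hM : ∀ w : ℂ, 0 < w.im → ‖G w‖ ≤ M)
    (h0 : ∀ j ∈ F, G (v j) = 0) {w : ℂ} (hw : 0 < w.im) :
    ‖G w‖ ≤ M * ∏ j ∈ F, ‖(w - v j) / (w - conj (v j))‖ := by
  classical
  have hinj' : Set.InjOn (fun j => Z (v j)) (F : Set ι) := by
    intro i hi j hj hij
    apply hinj hi hj
    have := congrArg W hij
    simpa only [W_Z (hv i hi), W_Z (hv j hj)] using this
  have h1 := div_prod (F.image (fun j => Z (v j))) (by
    intro a ha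
    rw [Finset.mem_image] at ha
    obtain ⟨j, hj, rfl⟩ := ha
    exact Z_mem (hv j hj)) (M := M) (g := fun z => G (W z)) (by
      intro z hz
      apply DifferentiableAt.differentiableWithinAt
      have h1 : DifferentiableAt ℂ G (W z) := by
        apply (hG (W z) (W_im_pos hz)).differentiableAt
        exact (isOpen_lt continuous_const Complex.continuous_im).mem_nhds
          (show W z ∈ {w : ℂ | (0:ℝ) < w.im} from W_im_pos hz)
      apply DifferentiableAt.comp z h1
      unfold W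
      have := one_sub_ne hz
      exact DifferentiableAt.const_mul (DifferentiableAt.div (by fun_prop) (by fun_prop) this) _)
    (fun z hz => hM _ (W_im_pos hz)) (by
      intro a ha
      rw [Finset.mem_image] at ha
      obtain ⟨j, hj, rfl⟩ := ha
      simp only [W_Z (hv j hj)]
      exact h0 j hj) (Z w) (Z_mem hw)
  rw [Finset.prod_image (fun i hi j hj hij => hinj' hi hj hij)] at h1
  simp only [W_Z hw] at h1
  refine h1.trans (le_of_eq ?_)
  congr 1
  apply Finset.prod_congr rfl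
  intro j hj
  exact rho_transfer hw (hv j hj)

end

end Pool.Agent.Helper897.BlaschkeDiv
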