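import Mathlib

set_option autoImplicit false

open Complex Metric Filter Topology

namespace Pool.Agent.Helper897.EntireMontel

noncomputable section

/-- `|Im z| + log (1 + |z|^2)`. -/
def rho (z : ℂ) : ℝ := |z.im| + Real.log (1 + ‖z‖ ^ 2)

lemma rho_nonneg (z : ℂ) : 0 ≤ rho z := by
  unfold rho
  have := Real.log_nonneg (show (1:ℝ) ≤ 1 + ‖z‖ ^ 2 by nlinarith [norm_nonneg z])
  positivity

lemma rho_le (z : ℂ) : rho z ≤ 3 * ‖z‖ := by
  unfold rho
  have h1 := Complex.abs_im_le_norm z
  have h2 : Real.log (1 + ‖z‖ ^ 2) ≤ 2 * ‖z‖ := by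
    calc Real.log (1 + ‖z‖ ^ 2) ≤ Real.log ((1 + ‖z‖) ^ 2) := by
          apply Real.log_le_log (by positivity)
          nlinarith [norm_nonneg z]
      _ = 2 * Real.log (1 + ‖z‖) := by
          rw [Real.log_pow]
          norm_num
      _ ≤ 2 * ‖z‖ := by
          have := Real.log_le_sub_one_of_pos (show 0 < 1 + ‖z‖ by positivity)
          linarith
  linarith

lemma one_add_sq_le (z : ℂ) : 1 + ‖z‖ ^ 2 ≤ Real.exp (rho z) := by
  unfold rho
  rw [Real.exp_add, Real.exp_log (by positivity)]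
  have h1 : 1 ≤ Real.exp |z.im| := Real.one_le_exp (abs_nonneg _)
  nlinarith [norm_nonneg z]

/-- Coefficient estimate. -/
lemma coef_le {m : ℝ} (hm : 0 ≤ m) {g : ℂ → ℂ} (hg : Differentiable ℂ g)
    (hb : ∀ z, ‖g z‖ ≤ m * Real.exp (m * rho z)) (k : ℕ) {R : ℝ} (hR : 0 < R) :
    ‖(k.factorial : ℂ)⁻¹ * iteratedDeriv k g 0‖ ≤ m * Real.exp (3 * m * R) / R ^ k := by
  have h1 : ‖iteratedDeriv k g 0‖ ≤ k.factorial * (m * Real.exp (3 * m * R)) / R ^ k := by
    apply Complex.norm_iteratedDeriv_le_of_forall_mem_sphere_norm_le k hR hg.diffContOnCl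
    intro z hz
    have hz' : ‖z‖ = R := by simpa using hz
    refine (hb z).trans ?_
    apply mul_le_mul_of_nonneg_left _ hm
    apply Real.exp_le_exp.2
    have := rho_le z
    rw [hz'] at this
    nlinarith
  rw [norm_mul, norm_inv, Complex.norm_natCast]
  have hn : (0:ℝ) < k.factorial := by exact_mod_cast k.factorial_pos
  calc (k.factorial:ℝ)⁻¹ * ‖iteratedDeriv k g 0‖
      ≤ (k.factorial:ℝ)⁻¹ * (k.factorial * (m * Real.exp (3 * m * R)) / R ^ k) := by gcongr
    _ = m * Real.exp (3 * m * R) / R ^ k := by field_simp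

/-- Montel's theorem for the class `|g| ≤ m exp (m ρ)`. -/
theorem montel {m : ℝ} (hm : 0 ≤ m) (g : ℕ → ℂ → ℂ) (hg : ∀ j, Differentiable ℂ (g j))
    (hb : ∀ j z, ‖g j z‖ ≤ m * Real.exp (m * rho z)) :
    ∃ φ : ℕ → ℕ, StrictMono φ ∧ ∃ G : ℂ → ℂ, Differentiable ℂ G ∧
      (∀ z, ‖G z‖ ≤ m * Real.exp (m * rho z)) ∧
      TendstoLocallyUniformlyOn (fun j => g (φ j)) G atTop Set.univ := by
  set b : ℕ → ℕ → ℂ := fun j k => (k.factorial : ℂ)⁻¹ * iteratedDeriv k (g j) 0 with hbdef
  have hbb : ∀ j k (R : ℝ), 0 < R → ‖b j k‖ ≤ m * Real.exp (3 * m * R) / R ^ k :=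
    fun j k R hR => coef_le hm (hg j) (hb j) k hR
  have hcomp : IsCompact (Set.pi Set.univ (fun _ : ℕ => closedBall (0:ℂ) (m * Real.exp (3 * m)))) :=
    isCompact_univ_pi (fun _ => isCompact_closedBall _ _)
  obtain ⟨β, -, φ, hφ, hlim⟩ := hcomp.tendsto_subseq (x := b) (by
    intro j k _
    have := hbb j k 1 one_pos
    simpa using this)
  have hlimk : ∀ k, Tendsto (fun j => b (φ j) k) atTop (𝓝 (β k)) := by
    intro k
    exact (tendsto_pi_nhds.1 hlim) k
  have hβ : ∀ k (R : ℝ), 0 < R → ‖β k‖ ≤ m * Real.exp (3 * m * R) / R ^ k := by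
    intro k R hR
    exact le_of_tendsto (hlimk k).norm (Eventually.of_forall fun j => hbb (φ j) k R hR)
  set G : ℂ → ℂ := fun z => ∑' k, β k * z ^ k with hG
  have hsumg : ∀ j z, HasSum (fun k => b j k * z ^ k) (g j z) := by
    intro j z
    have h1 := Complex.hasSum_taylorSeries_of_entire (hg j) 0 z
    refine h1.congr_fun ?_ |> fun h => h
    intro n
    simp only [hbdef, sub_zero, smul_eq_mul]
    ring
  -- majorant
  have hmaj : ∀ (c : ℂ) k (R : ℝ), 0 < R → ‖c‖ ≤ m * Real.exp (3 * m * (2 * R)) / (2 * R) ^ k →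
      ‖c‖ * R ^ k ≤ m * Real.exp (6 * m * R) * (1/2) ^ k := by
    intro c k R hR hc
    calc ‖c‖ * R ^ k ≤ m * Real.exp (3 * m * (2 * R)) / (2 * R) ^ k * R ^ k := by gcongr
      _ = m * Real.exp (6 * m * R) * (1/2) ^ k := by
        rw [mul_pow, one_div, inv_pow]
        have e : 3 * m * (2 * R) = 6 * m * R := by ring
        rw [e]
        field_simp
  have hsumβ : ∀ z, Summable (fun k => β k * z ^ k) := by
    intro z
    have hR : 0 < ‖z‖ + 1 := by positivity
    apply Summable.of_norm_bounded (g := fun k => m * Real.exp (6 * m * (‖z‖ + 1)) * (1/2) ^ k)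
      (summable_geometric_two.mul_left _)
    intro k
    rw [norm_mul, norm_pow]
    refine le_trans ?_ (hmaj (β k) k (‖z‖ + 1) hR (hβ k _ (by positivity)))
    gcongr
    linarith
  have hεlim : ∀ R : ℝ, 0 < R → Tendsto (fun j => ∑' k, ‖b (φ j) k - β k‖ * R ^ k) atTop (𝓝 0) := by
    intro R hR
    have h1 : Tendsto (fun j => ∑' k, ‖b (φ j) k - β k‖ * R ^ k) atTop
        (𝓝 (∑' k : ℕ, (0:ℝ))) := by
      apply tendsto_tsum_of_dominated_convergence
        (bound := fun k => 2 * (m * Real.exp (6 * m * R) * (1/2) ^ k))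
      · exact (summable_geometric_two.mul_left _).mul_left _
      · intro k
        have h2 : Tendsto (fun j => ‖b (φ j) k - β k‖ * R ^ k) atTop (𝓝 (‖β k - β k‖ * R ^ k)) :=
          (((hlimk k).sub_const (β k)).norm).mul_const _
        simpa using h2
      · apply Eventually.of_forall
        intro j k
        rw [Real.norm_of_nonneg (by positivity)]
        have h3 := hmaj (b (φ j) k) k R hR (hbb _ k _ (by positivity))
        have h4 := hmaj (β k) k R hR (hβ k _ (by positivity))
        calc ‖b (φ j) k - β k‖ * R ^ k ≤ (‖b (φ j) k‖ + ‖β k‖) * R ^ k := by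
              gcongr
              exact norm_sub_le _ _
          _ ≤ _ := by linarith
    simpa using h1
  have hεsum : ∀ (R : ℝ), 0 < R → ∀ j, Summable (fun k => ‖b (φ j) k - β k‖ * R ^ k) := by
    intro R hR j
    apply Summable.of_nonneg_of_le (fun k => by positivity) _
      ((summable_geometric_two.mul_left (m * Real.exp (6 * m * R))).mul_left 2)
    intro k
    have h3 := hmaj (b (φ j) k) k R hR (hbb _ k _ (by positivity))
    have h4 := hmaj (β k) k R hR (hβ k _ (by positivity))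
    calc ‖b (φ j) k - β k‖ * R ^ k ≤ (‖b (φ j) k‖ + ‖β k‖) * R ^ k := by
          gcongr
          exact norm_sub_le _ _
      _ ≤ _ := by linarith
  have hdiff : ∀ (R : ℝ), 0 < R → ∀ j z, ‖z‖ ≤ R →
      ‖g (φ j) z - G z‖ ≤ ∑' k, ‖b (φ j) k - β k‖ * R ^ k := by
    intro R hR j z hz
    have h1 := (hsumg (φ j) z).sub (hsumβ z).hasSum
    have h2 : g (φ j) z - G z = ∑' k, (b (φ j) k * z ^ k - β k * z ^ k) := h1.tsum_eq.symm
    rw [h2]
    apply tsum_of_norm_bounded (hεsum R hR j).hasSum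
    intro k
    rw [← sub_mul, norm_mul, norm_pow]
    gcongr
  have hunif : TendstoLocallyUniformlyOn (fun j => g (φ j)) G atTop Set.univ := by
    rw [tendstoLocallyUniformlyOn_iff_forall_isCompact isOpen_univ]
    intro K _ hK
    obtain ⟨R, hR0, hR⟩ := hK.isBounded.subset_closedBall_lt 0 0
    rw [Metric.tendstoUniformlyOn_iff]
    intro ε hε
    filter_upwards [(hεlim R hR0).eventually (gt_mem_nhds hε)] with j hj z hz
    rw [dist_comm, dist_eq_norm]
    have hz' : ‖z‖ ≤ R := by simpa using hR hz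
    exact lt_of_le_of_lt (hdiff R hR0 j z hz') hj
  refine ⟨φ, hφ, G, ?_, ?_, hunif⟩
  · rw [← differentiableOn_univ]
    exact hunif.differentiableOn (Eventually.of_forall fun j => (hg _).differentiableOn) isOpen_univ
  · intro z
    have h1 : Tendsto (fun j => g (φ j) z) atTop (𝓝 (G z)) := hunif.tendsto_at (Set.mem_univ z)
    exact le_of_tendsto h1.norm (Eventually.of_forall fun j => hb _ z)

/-- Iterated derivatives pass to locally uniform limits. -/
lemma iter_limit {g : ℕ → ℂ → ℂ} {G : ℂ → ℂ} (hg : ∀ j, Differentiable ℂ (g j))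
    (h : TendstoLocallyUniformlyOn g G atTop Set.univ) (κ : ℕ) :
    TendstoLocallyUniformlyOn (fun j => iteratedDeriv κ (g j)) (iteratedDeriv κ G) atTop
      Set.univ := by
  induction κ with
  | zero => simpa using h
  | succ n ih =>
    simp only [iteratedDeriv_succ]
    apply ih.deriv _ isOpen_univ
    apply Eventually.of_forall
    intro j
    apply Differentiable.differentiableOn
    exact ((hg j).contDiff (n := ⊤)).differentiable_iteratedDeriv n (by
      exact_mod_cast WithTop.coe_lt_top _)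

/-- Local summability. -/
def LocSummable (h : ℕ → ℂ → ℂ) : Prop :=
  ∀ R : ℝ, ∃ u : ℕ → ℝ, Summable u ∧ ∀ n w, ‖w‖ < R → ‖h n w‖ ≤ u n

lemma LocSummable.diff {h : ℕ → ℂ → ℂ} (hl : LocSummable h) (hd : ∀ n, Differentiable ℂ (h n)) :
    Differentiable ℂ (fun z => ∑' n, h n z) := by
  intro z
  obtain ⟨u, hu, hb⟩ := hl (‖z‖ + 1)
  have h1 := differentiableOn_tsum_of_summable_norm (F := h) (U := ball 0 (‖z‖ + 1)) hu
    (fun i => (hd i).differentiableOn) isOpen_ball (fun i w hw => hb i w (by simpa using hw))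
  exact h1.differentiableAt (isOpen_ball.mem_nhds (by simp))

lemma LocSummable.deriv {h : ℕ → ℂ → ℂ} (hl : LocSummable h) (hd : ∀ n, Differentiable ℂ (h n)) :
    LocSummable (fun n => deriv (h n)) := by
  intro R
  obtain ⟨u, hu, hb⟩ := hl (R + 2)
  refine ⟨u, hu, ?_⟩
  intro n w hw
  have h1 := Complex.norm_deriv_le_of_forall_mem_sphere_norm_le (c := w) (R := 1) (C := u n)
    one_pos (hd n).diffContOnCl (by
      intro z hz
      apply hb
      have : ‖z‖ ≤ ‖w‖ + ‖z - w‖ := by
        have : z = w + (z - w) := by ring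
        calc ‖z‖ = ‖w + (z - w)‖ := by rw [← this]
          _ ≤ _ := norm_add_le _ _
      have h2 : ‖z - w‖ = 1 := by simpa [dist_eq_norm] using hz
      linarith)
  simpa using h1

lemma LocSummable.deriv_tsum {h : ℕ → ℂ → ℂ} (hl : LocSummable h)
    (hd : ∀ n, Differentiable ℂ (h n)) (z : ℂ) :
    _root_.deriv (fun w => ∑' n, h n w) z = ∑' n, _root_.deriv (h n) z := by
  obtain ⟨u, hu, hb⟩ := hl (‖z‖ + 1)
  have h1 := hasSum_deriv_of_summable_norm (F := h) (U := ball 0 (‖z‖ + 1)) (z := z) hu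
    (fun i => (hd i).differentiableOn) isOpen_ball (fun i w hw => hb i w (by simpa using hw))
    (by simp)
  exact h1.tsum_eq.symm

lemma diff_iter {g : ℂ → ℂ} (hg : Differentiable ℂ g) (κ : ℕ) :
    Differentiable ℂ (iteratedDeriv κ g) :=
  ((hg).contDiff (n := ⊤)).differentiable_iteratedDeriv κ (by
      exact_mod_cast WithTop.coe_lt_top _)

lemma iter_tsum {h : ℕ → ℂ → ℂ} (hl : LocSummable h) (hd : ∀ n, Differentiable ℂ (h n)) (κ : ℕ) :
    LocSummable (fun n => iteratedDeriv κ (h n)) ∧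
    iteratedDeriv κ (fun w => ∑' n, h n w) = fun z => ∑' n, iteratedDeriv κ (h n) z := by
  induction κ with
  | zero => exact ⟨by simpa using hl, by simp⟩
  | succ k ih =>
    obtain ⟨h1, h2⟩ := ih
    refine ⟨?_, ?_⟩
    · simp only [iteratedDeriv_succ]
      exact h1.deriv (fun n => diff_iter (hd n) k)
    · rw [iteratedDeriv_succ, h2]
      funext z
      rw [h1.deriv_tsum (fun n => diff_iter (hd n) k)]
      simp only [iteratedDeriv_succ]

lemma LocSummable.summable {h : ℕ → ℂ → ℂ} (hl : LocSummable h) (z : ℂ) :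
    Summable (fun n => h n z) := by
  obtain ⟨u, hu, hb⟩ := hl (‖z‖ + 1)
  exact Summable.of_norm_bounded hu (fun n => hb n z (by linarith))

/-- Iterated derivatives of `(z - b) g(z)`. -/
lemma iter_mul {g : ℂ → ℂ} (hg : Differentiable ℂ g) (b : ℂ) (κ : ℕ) :
    iteratedDeriv κ (fun z => (z - b) * g z)
      = fun z => (z - b) * iteratedDeriv κ g z + κ * iteratedDeriv (κ - 1) g z := by
  induction κ with
  | zero => simp
  | succ k ih =>
    rw [iteratedDeriv_succ, ih]
    funext z
    have h1 : HasDerivAt (iteratedDeriv k g) (iteratedDeriv (k + 1) g z) z := by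
      rw [iteratedDeriv_succ]
      exact (diff_iter hg k z).hasDerivAt
    have h2 : HasDerivAt (fun z : ℂ => z - b) 1 z := (hasDerivAt_id z).sub_const b
    have h3 : HasDerivAt (fun z => (k:ℂ) * iteratedDeriv (k - 1) g z) (k * iteratedDeriv k g z) z := by
      rcases k with _ | k
      · simpa using hasDerivAt_const z (0:ℂ)
      · apply HasDerivAt.const_mul
        rw [Nat.add_sub_cancel, iteratedDeriv_succ]
        exact (diff_iter hg k z).hasDerivAt
    have h4 := (h2.mul h1).add h3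
    have h5 := h4.deriv
    have e : (fun z => (z - b) * iteratedDeriv k g z + (k:ℂ) * iteratedDeriv (k - 1) g z)
        = ((fun z => z - b) * iteratedDeriv k g + fun z => (k:ℂ) * iteratedDeriv (k - 1) g z) := by
      funext z
      rfl
    rw [e, h5, Nat.add_sub_cancel]
    push_cast
    ring

end

end Pool.Agent.Helper897.EntireMontel
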