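import Mathlib
import Pool.Agent.Helper897.InnerUnique2

set_option autoImplicit false

open Complex Metric Filter Topology

namespace Pool.Agent.Helper897.Generic

open Pool.Agent.Helper897.InnerUnique

noncomputable section

section generic

variable (r : ℕ → ℝ) (Q : ℕ → ℕ) (t : ℕ → ℕ → ℂ)

/-- the value attached to a choice -/
def val (ω : ∀ n, Fin (Q n)) (m : ℕ) : ℝ := r m * ((ω m : ℕ) : ℝ) / Q m

/-- the linear forms -/
def Y (n : ℕ) (ω : ∀ n, Fin (Q n)) : ℂ := ∑' m, ((val r Q ω m : ℝ) : ℂ) * t m n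

variable {r Q t}

lemma val_nonneg (hr : ∀ n, 0 < r n) (ω : ∀ n, Fin (Q n)) (m : ℕ) : 0 ≤ val r Q ω m := by
  unfold val
  have := hr m
  positivity

lemma val_le (hr : ∀ n, 0 < r n) (ω : ∀ n, Fin (Q n)) (m : ℕ) : val r Q ω m ≤ r m := by
  unfold val
  have h1 : ((ω m : ℕ) : ℝ) < Q m := by exact_mod_cast (ω m).2
  have h2 : (0:ℝ) < Q m := lt_of_le_of_lt (Nat.cast_nonneg _) h1
  rw [div_le_iff₀ h2]
  have := hr m
  nlinarith

lemma term_le (hr : ∀ n, 0 < r n) (ω : ∀ n, Fin (Q n)) (m n : ℕ) :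
    ‖((val r Q ω m : ℝ) : ℂ) * t m n‖ ≤ r m * ‖t m n‖ := by
  rw [norm_mul, Complex.norm_real, Real.norm_of_nonneg (val_nonneg hr ω m)]
  exact mul_le_mul_of_nonneg_right (val_le hr ω m) (norm_nonneg _)

lemma summ_term (hr : ∀ n, 0 < r n) (hs : ∀ n, Summable (fun m => r m * ‖t m n‖))
    (ω : ∀ n, Fin (Q n)) (n : ℕ) : Summable (fun m => ((val r Q ω m : ℝ) : ℂ) * t m n) :=
  Summable.of_norm_bounded (hs n) (fun m => term_le hr ω m n)

lemma Y_continuous (hr : ∀ n, 0 < r n) (hs : ∀ n, Summable (fun m => r m * ‖t m n‖)) (n : ℕ) :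
    Continuous (Y r Q t n) := by
  unfold Y
  apply continuous_tsum _ (hs n) (fun m ω => term_le hr ω m n)
  intro m
  apply Continuous.mul _ continuous_const
  apply Complex.continuous_ofReal.comp
  have h1 : Continuous (fun x : Fin (Q m) => r m * ((x : ℕ) : ℝ) / Q m) :=
    continuous_of_discreteTopology
  exact h1.comp (continuous_apply m)

/-- Finite version by counting. -/
lemma finite_version (hr : ∀ n, 0 < r n) (hQ : ∀ n, 0 < Q n)
    (hQs : Summable (fun n => 1 / (Q n : ℝ))) (hQ1 : ∑' n, 1 / (Q n : ℝ) < 1)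
    (ht : ∀ n, t n n = 1) (hs : ∀ n, Summable (fun m => r m * ‖t m n‖)) (u : Finset ℕ) :
    ∃ ω : ∀ n, Fin (Q n), ∀ n ∈ u, r n / (2 * Q n) ≤ ‖Y r Q t n ω‖ := by
  classical
  set ext : (∀ n : u, Fin (Q n)) → ∀ n, Fin (Q n) :=
    fun ω n => if h : n ∈ u then ω ⟨n, h⟩ else ⟨0, hQ n⟩ with hext
  by_contra hcon
  push Not at hcon
  set Bad : u → Finset (∀ n : u, Fin (Q n)) :=
    fun n => Finset.univ.filter (fun ω => ‖Y r Q t n (ext ω)‖ < r n / (2 * Q n)) with hBad
  have hcover : (Finset.univ : Finset (∀ n : u, Fin (Q n))) ⊆ Finset.univ.biUnion Bad := by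
    intro ω _
    obtain ⟨n, hn, hlt⟩ := hcon (ext ω)
    rw [Finset.mem_biUnion]
    refine ⟨⟨n, hn⟩, Finset.mem_univ _, ?_⟩
    rw [hBad]
    simp only [Finset.mem_filter, Finset.mem_univ, true_and]
    exact hlt
  have hcard : ∀ n : u, (Bad n).card * Q n ≤ Fintype.card (∀ n : u, Fin (Q n)) := by
    intro n
    have h1 : (Bad n ×ˢ (Finset.univ : Finset (Fin (Q n)))).card
        ≤ (Finset.univ : Finset (∀ n : u, Fin (Q n))).card := by
      apply Finset.card_le_card_of_injOn (fun p => Function.update p.1 n p.2)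
      · intro p _
        exact Finset.mem_coe.2 (Finset.mem_univ _)
      · rintro ⟨ω, x⟩ hω ⟨ω', x'⟩ hω' heq
        simp only at heq
        rw [Finset.mem_coe, Finset.mem_product] at hω hω'
        have hx : x = x' := by
          have := congrFun heq n
          simpa using this
        have hoff : ∀ m : u, m ≠ n → ω m = ω' m := by
          intro m hm
          have := congrFun heq m
          rwa [Function.update_of_ne hm, Function.update_of_ne hm] at this
        have hb : ‖Y r Q t n (ext ω)‖ < r n / (2 * Q n) := by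
          have := hω.1
          rw [hBad] at this
          simpa using this
        have hb' : ‖Y r Q t n (ext ω')‖ < r n / (2 * Q n) := by
          have := hω'.1
          rw [hBad] at this
          simpa using this
        have hdiff : Y r Q t n (ext ω) - Y r Q t n (ext ω')
            = ((val r Q (ext ω) n - val r Q (ext ω') n : ℝ) : ℂ) := by
          unfold Y
          rw [← (summ_term hr hs (ext ω) n).tsum_sub (summ_term hr hs (ext ω') n)]
          rw [tsum_eq_single (n:ℕ)]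
          · rw [ht]
            push_cast
            ring
          · intro m hm
            have h2 : ext ω m = ext ω' m := by
              rw [hext]
              simp only
              split_ifs with h
              · apply hoff
                intro h3
                apply hm
                rw [← h3]
              · rfl
            unfold val
            rw [h2, sub_self]
        have hQn : (0:ℝ) < Q n := by exact_mod_cast hQ n
        have hrn := hr n
        have hlt : ‖Y r Q t n (ext ω) - Y r Q t n (ext ω')‖ < r n / Q n := by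
          refine lt_of_le_of_lt (norm_sub_le _ _) ?_
          have : r n / Q n = r n / (2 * Q n) + r n / (2 * Q n) := by
            field_simp
            norm_num
          rw [this]
          linarith
        rw [hdiff, Complex.norm_real, Real.norm_eq_abs] at hlt
        have hval : val r Q (ext ω) n - val r Q (ext ω') n
            = r n / Q n * (((ω n : ℕ) : ℝ) - ((ω' n : ℕ) : ℝ)) := by
          have e1 : ext ω n = ω n := by
            rw [hext]
            simp
          have e2 : ext ω' n = ω' n := by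
            rw [hext]
            simp
          unfold val
          rw [e1, e2]
          ring
        rw [hval, abs_mul, abs_of_pos (by positivity)] at hlt
        have h3 : |((ω n : ℕ) : ℝ) - ((ω' n : ℕ) : ℝ)| < 1 := by
          by_contra h4
          push Not at h4
          have h5 : r n / Q n * 1 ≤ r n / Q n * |((ω n : ℕ) : ℝ) - ((ω' n : ℕ) : ℝ)| :=
            mul_le_mul_of_nonneg_left h4 (by positivity)
          linarith
        have h4 : (ω n : ℕ) = (ω' n : ℕ) := by
          have h5 : |((ω n : ℕ) : ℤ) - ((ω' n : ℕ) : ℤ)| < 1 := by exact_mod_cast h3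
          have h6 := Int.abs_lt_one_iff.1 h5
          omega
        have hω_eq : ω = ω' := by
          funext m
          by_cases hm : m = n
          · rw [hm]
            exact Fin.ext h4
          · exact hoff m hm
        rw [hω_eq, hx]
    rw [Finset.card_product, Finset.card_univ, Fintype.card_fin] at h1
    rwa [Finset.card_univ] at h1
  set M := Fintype.card (∀ n : u, Fin (Q n)) with hM
  have hMpos : 0 < M := by
    rw [hM]
    apply Fintype.card_pos_iff.2
    exact ⟨fun n => ⟨0, hQ n⟩⟩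
  have h1 : M ≤ ∑ n : u, (Bad n).card := by
    calc M = (Finset.univ : Finset (∀ n : u, Fin (Q n))).card := by rw [Finset.card_univ]
      _ ≤ (Finset.univ.biUnion Bad).card := Finset.card_le_card hcover
      _ ≤ ∑ n : u, (Bad n).card := Finset.card_biUnion_le
  have h2 : (M:ℝ) ≤ ∑ n : u, (M:ℝ) * (1 / Q n) := by
    calc (M:ℝ) ≤ ((∑ n : u, (Bad n).card : ℕ) : ℝ) := by exact_mod_cast h1
      _ = ∑ n : u, ((Bad n).card : ℝ) := by push_cast; rfl
      _ ≤ ∑ n : u, (M:ℝ) * (1 / Q n) := by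
        apply Finset.sum_le_sum
        intro n _
        have hQn : (0:ℝ) < Q n := by exact_mod_cast hQ n
        rw [mul_one_div, le_div_iff₀ hQn]
        exact_mod_cast hcard n
  rw [← Finset.mul_sum] at h2
  have h3 : ∑ n : u, 1 / (Q n : ℝ) ≤ ∑' n, 1 / (Q n : ℝ) := by
    rw [Finset.sum_coe_sort u (fun n => 1 / (Q n : ℝ))]
    exact hQs.sum_le_tsum u (fun n _ => by positivity)
  have hM0 : (0:ℝ) < M := by exact_mod_cast hMpos
  nlinarith

/-- Generic choice: all the linear forms can be made large simultaneously. -/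
theorem generic (hr : ∀ n, 0 < r n) (hQ : ∀ n, 0 < Q n)
    (hQs : Summable (fun n => 1 / (Q n : ℝ))) (hQ1 : ∑' n, 1 / (Q n : ℝ) < 1)
    (ht : ∀ n, t n n = 1) (hs : ∀ n, Summable (fun m => r m * ‖t m n‖)) :
    ∃ c : ℕ → ℝ, (∀ n, 0 ≤ c n ∧ c n ≤ r n) ∧
      ∀ n, r n / (2 * Q n) ≤ ‖∑' m, ((c m : ℝ) : ℂ) * t m n‖ := by
  have h1 := (isCompact_univ (X := ∀ n, Fin (Q n))).inter_iInter_nonempty
    (fun n => {ω : ∀ n, Fin (Q n) | r n / (2 * Q n) ≤ ‖Y r Q t n ω‖})
    (fun n => isClosed_le continuous_const (Y_continuous hr hs n).norm) (by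
      intro u
      obtain ⟨ω, hω⟩ := finite_version hr hQ hQs hQ1 ht hs u
      refine ⟨ω, Set.mem_univ _, ?_⟩
      simp only [Set.mem_iInter]
      exact hω)
  obtain ⟨ω, -, hω⟩ := h1
  rw [Set.mem_iInter] at hω
  exact ⟨val r Q ω, fun n => ⟨val_nonneg hr ω n, val_le hr ω n⟩, hω⟩

end generic

/-- Number of zeros of a function of exponential type. -/
lemma count_zeros {F : ℂ → ℂ} (hF : Differentiable ℂ F) {A K : ℝ} (hA : 0 < A) (hK : 0 ≤ K)
    (hb : ∀ z, ‖F z‖ ≤ A * Real.exp (K * ‖z‖)) {z0 : ℂ} (hz0 : F z0 ≠ 0) :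
    ∃ C : ℝ, 0 < C ∧ ∀ (R : ℝ), 0 ≤ R → ∀ Z : Finset ℂ, (∀ a ∈ Z, F a = 0) →
      (∀ a ∈ Z, ‖a‖ ≤ R) → (Z.card : ℝ) ≤ C * (R + 1) := by
  set B := A / ‖F z0‖ with hB
  have hF0 : 0 < ‖F z0‖ := norm_pos_iff.2 hz0
  have hB0 : 0 < B := div_pos hA hF0
  set C := (|Real.log B| + 5 * K * (‖z0‖ + 1) + 1) / Real.log 2 with hC
  have hlog2 : 0 < Real.log 2 := Real.log_pos (by norm_num)
  have hC0 : 0 < C := by
    apply div_pos _ hlog2
    positivity
  refine ⟨C, hC0, ?_⟩
  intro R hR Z hZ hZR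
  obtain ⟨q, hq, hGQ⟩ := div_zeros hF Z hZ
  set ρ := R + ‖z0‖ + 1 with hρdef
  have hρ : 0 < ρ := by positivity
  have hρ5 : 0 < 5 * ρ := by positivity
  have hcirc : ∀ s ∈ frontier (ball (0:ℂ) (5 * ρ)),
      ‖q s‖ ≤ A * Real.exp (K * (5 * ρ)) / (4 * ρ) ^ Z.card := by
    intro s hs
    rw [frontier_ball _ hρ5.ne'] at hs
    have hs' : ‖s‖ = 5 * ρ := by simpa using hs
    have h1 := hb s
    rw [hGQ s, norm_mul, hs'] at h1
    have h2 : (4 * ρ) ^ Z.card ≤ ‖∏ a ∈ Z, (s - a)‖ := by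
      rw [norm_prod, ← Finset.prod_const]
      apply Finset.prod_le_prod
      · intro a _
        positivity
      · intro a ha
        have := norm_sub_norm_le s a
        have h3 := hZR a ha
        have h4 := norm_nonneg z0
        linarith
    rw [le_div_iff₀ (by positivity)]
    calc ‖q s‖ * (4 * ρ) ^ Z.card ≤ ‖q s‖ * ‖∏ a ∈ Z, (s - a)‖ := by gcongr
      _ = ‖∏ a ∈ Z, (s - a)‖ * ‖q s‖ := mul_comm _ _
      _ ≤ A * Real.exp (K * (5 * ρ)) := h1
  have hq0 : ‖q z0‖ ≤ A * Real.exp (K * (5 * ρ)) / (4 * ρ) ^ Z.card := by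
    apply Complex.norm_le_of_forall_mem_frontier_norm_le isBounded_ball hq.diffContOnCl hcirc
    rw [closure_ball _ hρ5.ne', mem_closedBall_zero_iff]
    linarith
  have h3 : ‖∏ a ∈ Z, (z0 - a)‖ ≤ (2 * ρ) ^ Z.card := by
    rw [norm_prod, ← Finset.prod_const]
    apply Finset.prod_le_prod
    · intro a _
      exact norm_nonneg _
    · intro a ha
      have := norm_sub_le z0 a
      have h3 := hZR a ha
      linarith
  have h4 : ‖F z0‖ ≤ A * Real.exp (K * (5 * ρ)) / 2 ^ Z.card := by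
    rw [hGQ z0, norm_mul]
    calc ‖∏ a ∈ Z, (z0 - a)‖ * ‖q z0‖
        ≤ (2 * ρ) ^ Z.card * (A * Real.exp (K * (5 * ρ)) / (4 * ρ) ^ Z.card) := by gcongr
      _ = A * Real.exp (K * (5 * ρ)) / 2 ^ Z.card := by
          have h4 : (4 * ρ) ^ Z.card = 2 ^ Z.card * (2 * ρ) ^ Z.card := by
            rw [← mul_pow]
            congr 1
            ring
          rw [h4]
          field_simp
  have h5 : (2:ℝ) ^ Z.card ≤ B * Real.exp (K * (5 * ρ)) := by
    rw [le_div_iff₀ (by positivity)] at h4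
    rw [hB, div_mul_eq_mul_div, le_div_iff₀ hF0, mul_comm]
    exact h4
  have h6 : (Z.card : ℝ) * Real.log 2 ≤ Real.log B + K * (5 * ρ) := by
    have := Real.log_le_log (by positivity) h5
    rw [Real.log_pow, Real.log_mul hB0.ne' (Real.exp_pos _).ne', Real.log_exp] at this
    exact this
  rw [hC, div_mul_eq_mul_div, le_div_iff₀ hlog2]
  refine h6.trans ?_
  have h7 := le_abs_self (Real.log B)
  have h8 := abs_nonneg (Real.log B)
  have h9 : K * (5 * ρ) ≤ 5 * K * (‖z0‖ + 1) * (R + 1) := by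
    have : ρ ≤ (‖z0‖ + 1) * (R + 1) := by
      rw [hρdef]
      nlinarith [norm_nonneg z0, mul_nonneg (norm_nonneg z0) hR]
    nlinarith
  nlinarith [mul_nonneg h8 hR]

/-- Summability over the zeros. -/
lemma summable_zeros {a : ℕ → ℂ} {C : ℝ} (hC : 0 < C)
    (hcount : ∀ (R : ℝ), 0 ≤ R → ∀ s : Finset ℕ, (∀ n ∈ s, ‖a n‖ ≤ R) → (s.card : ℝ) ≤ C * (R + 1)) :
    Summable (fun n => ((1 + ‖a n‖) ^ 3)⁻¹) := by
  have hsum : Summable (fun k : ℕ => 2 * C * (((k:ℝ) + 1) ^ 2)⁻¹) := by
    apply Summable.mul_left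
    have h1 : Summable (fun n : ℕ => ((n:ℝ) ^ 2)⁻¹) := Real.summable_nat_pow_inv.2 (by norm_num)
    have h2 := (summable_nat_add_iff 1).2 h1
    refine h2.congr ?_
    intro k
    push_cast
    rfl
  apply summable_of_sum_le (c := ∑' k : ℕ, 2 * C * (((k:ℝ) + 1) ^ 2)⁻¹)
  · intro n
    positivity
  intro s
  classical
  rw [← Finset.sum_fiberwise_of_maps_to (s := s) (t := s.image (fun n => ⌊‖a n‖⌋₊))
    (g := fun n => ⌊‖a n‖⌋₊) (fun n hn => Finset.mem_image_of_mem _ hn)]
  refine le_trans ?_ (hsum.sum_le_tsum (s.image (fun n => ⌊‖a n‖⌋₊)) (fun k _ => by positivity))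
  apply Finset.sum_le_sum
  intro k _
  have hcard := hcount ((k:ℝ) + 1) (by positivity) (s.filter (fun n => ⌊‖a n‖⌋₊ = k)) (by
    intro n hn
    rw [Finset.mem_filter] at hn
    have := Nat.lt_floor_add_one ‖a n‖
    rw [hn.2] at this
    exact this.le)
  calc ∑ n ∈ s.filter (fun n => ⌊‖a n‖⌋₊ = k), ((1 + ‖a n‖) ^ 3)⁻¹
      ≤ ∑ n ∈ s.filter (fun n => ⌊‖a n‖⌋₊ = k), (((k:ℝ) + 1) ^ 3)⁻¹ := by
        apply Finset.sum_le_sum
        intro n hn
        rw [Finset.mem_filter] at hn
        have h1 : (k:ℝ) ≤ ‖a n‖ := by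
          rw [← hn.2]
          exact Nat.floor_le (norm_nonneg _)
        apply inv_anti₀ (by positivity)
        apply pow_le_pow_left₀ (by positivity)
        linarith
    _ = ((s.filter (fun n => ⌊‖a n‖⌋₊ = k)).card : ℝ) * (((k:ℝ) + 1) ^ 3)⁻¹ := by
        rw [Finset.sum_const, nsmul_eq_mul]
    _ ≤ (C * ((k:ℝ) + 1 + 1)) * (((k:ℝ) + 1) ^ 3)⁻¹ := by gcongr
    _ ≤ (C * (2 * ((k:ℝ) + 1))) * (((k:ℝ) + 1) ^ 3)⁻¹ := by
        gcongr
        have : (0:ℝ) ≤ k := Nat.cast_nonneg k
        linarith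
    _ = 2 * C * (((k:ℝ) + 1) ^ 2)⁻¹ := by
        have : (0:ℝ) < (k:ℝ) + 1 := by positivity
        field_simp

end

end Pool.Agent.Helper897.Generic
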