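import Mathlib
import Pool.Agent.Helper897.InnerUnique2

set_option autoImplicit false

open Complex ComplexConjugate Metric Filter Topology

namespace Pool.Agent.Helper897.HalfPick

open Pool.Agent.Helper897.PickIneq Pool.Agent.Helper897.InnerUnique

noncomputable section

/-- The half-plane kernel `i (1 - H(w) conj H(w')) / (w - conj w')`. -/
def K (H : ℂ → ℂ) (w w' : ℂ) : ℂ := I * (1 - H w * conj (H w')) / (w - conj w')

lemma conj_K (H : ℂ → ℂ) (w w' : ℂ) : conj (K H w w') = K H w' w := by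
  unfold K
  rw [map_div₀, map_mul, map_sub, map_mul, map_sub, conj_I, Complex.conj_conj, Complex.conj_conj,
    map_one]
  rw [show conj w - w' = -(w' - conj w) by ring, div_neg, neg_mul, neg_div, neg_neg]
  ring

lemma conj_add_I_ne {w : ℂ} (hw : 0 < w.im) : conj (w + I) ≠ 0 := by
  intro h0
  apply add_I_ne hw
  have := congrArg conj h0
  rwa [Complex.conj_conj, map_zero] at this

variable {ι : Type*}

lemma halfpick (s : Finset ι) (w : ι → ℂ) (hw : ∀ j ∈ s, 0 < (w j).im) {H : ℂ → ℂ}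
    (hH : DifferentiableOn ℂ H {w | 0 < w.im}) (hb : ∀ w : ℂ, 0 < w.im → ‖H w‖ ≤ 1) (c : ι → ℂ) :
    0 ≤ (∑ j ∈ s, ∑ k ∈ s, conj (c j) * c k * K H (w j) (w k)).re := by
  have hp := pick (s := s) (z := fun j => Z (w j)) (h := fun z => H (W z))
    (fun j => c j / conj (w j + I)) (fun j hj => Z_mem (hw j hj)) (by
      intro z hz
      apply DifferentiableAt.differentiableWithinAt
      have h1 : DifferentiableAt ℂ H (W z) := by
        apply (hH (W z) (W_im_pos hz)).differentiableAt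
        exact (isOpen_lt continuous_const Complex.continuous_im).mem_nhds
          (show W z ∈ {w : ℂ | (0:ℝ) < w.im} from W_im_pos hz)
      apply DifferentiableAt.comp z h1
      unfold W
      have := one_sub_ne hz
      exact DifferentiableAt.const_mul (DifferentiableAt.div (by fun_prop) (by fun_prop) this) _)
    (fun ζ hζ => hb _ (W_im_pos hζ))
  have h2 : (∑ j ∈ s, ∑ k ∈ s, conj (c j / conj (w j + I)) * (c k / conj (w k + I)) *
      ((1 - H (W (Z (w j))) * conj (H (W (Z (w k))))) / (1 - conj (Z (w k)) * Z (w j))))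
      = ((1/2 : ℝ) : ℂ) * ∑ j ∈ s, ∑ k ∈ s, conj (c j) * c k * K H (w j) (w k) := by
    rw [Finset.mul_sum]
    apply Finset.sum_congr rfl
    intro j hj
    rw [Finset.mul_sum]
    apply Finset.sum_congr rfl
    intro k hk
    have hj' := hw j hj
    have hk' := hw k hk
    rw [div_eq_mul_inv (1 - H (W (Z (w j))) * conj (H (W (Z (w k))))),
      kernel_transfer (Z_mem hj') (Z_mem hk'), W_Z hj', W_Z hk', map_div₀, Complex.conj_conj]
    unfold K
    have h3 := add_I_ne hj'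
    have h4 := conj_add_I_ne hk'
    have h5 : w j - conj (w k) ≠ 0 := by
      have := W_sub_conj_ne (Z_mem hj') (Z_mem hk')
      rwa [W_Z hj', W_Z hk'] at this
    push_cast
    field_simp
  rw [h2, Complex.re_ofReal_mul] at hp
  linarith

/-- Cauchy–Schwarz for the Pick kernel. -/
lemma halfpick_cs (s : Finset ι) (w : ι → ℂ) (hw : ∀ j ∈ s, 0 < (w j).im) {H : ℂ → ℂ}
    (hH : DifferentiableOn ℂ H {w | 0 < w.im}) (hb : ∀ w : ℂ, 0 < w.im → ‖H w‖ ≤ 1) (d : ι → ℂ)
    {w0 : ℂ} (hw0 : 0 < w0.im) :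
    ‖∑ j ∈ s, d j * K H w0 (w j)‖ ^ 2 ≤ ((K H w0 w0).re + 1) *
      (∑ j ∈ s, ∑ k ∈ s, conj (d j) * d k * K H (w j) (w k)).re := by
  classical
  set X := ∑ j ∈ s, d j * K H w0 (w j) with hX
  set A := (∑ j ∈ s, ∑ k ∈ s, conj (d j) * d k * K H (w j) (w k)).re with hA
  set B := (K H w0 w0).re with hB
  have hB0 : 0 ≤ B := by
    have := halfpick {()} (fun _ => w0) (fun _ _ => hw0) hH hb (fun _ => 1)
    simpa using this
  have key : ∀ τ : ℝ, 0 ≤ A - 2 * τ * ‖X‖ ^ 2 + τ ^ 2 * ‖X‖ ^ 2 * B := by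
    intro τ
    set c' : Option ι → ℂ := fun o => o.elim (-(τ:ℂ) * X) d with hc'
    set w' : Option ι → ℂ := fun o => o.elim w0 w with hw'
    have hp := halfpick (s := Finset.insertNone s) w' (by
      intro o ho
      cases o with
      | none => exact hw0
      | some j => exact hw j (by simpa using ho)) hH hb c'
    rw [Finset.sum_insertNone] at hp
    simp_rw [Finset.sum_insertNone] at hp
    simp only [hc', hw', Option.elim] at hp
    rw [Finset.sum_add_distrib] at hp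
    have p2 : ∑ x ∈ s, conj (-(τ:ℂ) * X) * d x * K H w0 (w x) = ((-τ * ‖X‖ ^ 2 : ℝ) : ℂ) := by
      have : ∀ x ∈ s, conj (-(τ:ℂ) * X) * d x * K H w0 (w x)
          = conj (-(τ:ℂ) * X) * (d x * K H w0 (w x)) := fun x _ => by ring
      rw [Finset.sum_congr rfl this, ← Finset.mul_sum, ← hX, map_mul, map_neg, Complex.conj_ofReal,
        mul_assoc, mul_comm (conj X), Complex.mul_conj, Complex.normSq_eq_norm_sq]
      push_cast
      ring
    have p3 : ∑ x ∈ s, conj (d x) * (-(τ:ℂ) * X) * K H (w x) w0 = ((-τ * ‖X‖ ^ 2 : ℝ) : ℂ) := by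
      have : ∀ x ∈ s, conj (d x) * (-(τ:ℂ) * X) * K H (w x) w0
          = conj (conj (-(τ:ℂ) * X) * d x * K H w0 (w x)) := by
        intro x _
        rw [map_mul, map_mul, Complex.conj_conj, conj_K]
        ring
      rw [Finset.sum_congr rfl this, ← map_sum, p2, Complex.conj_ofReal]
    have p1 : (conj (-(τ:ℂ) * X) * (-(τ:ℂ) * X) * K H w0 w0).re = τ ^ 2 * ‖X‖ ^ 2 * B := by
      have : conj (-(τ:ℂ) * X) * (-(τ:ℂ) * X) = ((τ ^ 2 * ‖X‖ ^ 2 : ℝ) : ℂ) := by
        rw [map_mul, map_neg, Complex.conj_ofReal]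
        have : -(τ:ℂ) * conj X * (-(τ:ℂ) * X) = (τ:ℂ) ^ 2 * (X * conj X) := by ring
        rw [this, Complex.mul_conj, Complex.normSq_eq_norm_sq]
        push_cast
        ring
      rw [this, Complex.re_ofReal_mul]
    rw [p2, p3] at hp
    simp only [Complex.add_re, Complex.ofReal_re] at hp
    rw [p1] at hp
    linarith
  have h1 := key (1 / (B + 1))
  have hB1 : 0 < B + 1 := by linarith
  have h2 : A - 2 * (1 / (B + 1)) * ‖X‖ ^ 2 + (1 / (B + 1)) ^ 2 * ‖X‖ ^ 2 * B
      ≤ A - ‖X‖ ^ 2 / (B + 1) := by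
    have h3 : (1 / (B + 1)) ^ 2 * ‖X‖ ^ 2 * B ≤ (1 / (B + 1)) * ‖X‖ ^ 2 := by
      have h4 : (1 / (B + 1)) * B ≤ 1 := by
        rw [one_div, inv_mul_le_iff₀ hB1]
        linarith
      have h5 : 0 ≤ (1 / (B + 1)) * ‖X‖ ^ 2 := by positivity
      calc (1 / (B + 1)) ^ 2 * ‖X‖ ^ 2 * B = ((1 / (B + 1)) * ‖X‖ ^ 2) * ((1 / (B + 1)) * B) := by
            ring
        _ ≤ ((1 / (B + 1)) * ‖X‖ ^ 2) * 1 := mul_le_mul_of_nonneg_left h4 h5
        _ = _ := mul_one _
    have h6 : ‖X‖ ^ 2 / (B + 1) = (1 / (B + 1)) * ‖X‖ ^ 2 := by ring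
    rw [h6]
    linarith
  have h3 : ‖X‖ ^ 2 / (B + 1) ≤ A := by linarith
  rw [div_le_iff₀ hB1] at h3
  linarith

end

end Pool.Agent.Helper897.HalfPick
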