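import Mathlib

set_option autoImplicit false

open Complex Metric Filter Topology

namespace Pool.Agent.Helper897.Interp

noncomputable section

/-- Equidistributed nodes on the circle of radius `ρ`. -/
def node (ρ : ℝ) (p : ℕ) (j : ℕ) : ℂ := (ρ : ℂ) * Complex.exp (2 * Real.pi * I / p) ^ j

/-- Interpolation weights. -/
def lam (ρ : ℝ) (p : ℕ) (ζ0 : ℂ) (j : ℕ) : ℂ :=
  (1 / (p : ℂ)) * ∑ n ∈ Finset.range p, (ζ0 / node ρ p j) ^ n

lemma node_norm {ρ : ℝ} (hρ : 0 < ρ) {p : ℕ} (hp : 0 < p) (j : ℕ) : ‖node ρ p j‖ = ρ := by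
  unfold node
  have h := (Complex.isPrimitiveRoot_exp p hp.ne').norm'_eq_one hp.ne'
  rw [norm_mul, norm_pow, h, one_pow, mul_one, Complex.norm_real, Real.norm_of_nonneg hρ.le]

lemma inner_sum {p : ℕ} (hp : 0 < p) {ω : ℂ} (hω : IsPrimitiveRoot ω p) (m n : ℕ) (hn : n < p) :
    ∑ j ∈ Finset.range p, (ω ^ m / ω ^ n) ^ j = if n = m % p then (p : ℂ) else 0 := by
  have hω0 : ω ≠ 0 := hω.ne_zero hp.ne'
  have hmod : ω ^ m = ω ^ (m % p) := by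
    conv_lhs => rw [← Nat.div_add_mod m p]
    rw [pow_add, pow_mul, hω.pow_eq_one, one_pow, one_mul]
  split_ifs with h
  · rw [hmod, ← h, div_self (pow_ne_zero _ hω0)]
    simp
  · have hx : ω ^ m / ω ^ n ≠ 1 := by
      rw [hmod]
      intro h1
      rw [div_eq_one_iff_eq (pow_ne_zero _ hω0)] at h1
      exact h (hω.pow_inj (Nat.mod_lt _ hp) hn h1).symm
    rw [geom_sum_eq hx]
    have h2 : (ω ^ m / ω ^ n) ^ p = 1 := by
      rw [div_pow, ← pow_mul, ← pow_mul, mul_comm m, mul_comm n, pow_mul, pow_mul, hω.pow_eq_one,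
        one_pow, one_pow, div_one]
    rw [h2, sub_self, zero_div]

lemma sum_pow {ρ : ℝ} (hρ : 0 < ρ) {p : ℕ} (hp : 0 < p) (ζ0 : ℂ) (m : ℕ) :
    ∑ j ∈ Finset.range p, lam ρ p ζ0 j * node ρ p j ^ m
      = ζ0 ^ (m % p) * (ρ : ℂ) ^ (m - m % p) := by
  have hω := Complex.isPrimitiveRoot_exp p hp.ne'
  set ω := Complex.exp (2 * Real.pi * I / p) with hωdef
  have hω0 : ω ≠ 0 := hω.ne_zero hp.ne'
  have hρ0 : (ρ : ℂ) ≠ 0 := by exact_mod_cast hρ.ne'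
  have hp0 : (p : ℂ) ≠ 0 := by exact_mod_cast hp.ne'
  have h1 : ∀ j ∈ Finset.range p, lam ρ p ζ0 j * node ρ p j ^ m
      = ∑ n ∈ Finset.range p, (1 / (p:ℂ)) * (ζ0 ^ n * (ρ:ℂ) ^ m / (ρ:ℂ) ^ n) *
        (ω ^ m / ω ^ n) ^ j := by
    intro j _
    unfold lam node
    rw [← hωdef, mul_assoc, Finset.sum_mul, Finset.mul_sum]
    apply Finset.sum_congr rfl
    intro n _
    rw [div_pow, mul_pow, mul_pow, div_pow]
    have e1 : (ω ^ j) ^ n = (ω ^ n) ^ j := by rw [← pow_mul, ← pow_mul, mul_comm]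
    have e2 : (ω ^ j) ^ m = (ω ^ m) ^ j := by rw [← pow_mul, ← pow_mul, mul_comm]
    rw [e1, e2]
    have e3 : (ω ^ n) ^ j ≠ 0 := pow_ne_zero _ (pow_ne_zero _ hω0)
    field_simp
  rw [Finset.sum_congr rfl h1, Finset.sum_comm]
  have h2 : ∀ n ∈ Finset.range p, ∑ j ∈ Finset.range p, (1 / (p:ℂ)) *
      (ζ0 ^ n * (ρ:ℂ) ^ m / (ρ:ℂ) ^ n) * (ω ^ m / ω ^ n) ^ j
      = if n = m % p then ζ0 ^ n * (ρ:ℂ) ^ m / (ρ:ℂ) ^ n else 0 := by
    intro n hn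
    rw [← Finset.mul_sum, inner_sum hp hω m n (Finset.mem_range.1 hn)]
    split_ifs
    · field_simp
    · ring
  rw [Finset.sum_congr rfl h2, Finset.sum_ite_eq']
  rw [if_pos (Finset.mem_range.2 (Nat.mod_lt _ hp))]
  rw [mul_div_assoc]
  congr 1
  rw [div_eq_iff (pow_ne_zero _ hρ0), ← pow_add]
  congr 1
  have := Nat.mod_le m p
  omega

lemma lam_norm {ρ : ℝ} (hρ : 0 < ρ) (hρ1 : ρ ≤ 1) {p : ℕ} (hp : 0 < p) {ζ0 : ℂ} (hζ : ‖ζ0‖ ≤ 1)
    (j : ℕ) : ‖lam ρ p ζ0 j‖ ≤ (1 / ρ) ^ p := by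
  unfold lam
  rw [norm_mul]
  have h1 : ‖∑ n ∈ Finset.range p, (ζ0 / node ρ p j) ^ n‖ ≤ p * (1 / ρ) ^ p := by
    refine (norm_sum_le _ _).trans ?_
    have h2 : ∀ n ∈ Finset.range p, ‖(ζ0 / node ρ p j) ^ n‖ ≤ (1 / ρ) ^ p := by
      intro n hn
      rw [norm_pow, norm_div, node_norm hρ hp]
      calc (‖ζ0‖ / ρ) ^ n ≤ (1 / ρ) ^ n := by gcongr
        _ ≤ (1 / ρ) ^ p := by
          apply pow_le_pow_right₀
          · rw [one_le_div hρ]
            exact hρ1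
          · exact (Finset.mem_range.1 hn).le
    refine (Finset.sum_le_sum h2).trans ?_
    rw [Finset.sum_const, Finset.card_range, nsmul_eq_mul]
  have h2 : ‖1 / (p:ℂ)‖ = 1 / p := by
    rw [norm_div, norm_one, Complex.norm_natCast]
  rw [h2]
  have hp0 : (0:ℝ) < p := by exact_mod_cast hp
  calc 1 / (p:ℝ) * ‖∑ n ∈ Finset.range p, (ζ0 / node ρ p j) ^ n‖ ≤ 1 / (p:ℝ) * (p * (1 / ρ) ^ p) := by
        gcongr
    _ = (1 / ρ) ^ p := by field_simp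

lemma coeff_norm {F : ℂ → ℂ} (hF : DifferentiableOn ℂ F (ball 0 1)) {M : ℝ}
    (hM : ∀ z ∈ ball (0:ℂ) 1, ‖F z‖ ≤ M) (n : ℕ) :
    ‖(n.factorial : ℂ)⁻¹ * iteratedDeriv n F 0‖ ≤ M := by
  have key : ∀ r : ℝ, 0 < r → r < 1 → ‖(n.factorial : ℂ)⁻¹ * iteratedDeriv n F 0‖ ≤ M / r ^ n := by
    intro r hr hr1
    have hsub : closedBall (0:ℂ) r ⊆ ball 0 1 := closedBall_subset_ball hr1
    have h1 : ‖iteratedDeriv n F 0‖ ≤ n.factorial * M / r ^ n := by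
      apply Complex.norm_iteratedDeriv_le_of_forall_mem_sphere_norm_le n hr
      · constructor
        · exact hF.mono (ball_subset_closedBall.trans hsub)
        · rw [closure_ball _ hr.ne']
          exact hF.continuousOn.mono hsub
      · intro z hz
        exact hM z (hsub (sphere_subset_closedBall hz))
    rw [norm_mul, norm_inv, Complex.norm_natCast]
    have hn : (0:ℝ) < n.factorial := by exact_mod_cast n.factorial_pos
    calc (n.factorial:ℝ)⁻¹ * ‖iteratedDeriv n F 0‖ ≤ (n.factorial:ℝ)⁻¹ * (n.factorial * M / r ^ n) := by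
          gcongr
      _ = M / r ^ n := by field_simp
  have hlim : Tendsto (fun r : ℝ => M / r ^ n) (𝓝[<] 1) (𝓝 (M / 1 ^ n)) := by
    apply Tendsto.mono_left _ nhdsWithin_le_nhds
    apply ContinuousAt.tendsto (f := fun r : ℝ => M / r ^ n)
    apply ContinuousAt.div (by fun_prop) (by fun_prop)
    simp
  rw [one_pow, div_one] at hlim
  refine ge_of_tendsto hlim ?_
  filter_upwards [Ioo_mem_nhdsLT (show (0:ℝ) < 1 by norm_num)] with r hr
  exact key r hr.1 hr.2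

lemma hasSum_tail {r : ℝ} (hr0 : 0 ≤ r) (hr1 : r < 1) (p : ℕ) :
    HasSum (fun m : ℕ => if m < p then 0 else r ^ m) (r ^ p / (1 - r)) := by
  rw [← hasSum_nat_add_iff' p]
  have h1 : ∑ i ∈ Finset.range p, (if i < p then (0:ℝ) else r ^ i) = 0 := by
    apply Finset.sum_eq_zero
    intro i hi
    rw [if_pos (Finset.mem_range.1 hi)]
  rw [h1, sub_zero]
  have h2 : (fun n : ℕ => if n + p < p then (0:ℝ) else r ^ (n + p)) = fun n => r ^ p * r ^ n := by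
    funext n
    rw [if_neg (by omega), pow_add, mul_comm]
  rw [h2, div_eq_mul_inv]
  exact (hasSum_geometric_of_lt_one hr0 hr1).mul_left _

/-- The interpolation estimate. -/
lemma interp {ρ : ℝ} (hρ : 0 < ρ) (hρ1 : ρ < 1) {p : ℕ} (hp : 0 < p) {ζ0 : ℂ} (hρζ : ρ ≤ ‖ζ0‖)
    (hζ : ‖ζ0‖ < 1) {F : ℂ → ℂ} (hF : DifferentiableOn ℂ F (ball 0 1)) {M : ℝ}
    (hM : ∀ z ∈ ball (0:ℂ) 1, ‖F z‖ ≤ M) :
    ‖∑ j ∈ Finset.range p, lam ρ p ζ0 j * F (node ρ p j) - F ζ0‖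
      ≤ 2 * M * (‖ζ0‖ ^ p / (1 - ‖ζ0‖)) := by
  have hM0 : 0 ≤ M := (norm_nonneg _).trans (hM 0 (by simp))
  set a : ℕ → ℂ := fun n => (n.factorial : ℂ)⁻¹ * iteratedDeriv n F 0 with ha
  have hsum : ∀ z ∈ ball (0:ℂ) 1, HasSum (fun n => a n * z ^ n) (F z) := by
    intro z hz
    have h1 := Complex.hasSum_taylorSeries_on_ball (r := 1) (f := F) (c := 0)
      (by simpa using hF) (by simpa using hz)
    refine h1.congr_fun ?_ |> fun h => h
    intro n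
    simp only [ha, sub_zero, smul_eq_mul]
    ring
  have hnode : ∀ j, node ρ p j ∈ ball (0:ℂ) 1 := by
    intro j
    rw [mem_ball_zero_iff, node_norm hρ hp]
    exact hρ1
  have h1 : HasSum (fun n => ∑ j ∈ Finset.range p, lam ρ p ζ0 j * (a n * node ρ p j ^ n))
      (∑ j ∈ Finset.range p, lam ρ p ζ0 j * F (node ρ p j)) :=
    hasSum_sum (fun j _ => (hsum _ (hnode j)).mul_left _)
  have h2 : (fun n => ∑ j ∈ Finset.range p, lam ρ p ζ0 j * (a n * node ρ p j ^ n))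
      = fun n => a n * (ζ0 ^ (n % p) * (ρ : ℂ) ^ (n - n % p)) := by
    funext n
    rw [← sum_pow hρ hp ζ0 n, Finset.mul_sum]
    apply Finset.sum_congr rfl
    intro j _
    ring
  rw [h2] at h1
  have h3 := h1.sub (hsum ζ0 (by simpa using hζ))
  rw [← h3.tsum_eq]
  have h4 : 2 * M * (‖ζ0‖ ^ p / (1 - ‖ζ0‖)) = 2 * M * (‖ζ0‖ ^ p / (1 - ‖ζ0‖)) := rfl
  have htail := (hasSum_tail (norm_nonneg ζ0) hζ p).mul_left (2 * M)
  apply tsum_of_norm_bounded htail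
  intro n
  have hcoef := coeff_norm hF hM n
  have hfac : a n * (ζ0 ^ (n % p) * (ρ : ℂ) ^ (n - n % p)) - a n * ζ0 ^ n
      = a n * (ζ0 ^ (n % p) * (ρ : ℂ) ^ (n - n % p) - ζ0 ^ n) := by ring
  rw [hfac, norm_mul]
  split_ifs with hn
  · rw [Nat.mod_eq_of_lt hn]
    simp
  · have h5 : ‖ζ0 ^ (n % p) * (ρ : ℂ) ^ (n - n % p) - ζ0 ^ n‖ ≤ 2 * ‖ζ0‖ ^ n := by
      refine (norm_sub_le _ _).trans ?_
      rw [norm_mul, norm_pow, norm_pow, norm_pow, Complex.norm_real, Real.norm_of_nonneg hρ.le]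
      have h6 : ρ ^ (n - n % p) ≤ ‖ζ0‖ ^ (n - n % p) := by gcongr
      have h7 : ‖ζ0‖ ^ (n % p) * ‖ζ0‖ ^ (n - n % p) = ‖ζ0‖ ^ n := by
        rw [← pow_add]
        congr 1
        have := Nat.mod_le n p
        omega
      have h8 : ‖ζ0‖ ^ (n % p) * ρ ^ (n - n % p) ≤ ‖ζ0‖ ^ n := by
        rw [← h7]
        gcongr
      linarith
    calc ‖a n‖ * ‖ζ0 ^ (n % p) * (ρ : ℂ) ^ (n - n % p) - ζ0 ^ n‖ ≤ M * (2 * ‖ζ0‖ ^ n) := by
          gcongr
      _ = 2 * M * ‖ζ0‖ ^ n := by ring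

end

end Pool.Agent.Helper897.Interp
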