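import Mathlib
import Pool.Agent.Helper897.HalfPick

set_option autoImplicit false

open Complex ComplexConjugate Metric Filter Topology MeasureTheory

namespace Pool.Agent.Helper897.NevF

open Pool.Agent.Helper897.InnerUnique Pool.Agent.Helper897.HalfPick

noncomputable section

/-- Cauchy transform `∫ dν(t)/(t-s)`. -/
def N (ν : Measure ℝ) (s : ℂ) : ℂ := ∫ t : ℝ, ((t:ℂ) - s)⁻¹ ∂ν

/-- The zero-free function `exp(i N(w))`. -/
def f (ν : Measure ℝ) (w : ℂ) : ℂ := Complex.exp (I * N ν w)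

lemma N_conj (ν : Measure ℝ) (s : ℂ) : N ν (conj s) = conj (N ν s) := by
  unfold N
  rw [← integral_conj]
  congr 1
  funext t
  rw [map_inv₀, map_sub, Complex.conj_ofReal]

lemma meas_inv (s : ℂ) : Measurable (fun t : ℝ => ((t:ℂ) - s)⁻¹) := by
  fun_prop

variable (ν : Measure ℝ) [IsFiniteMeasure ν]

lemma integrable_inv {s : ℂ} {δ : ℝ} (hδ : 0 < δ) (h : ∀ᵐ t ∂ν, δ ≤ ‖((t:ℝ):ℂ) - s‖) :
    Integrable (fun t : ℝ => ((t:ℂ) - s)⁻¹) ν := by
  apply Integrable.of_bound (meas_inv s).aestronglyMeasurable (1 / δ)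
  filter_upwards [h] with t ht
  rw [norm_inv, one_div]
  exact inv_anti₀ hδ ht

lemma integrable_inv_mul {s s' : ℂ} {δ : ℝ} (hδ : 0 < δ) (h : ∀ᵐ t ∂ν, δ ≤ ‖((t:ℝ):ℂ) - s‖)
    (h' : ∀ᵐ t ∂ν, δ ≤ ‖((t:ℝ):ℂ) - s'‖) :
    Integrable (fun t : ℝ => ((t:ℂ) - s)⁻¹ * ((t:ℂ) - s')⁻¹) ν := by
  apply Integrable.of_bound (by
      apply Measurable.aestronglyMeasurable
      fun_prop) ((1 / δ) * (1 / δ))
  filter_upwards [h, h'] with t ht ht'
  rw [norm_mul, norm_inv, norm_inv, one_div]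
  exact mul_le_mul (inv_anti₀ hδ ht) (inv_anti₀ hδ ht') (by positivity) (by positivity)

lemma norm_N_le {s : ℂ} {δ : ℝ} (hδ : 0 < δ) (h : ∀ᵐ t ∂ν, δ ≤ ‖((t:ℝ):ℂ) - s‖) :
    ‖N ν s‖ ≤ (1 / δ) * ν.real Set.univ := by
  unfold N
  apply norm_integral_le_of_norm_le_const
  filter_upwards [h] with t ht
  rw [norm_inv, one_div]
  exact inv_anti₀ hδ ht

lemma N_sub {s s' : ℂ} {δ : ℝ} (hδ : 0 < δ) (h : ∀ᵐ t ∂ν, δ ≤ ‖((t:ℝ):ℂ) - s‖)
    (h' : ∀ᵐ t ∂ν, δ ≤ ‖((t:ℝ):ℂ) - s'‖) :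
    N ν s - N ν s' = (s - s') * ∫ t : ℝ, ((t:ℂ) - s)⁻¹ * ((t:ℂ) - s')⁻¹ ∂ν := by
  unfold N
  rw [← integral_sub (integrable_inv ν hδ h) (integrable_inv ν hδ h'), ← integral_const_mul]
  apply integral_congr_ae
  filter_upwards [h, h'] with t ht ht'
  have h1 : (t:ℂ) - s ≠ 0 := norm_pos_iff.1 (lt_of_lt_of_le hδ ht)
  have h2 : (t:ℂ) - s' ≠ 0 := norm_pos_iff.1 (lt_of_lt_of_le hδ ht')
  field_simp
  ring

lemma N_differentiableAt {s : ℂ} {δ : ℝ} (hδ : 0 < δ) (h : ∀ᵐ t ∂ν, δ ≤ ‖((t:ℝ):ℂ) - s‖) :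
    DifferentiableAt ℂ (N ν) s := by
  have hnear : ∀ᵐ t ∂ν, ∀ s' ∈ ball s (δ / 2), δ / 2 ≤ ‖((t:ℝ):ℂ) - s'‖ := by
    filter_upwards [h] with t ht s' hs'
    rw [mem_ball_iff_norm] at hs'
    have h1 : ‖(t:ℂ) - s‖ ≤ ‖(t:ℂ) - s'‖ + ‖s' - s‖ := by
      have : (t:ℂ) - s = ((t:ℂ) - s') + (s' - s) := by ring
      rw [this]
      exact norm_add_le _ _
    linarith
  have hmain := hasDerivAt_integral_of_dominated_loc_of_deriv_le (μ := ν) (𝕜 := ℂ)
    (F := fun (s : ℂ) (t : ℝ) => ((t:ℂ) - s)⁻¹) (F' := fun (s : ℂ) (t : ℝ) => (((t:ℂ) - s) ^ 2)⁻¹)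
    (x₀ := s) (s := ball s (δ / 2)) (bound := fun _ => ((δ / 2) ^ 2)⁻¹)
    (ball_mem_nhds s (by positivity)) (Eventually.of_forall fun s' =>
      (meas_inv s').aestronglyMeasurable) (integrable_inv ν hδ h)
    (by
      apply Measurable.aestronglyMeasurable
      fun_prop) (by
      filter_upwards [hnear] with t ht s' hs'
      rw [norm_inv, norm_pow]
      have := ht s' hs'
      gcongr) (integrable_const _) (by
      filter_upwards [hnear] with t ht s' hs'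
      have hne : (t:ℂ) - s' ≠ 0 := norm_pos_iff.1 (lt_of_lt_of_le (by positivity) (ht s' hs'))
      have h1 : HasDerivAt (fun x : ℂ => (t:ℂ) - x) (-1) s' := by
        simpa using (hasDerivAt_id s').const_sub (t:ℂ)
      have h2 := h1.inv hne
      refine h2.congr_deriv ?_
      field_simp)
  exact hmain.2.differentiableAt

lemma dist_im (s : ℂ) (t : ℝ) : |s.im| ≤ ‖(t:ℂ) - s‖ := by
  have h1 := Complex.abs_im_le_norm ((t:ℂ) - s)
  simpa using h1

omit [IsFiniteMeasure ν] in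
lemma ae_dist_im {s : ℂ} {δ : ℝ} (hs : δ ≤ |s.im|) : ∀ᵐ t ∂ν, δ ≤ ‖((t:ℝ):ℂ) - s‖ :=
  Eventually.of_forall fun t => hs.trans (dist_im s t)

/-- Imaginary part of the Cauchy transform. -/
lemma N_im {w : ℂ} (hw : 0 < w.im) :
    (N ν w).im = w.im * ∫ t : ℝ, (‖(t:ℂ) - w‖ ^ 2)⁻¹ ∂ν := by
  have hd : ∀ᵐ t ∂ν, w.im ≤ ‖((t:ℝ):ℂ) - w‖ := ae_dist_im ν (le_abs_self _)
  have hd' : ∀ᵐ t ∂ν, w.im ≤ ‖((t:ℝ):ℂ) - conj w‖ := ae_dist_im ν (by
    rw [Complex.conj_im, abs_neg]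
    exact le_abs_self _)
  have h1 := N_sub ν hw hd hd'
  rw [N_conj] at h1
  have h2 : N ν w - conj (N ν w) = (2 * (N ν w).im : ℝ) * I := Complex.sub_conj _
  have h3 : w - conj w = (2 * w.im : ℝ) * I := Complex.sub_conj _
  rw [h2, h3] at h1
  have h4 : (∫ t : ℝ, ((t:ℂ) - w)⁻¹ * ((t:ℂ) - conj w)⁻¹ ∂ν)
      = ((∫ t : ℝ, (‖(t:ℂ) - w‖ ^ 2)⁻¹ ∂ν : ℝ) : ℂ) := by
    rw [← integral_complex_ofReal]
    congr 1
    funext t
    rw [← mul_inv]
    have : (t:ℂ) - conj w = conj ((t:ℂ) - w) := by simp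
    rw [this, Complex.mul_conj, Complex.normSq_eq_norm_sq]
    push_cast
    rfl
  rw [h4] at h1
  have h5 : ((2 * (N ν w).im : ℝ) : ℂ) = ((2 * w.im * ∫ t : ℝ, (‖(t:ℂ) - w‖ ^ 2)⁻¹ ∂ν : ℝ) : ℂ) := by
    have hI := I_ne_zero
    apply mul_right_cancel₀ hI
    rw [h1]
    push_cast
    ring
  rw [Complex.ofReal_inj] at h5
  linarith

lemma integrable_sq_inv {w : ℂ} (hw : 0 < w.im) :
    Integrable (fun t : ℝ => (‖(t:ℂ) - w‖ ^ 2)⁻¹) ν := by
  apply Integrable.of_bound (by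
    apply Measurable.aestronglyMeasurable
    fun_prop) ((w.im ^ 2)⁻¹)
  refine Eventually.of_forall fun t => ?_
  rw [norm_inv, norm_pow, norm_norm]
  have := (le_abs_self w.im).trans (dist_im w t)
  gcongr

lemma N_im_nonneg {w : ℂ} (hw : 0 < w.im) : 0 ≤ (N ν w).im := by
  rw [N_im ν hw]
  apply mul_nonneg hw.le
  apply integral_nonneg
  intro t
  positivity

lemma N_im_pos (hν : ν ≠ 0) {w : ℂ} (hw : 0 < w.im) : 0 < (N ν w).im := by
  rw [N_im ν hw]
  apply mul_pos hw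
  rw [integral_pos_iff_support_of_nonneg (fun t => by positivity) (integrable_sq_inv ν hw)]
  have h1 : Function.support (fun t : ℝ => (‖(t:ℂ) - w‖ ^ 2)⁻¹) = Set.univ := by
    ext t
    simp only [Function.mem_support, Set.mem_univ, iff_true]
    have := lt_of_lt_of_le hw ((le_abs_self w.im).trans (dist_im w t))
    positivity
  rw [h1]
  exact Measure.measure_univ_pos.2 hν

/-- Lower bound for the imaginary part near the support. -/
lemma N_im_lower {w : ℂ} (hw : 0 < w.im) {M : ℝ}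
    (hM : 2 * M * w.im ≤ ν.real (Set.Icc (w.re - w.im) (w.re + w.im))) : M ≤ (N ν w).im := by
  rw [N_im ν hw]
  have h1 : (2 * w.im ^ 2)⁻¹ * ν.real (Set.Icc (w.re - w.im) (w.re + w.im))
      ≤ ∫ t : ℝ, (‖(t:ℂ) - w‖ ^ 2)⁻¹ ∂ν := by
    calc (2 * w.im ^ 2)⁻¹ * ν.real (Set.Icc (w.re - w.im) (w.re + w.im))
        = ∫ t in Set.Icc (w.re - w.im) (w.re + w.im), (2 * w.im ^ 2)⁻¹ ∂ν := by
          rw [setIntegral_const, smul_eq_mul, mul_comm]
      _ ≤ ∫ t in Set.Icc (w.re - w.im) (w.re + w.im), (‖(t:ℂ) - w‖ ^ 2)⁻¹ ∂ν := by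
          apply setIntegral_mono_on (integrable_const _).integrableOn
            (integrable_sq_inv ν hw).integrableOn measurableSet_Icc
          intro t ht
          have hpos := lt_of_lt_of_le hw ((le_abs_self w.im).trans (dist_im w t))
          apply inv_anti₀ (by positivity)
          rw [← Complex.normSq_eq_norm_sq, Complex.normSq_apply]
          simp only [Complex.sub_re, Complex.ofReal_re, Complex.sub_im, Complex.ofReal_im]
          obtain ⟨ht1, ht2⟩ := ht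
          nlinarith
      _ ≤ ∫ t : ℝ, (‖(t:ℂ) - w‖ ^ 2)⁻¹ ∂ν := by
          apply setIntegral_le_integral (integrable_sq_inv ν hw)
          exact Eventually.of_forall fun t => by positivity
  have h2 : M = w.im * ((2 * w.im ^ 2)⁻¹ * (2 * M * w.im)) := by
    field_simp
  rw [h2]
  apply mul_le_mul_of_nonneg_left _ hw.le
  refine le_trans ?_ h1
  apply mul_le_mul_of_nonneg_left hM (by positivity)

omit [IsFiniteMeasure ν] in
lemma norm_f (w : ℂ) : ‖f ν w‖ = Real.exp (-(N ν w).im) := by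
  unfold f
  rw [Complex.norm_exp]
  congr 1
  rw [Complex.I_mul_re]

lemma norm_f_le_one {w : ℂ} (hw : 0 < w.im) : ‖f ν w‖ ≤ 1 := by
  rw [norm_f, Real.exp_le_one_iff]
  have := N_im_nonneg ν hw
  linarith

lemma f_differentiableOn : DifferentiableOn ℂ (f ν) {w | 0 < w.im} := by
  intro w hw
  apply DifferentiableAt.differentiableWithinAt
  unfold f
  apply DifferentiableAt.cexp
  apply DifferentiableAt.const_mul
  exact N_differentiableAt ν (δ := w.im) hw (ae_dist_im ν (le_abs_self _))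

omit [IsFiniteMeasure ν] in
lemma conj_f (w : ℂ) : conj (f ν w) = Complex.exp (-(I * N ν (conj w))) := by
  unfold f
  rw [← Complex.exp_conj, map_mul, conj_I, N_conj]
  congr 1
  ring

/-- The product measure. -/
def mu : Measure (ℝ × ℝ) := ν.prod (volume.restrict (Set.Ioc 0 1))

instance : IsFiniteMeasure (mu ν) := by
  unfold mu
  infer_instance

/-- The kernel functions. -/
def Eb (s : ℂ) (x : ℝ × ℝ) : ℂ := ((x.1:ℂ) - s)⁻¹ * Complex.exp (-(I * x.2 * N ν s))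

lemma integrable_Eb_mul {s s' : ℂ} (hs : s.im ≠ 0) (hs' : s'.im ≠ 0) :
    Integrable (fun x => conj (Eb ν s x) * Eb ν s' x) (mu ν) := by
  have h1 : (fun x : ℝ × ℝ => conj (Eb ν s x) * Eb ν s' x)
      = fun x => (((x.1:ℂ) - conj s)⁻¹ * ((x.1:ℂ) - s')⁻¹) *
        (Complex.exp (I * x.2 * conj (N ν s)) * Complex.exp (-(I * x.2 * N ν s'))) := by
    funext x
    unfold Eb
    rw [map_mul, map_inv₀, map_sub, Complex.conj_ofReal, ← Complex.exp_conj, map_neg, map_mul,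
      map_mul, conj_I, Complex.conj_ofReal, neg_mul, neg_mul, neg_neg]
    ring
  rw [h1]
  unfold mu
  apply Integrable.mul_prod (f := fun t : ℝ => (((t:ℂ) - conj s)⁻¹ * ((t:ℂ) - s')⁻¹))
    (g := fun τ : ℝ => (Complex.exp (I * τ * conj (N ν s)) * Complex.exp (-(I * τ * N ν s'))))
  · apply integrable_inv_mul ν (δ := min |s.im| |s'.im|) (lt_min (abs_pos.2 hs) (abs_pos.2 hs'))
    · apply ae_dist_im
      rw [Complex.conj_im, abs_neg]
      exact min_le_left _ _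
    · apply ae_dist_im
      exact min_le_right _ _
  · apply Continuous.integrableOn_Ioc
    fun_prop

/-- Gram formula for the kernel of `f`. -/
lemma K_formula (hν : ν ≠ 0) {w w' : ℂ} (hw : 0 < w.im) (hw' : 0 < w'.im) :
    K (f ν) w w' = ∫ x, conj (Eb ν (conj w) x) * Eb ν (conj w') x ∂(mu ν) := by
  have h1 : (fun x : ℝ × ℝ => conj (Eb ν (conj w) x) * Eb ν (conj w') x)
      = fun x => (((x.1:ℂ) - w)⁻¹ * ((x.1:ℂ) - conj w')⁻¹) *
        (Complex.exp (I * x.2 * (N ν w - conj (N ν w')))) := by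
    funext x
    unfold Eb
    rw [map_mul, map_inv₀, map_sub, Complex.conj_ofReal, ← Complex.exp_conj, map_neg, map_mul,
      map_mul, conj_I, Complex.conj_ofReal, neg_mul, neg_mul, neg_neg, N_conj, N_conj,
      Complex.conj_conj, Complex.conj_conj]
    have h2 : Complex.exp (I * x.2 * (N ν w - conj (N ν w')))
        = Complex.exp (I * x.2 * N ν w) * Complex.exp (-(I * x.2 * conj (N ν w'))) := by
      rw [← Complex.exp_add]
      congr 1
      ring
    rw [h2]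
    ring
  rw [h1]
  unfold mu
  rw [integral_prod_mul (f := fun t : ℝ => (((t:ℂ) - w)⁻¹ * ((t:ℂ) - conj w')⁻¹))
    (g := fun τ : ℝ => (Complex.exp (I * τ * (N ν w - conj (N ν w')))))]
  have hσ : N ν w - conj (N ν w') ≠ 0 := by
    intro h0
    have h2 : (N ν w - conj (N ν w')).im = 0 := by rw [h0]; rfl
    rw [Complex.sub_im, Complex.conj_im] at h2
    have := N_im_pos ν hν hw
    have := N_im_pos ν hν hw'
    linarith
  have h3 : ∫ τ in Set.Ioc (0:ℝ) 1, (Complex.exp (I * τ * (N ν w - conj (N ν w'))))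
      = I * (1 - Complex.exp (I * (N ν w - conj (N ν w')))) / (N ν w - conj (N ν w')) := by
    rw [← int_exp hσ, intervalIntegral.integral_of_le zero_le_one]
  rw [h3]
  have hd : 0 < min w.im w'.im := lt_min hw hw'
  have h4 := N_sub ν (s := w) (s' := conj w') hd
    (ae_dist_im ν ((min_le_left _ _).trans (le_abs_self _)))
    (ae_dist_im ν (by
      rw [Complex.conj_im, abs_neg]
      exact (min_le_right _ _).trans (le_abs_self _)))
  rw [N_conj] at h4
  have h5 : w - conj w' ≠ 0 := by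
    intro h
    have : (w - conj w').im = 0 := by rw [h]; rfl
    rw [Complex.sub_im, Complex.conj_im] at this
    linarith
  have h6 : (∫ t : ℝ, ((t:ℂ) - w)⁻¹ * ((t:ℂ) - conj w')⁻¹ ∂ν)
      = (N ν w - conj (N ν w')) / (w - conj w') := by
    rw [h4]
    field_simp
  rw [h6]
  unfold K
  rw [conj_f, N_conj]
  unfold f
  rw [← Complex.exp_add]
  have h7 : I * N ν w + -(I * conj (N ν w')) = I * (N ν w - conj (N ν w')) := by ring
  rw [h7]
  field_simp

variable {ι : Type*}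

/-- The quadratic form of the kernel of `f`. -/
lemma quad_formula (hν : ν ≠ 0) (s : Finset ι) (w : ι → ℂ) (hw : ∀ j ∈ s, 0 < (w j).im)
    (d : ι → ℂ) :
    (∑ j ∈ s, ∑ k ∈ s, conj (d j) * d k * K (f ν) (w j) (w k)).re
      = ∫ x, ‖∑ j ∈ s, d j * Eb ν (conj (w j)) x‖ ^ 2 ∂(mu ν) := by
  have h1 : ∀ j ∈ s, ∀ k ∈ s, conj (d j) * d k * K (f ν) (w j) (w k)
      = ∫ x, conj (d j) * d k * (conj (Eb ν (conj (w j)) x) * Eb ν (conj (w k)) x) ∂(mu ν) := by
    intro j hj k hk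
    rw [K_formula ν hν (hw j hj) (hw k hk), ← integral_const_mul]
  have him : ∀ j ∈ s, (conj (w j)).im ≠ 0 := by
    intro j hj
    rw [Complex.conj_im]
    have := hw j hj
    linarith
  rw [Finset.sum_congr rfl (fun j hj => Finset.sum_congr rfl (h1 j hj))]
  have h2 : ∀ j ∈ s, ∑ k ∈ s, ∫ x, conj (d j) * d k *
      (conj (Eb ν (conj (w j)) x) * Eb ν (conj (w k)) x) ∂(mu ν)
      = ∫ x, ∑ k ∈ s, conj (d j) * d k *
      (conj (Eb ν (conj (w j)) x) * Eb ν (conj (w k)) x) ∂(mu ν) := by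
    intro j hj
    rw [integral_finsetSum]
    intro k hk
    exact (integrable_Eb_mul ν (him j hj) (him k hk)).const_mul _
  rw [Finset.sum_congr rfl h2, ← integral_finsetSum]
  · have h3 : (fun x => ∑ j ∈ s, ∑ k ∈ s, conj (d j) * d k *
      (conj (Eb ν (conj (w j)) x) * Eb ν (conj (w k)) x))
      = fun x => ((‖∑ j ∈ s, d j * Eb ν (conj (w j)) x‖ ^ 2 : ℝ) : ℂ) := by
      funext x
      rw [Complex.ofReal_pow, ← Complex.conj_mul', map_sum, Finset.sum_mul_sum]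
      apply Finset.sum_congr rfl
      intro j _
      apply Finset.sum_congr rfl
      intro k _
      rw [map_mul]
      ring
    rw [h3, integral_complex_ofReal, Complex.ofReal_re]
  · intro j hj
    apply integrable_finsetSum
    intro k hk
    exact (integrable_Eb_mul ν (him j hj) (him k hk)).const_mul _

end

end Pool.Agent.Helper897.NevF
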