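import Mathlib
import Pool.Agent.Helper897.NevF
import Pool.Agent.Helper897.Interp

set_option autoImplicit false

open Complex ComplexConjugate Metric Filter Topology MeasureTheory

namespace Pool.Agent.Helper897.Stage

open Pool.Agent.Helper897.InnerUnique Pool.Agent.Helper897.HalfPick Pool.Agent.Helper897.NevF
  Pool.Agent.Helper897.Interp

noncomputable section

/-- The coordinate in the half-plane `Re q > 1`. -/
def q (L : ℝ) (ζ : ℂ) : ℂ := ((1 + I) * L + ζ * ((1 - I) * L - 2)) / (1 - ζ)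

/-- The coordinate in the slit plane. -/
def sl (L : ℝ) (ζ : ℂ) : ℂ := 16 - q L ζ ^ 2

/-- The disc coordinate of `q0`. -/
def zt (L : ℝ) (q0 : ℂ) : ℂ := (q0 - (1 + I) * L) / (q0 + (1 - I) * L - 2)

lemma one_sub_ne' {ζ : ℂ} (hζ : ζ ∈ ball (0:ℂ) 1) : 1 - ζ ≠ 0 := one_sub_ne hζ

lemma q_re {L : ℝ} (hL : 1 < L) {ζ : ℂ} (hζ : ζ ∈ ball (0:ℂ) 1) : 1 < (q L ζ).re := by
  have hζ' : ‖ζ‖ < 1 := by simpa using hζ
  have h1 := one_sub_ne' hζ
  have h2 : 0 < normSq (1 - ζ) := normSq_pos.2 h1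
  have h3 : (q L ζ).re - 1 = (L - 1) * (1 - ‖ζ‖ ^ 2) / normSq (1 - ζ) := by
    unfold q
    rw [Complex.div_re, ← Complex.normSq_eq_norm_sq]
    field_simp
    simp only [Complex.normSq_apply, Complex.add_re, Complex.add_im, Complex.sub_re,
      Complex.sub_im, Complex.mul_re, Complex.mul_im, Complex.one_re, Complex.one_im, Complex.I_re,
      Complex.I_im, Complex.ofReal_re, Complex.ofReal_im, Complex.re_ofNat, Complex.im_ofNat]
    ring
  have h4 : 0 < (L - 1) * (1 - ‖ζ‖ ^ 2) / normSq (1 - ζ) := by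
    apply div_pos _ h2
    apply mul_pos (by linarith)
    nlinarith [norm_nonneg ζ]
  linarith

lemma q_diff (L : ℝ) : DifferentiableOn ℂ (q L) (ball 0 1) := by
  intro ζ hζ
  apply DifferentiableAt.differentiableWithinAt
  unfold q
  apply DifferentiableAt.div (by fun_prop) (by fun_prop)
  exact one_sub_ne' hζ

lemma sl_diff (L : ℝ) : DifferentiableOn ℂ (sl L) (ball 0 1) := by
  unfold sl
  exact (differentiableOn_const _).sub ((q_diff L).pow 2)

lemma dist_slit {q : ℂ} (hq : 1 ≤ q.re) {t : ℝ} (ht : 16 ≤ t) : 1 ≤ ‖(t:ℂ) - (16 - q ^ 2)‖ := by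
  set r : ℝ := Real.sqrt (t - 16) with hr
  have h1 : (r:ℂ) ^ 2 = (t:ℂ) - 16 := by
    rw [← Complex.ofReal_pow, Real.sq_sqrt (by linarith)]
    push_cast
    rfl
  have h2 : (t:ℂ) - (16 - q ^ 2) = (q + I * r) * (q - I * r) := by
    have : (q + I * r) * (q - I * r) = q ^ 2 - I ^ 2 * (r:ℂ) ^ 2 := by ring
    rw [this, h1, I_sq]
    ring
  rw [h2, norm_mul]
  have h3 : 1 ≤ ‖q + I * r‖ := by
    refine le_trans ?_ (Complex.re_le_norm _)
    simpa using hq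
  have h4 : 1 ≤ ‖q - I * r‖ := by
    refine le_trans ?_ (Complex.re_le_norm _)
    simpa using hq
  nlinarith

lemma q_sub {L : ℝ} {ζ : ℂ} (hζ : ζ ∈ ball (0:ℂ) 1) :
    q L ζ - (1 + I) * L = ζ * (2 * L - 2) / (1 - ζ) := by
  have h1 := one_sub_ne' hζ
  unfold q
  field_simp
  ring

lemma q_dist {L : ℝ} (hL : 1 ≤ L) {ζ : ℂ} (hζ : ‖ζ‖ = 1/10) :
    ‖q L ζ - (1 + I) * L‖ ≤ 2 / 9 * L := by
  have hmem : ζ ∈ ball (0:ℂ) 1 := by
    rw [mem_ball_zero_iff, hζ]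
    norm_num
  rw [q_sub hmem, norm_div, norm_mul, hζ]
  have h1 : 9 / 10 ≤ ‖1 - ζ‖ := by
    have := norm_sub_norm_le (1:ℂ) ζ
    rw [norm_one, hζ] at this
    linarith
  have h2 : ‖(2 * (L:ℂ) - 2)‖ ≤ 2 * L := by
    have : (2 * (L:ℂ) - 2) = ((2 * L - 2 : ℝ) : ℂ) := by push_cast; ring
    rw [this, Complex.norm_real, Real.norm_of_nonneg (by linarith)]
    linarith
  rw [div_le_iff₀ (by linarith)]
  calc 1 / 10 * ‖(2 * (L:ℂ) - 2)‖ ≤ 1 / 10 * (2 * L) := by gcongr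
    _ = 2 / 9 * L * (9 / 10) := by ring
    _ ≤ 2 / 9 * L * ‖1 - ζ‖ := by
        apply mul_le_mul_of_nonneg_left h1
        positivity

lemma sl_bounds {L : ℝ} (hL : 4 ≤ L) {ζ : ℂ} (hζ : ‖ζ‖ = 1/10) :
    L ^ 2 ≤ (conj (sl L ζ)).im ∧ ‖conj (sl L ζ)‖ ≤ 4 * L ^ 2 := by
  have hd := q_dist (by linarith : 1 ≤ L) hζ
  set e := q L ζ - (1 + I) * L with he
  have hq : q L ζ = (1 + I) * L + e := by rw [he]; ring
  have hre : (q L ζ).re = L + e.re := by rw [hq]; simp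
  have him : (q L ζ).im = L + e.im := by rw [hq]; simp
  have h1 : |e.re| ≤ 2 / 9 * L := (Complex.abs_re_le_norm e).trans hd
  have h2 : |e.im| ≤ 2 / 9 * L := (Complex.abs_im_le_norm e).trans hd
  rw [abs_le] at h1 h2
  constructor
  · have h3 : (conj (sl L ζ)).im = 2 * (q L ζ).re * (q L ζ).im := by
      unfold sl
      rw [Complex.conj_im, sq, Complex.sub_im, Complex.mul_im]
      simp
      ring
    rw [h3, hre, him]
    have h4 : 7 / 9 * L ≤ L + e.re := by linarith [h1.1]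
    have h5 : 7 / 9 * L ≤ L + e.im := by linarith [h2.1]
    have h6 : (7 / 9 * L) * (7 / 9 * L) ≤ (L + e.re) * (L + e.im) :=
      mul_le_mul h4 h5 (by positivity) (by linarith)
    nlinarith
  · rw [RCLike.norm_conj]
    unfold sl
    have h3 : ‖q L ζ‖ ^ 2 ≤ 3 * L ^ 2 := by
      rw [← Complex.normSq_eq_norm_sq, Complex.normSq_apply, hre, him]
      have h4 : (L + e.re) ≤ 11 / 9 * L := by linarith [h1.2]
      have h5 : (L + e.im) ≤ 11 / 9 * L := by linarith [h2.2]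
      have h6 : 0 ≤ L + e.re := by linarith [h1.1]
      have h7 : 0 ≤ L + e.im := by linarith [h2.1]
      nlinarith [mul_le_mul h4 h4 h6 (by linarith), mul_le_mul h5 h5 h7 (by linarith)]
    calc ‖(16:ℂ) - q L ζ ^ 2‖ ≤ ‖(16:ℂ)‖ + ‖q L ζ ^ 2‖ := norm_sub_le _ _
      _ ≤ 16 + 3 * L ^ 2 := by
        rw [norm_pow]
        have : ‖(16:ℂ)‖ = 16 := by norm_num
        linarith
      _ ≤ 4 * L ^ 2 := by nlinarith

lemma zt_den_ne {L : ℝ} (hL : 1 < L) {q0 : ℂ} (hq0 : 1 < q0.re) :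
    q0 + (1 - I) * L - 2 ≠ 0 := by
  intro h
  have h1 : (q0 + (1 - I) * L - 2).re = 0 := by rw [h]; rfl
  simp at h1
  linarith

lemma zt_norm_sq {L : ℝ} (hL : 1 < L) {q0 : ℂ} (hq0 : 1 < q0.re) :
    1 - ‖zt L q0‖ ^ 2 = 4 * (q0.re - 1) * (L - 1) / ‖q0 + (1 - I) * L - 2‖ ^ 2 := by
  have h := zt_den_ne hL hq0
  have h2 : 0 < normSq (q0 + (1 - I) * L - 2) := normSq_pos.2 h
  unfold zt
  rw [norm_div, div_pow, ← Complex.normSq_eq_norm_sq, ← Complex.normSq_eq_norm_sq,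
    eq_div_iff h2.ne', sub_mul, div_mul_cancel₀ _ h2.ne', one_mul]
  simp only [Complex.normSq_apply, Complex.add_re, Complex.add_im, Complex.sub_re,
      Complex.sub_im, Complex.mul_re, Complex.mul_im, Complex.one_re, Complex.one_im, Complex.I_re,
      Complex.I_im, Complex.ofReal_re, Complex.ofReal_im, Complex.re_ofNat, Complex.im_ofNat]
  ring

lemma zt_norm_lt {L : ℝ} (hL : 1 < L) {q0 : ℂ} (hq0 : 1 < q0.re) : ‖zt L q0‖ < 1 := by
  have h := zt_norm_sq hL hq0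
  have h2 : 0 < ‖q0 + (1 - I) * L - 2‖ ^ 2 := by
    have := norm_pos_iff.2 (zt_den_ne hL hq0)
    positivity
  have h3 : 0 < 4 * (q0.re - 1) * (L - 1) / ‖q0 + (1 - I) * L - 2‖ ^ 2 := by
    apply div_pos _ h2
    apply mul_pos (by linarith) (by linarith)
  nlinarith [norm_nonneg (zt L q0)]

lemma zt_mem {L : ℝ} (hL : 1 < L) {q0 : ℂ} (hq0 : 1 < q0.re) : zt L q0 ∈ ball (0:ℂ) 1 := by
  rw [mem_ball_zero_iff]
  exact zt_norm_lt hL hq0

lemma q_zt {L : ℝ} (hL : 1 < L) {q0 : ℂ} (hq0 : 1 < q0.re) : q L (zt L q0) = q0 := by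
  have h1 := one_sub_ne' (zt_mem hL hq0)
  have h2 := zt_den_ne hL hq0
  unfold q
  rw [div_eq_iff h1]
  have hz : zt L q0 * (q0 + (1 - I) * L - 2) = q0 - (1 + I) * L := div_mul_cancel₀ _ h2
  linear_combination hz

lemma sl_zt {L : ℝ} (hL : 1 < L) {q0 : ℂ} (hq0 : 1 < q0.re) : sl L (zt L q0) = 16 - q0 ^ 2 := by
  unfold sl
  rw [q_zt hL hq0]

lemma K_sub_le {H g : ℂ → ℂ} {w w' : ℂ} {δ η : ℝ} (hη : 0 < η) (hw : η ≤ w.im) (hw' : η ≤ w'.im)
    (hH : ‖H w'‖ ≤ 1) (hg : ‖g w‖ ≤ 1) (h1 : ‖H w - g w‖ ≤ δ)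
    (h2 : ‖H w' - g w'‖ ≤ δ) : ‖K H w w' - K g w w'‖ ≤ δ / η := by
  have hden : 2 * η ≤ ‖w - conj w'‖ := by
    refine le_trans ?_ (Complex.abs_im_le_norm _)
    rw [Complex.sub_im, Complex.conj_im]
    refine le_trans ?_ (le_abs_self _)
    linarith
  have hnum : ‖g w * conj (g w') - H w * conj (H w')‖ ≤ 2 * δ := by
    have h3 : g w * conj (g w') - H w * conj (H w')
        = -(g w * conj (H w' - g w')) - (H w - g w) * conj (H w') := by
      rw [map_sub]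
      ring
    rw [h3]
    refine (norm_sub_le _ _).trans ?_
    rw [norm_neg, norm_mul, norm_mul, RCLike.norm_conj, RCLike.norm_conj]
    have hδ : 0 ≤ δ := (norm_nonneg _).trans h1
    have h4 : ‖g w‖ * ‖H w' - g w'‖ ≤ 1 * δ := mul_le_mul hg h2 (norm_nonneg _) zero_le_one
    have h5 : ‖H w - g w‖ * ‖H w'‖ ≤ δ * 1 := mul_le_mul h1 hH (norm_nonneg _) hδ
    linarith
  have hne : w - conj w' ≠ 0 := norm_pos_iff.1 (by linarith)
  have h3 : K H w w' - K g w w' = I * (g w * conj (g w') - H w * conj (H w')) / (w - conj w') := by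
    unfold K
    rw [← sub_div]
    congr 1
    ring
  rw [h3, norm_div, norm_mul, norm_I, one_mul, div_le_div_iff₀ (by linarith) hη]
  have hδ : 0 ≤ δ := (norm_nonneg _).trans h1
  nlinarith

variable (ν : Measure ℝ) [IsFiniteMeasure ν]

/-- total mass -/
def mass : ℝ := ν.real Set.univ

omit [IsFiniteMeasure ν] in
lemma mass_nonneg : 0 ≤ mass ν := measureReal_nonneg

lemma norm_N_sl (hsupp : ∀ᵐ t ∂ν, (16:ℝ) ≤ t) {q : ℂ} (hq : 1 ≤ q.re) :
    ‖N ν (16 - q ^ 2)‖ ≤ mass ν := by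
  have := norm_N_le ν (s := 16 - q ^ 2) (δ := 1) one_pos (by
    filter_upwards [hsupp] with t ht
    exact dist_slit hq ht)
  simpa [mass] using this

lemma N_sl_diff (hsupp : ∀ᵐ t ∂ν, (16:ℝ) ≤ t) {L : ℝ} (hL : 1 < L) :
    DifferentiableOn ℂ (fun ζ => N ν (sl L ζ)) (ball 0 1) := by
  intro ζ hζ
  apply DifferentiableAt.differentiableWithinAt
  have h1 : DifferentiableAt ℂ (N ν) (sl L ζ) := by
    apply N_differentiableAt ν (δ := 1) one_pos
    filter_upwards [hsupp] with t ht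
    exact dist_slit (q_re hL hζ).le ht
  have h2 : DifferentiableAt ℂ (sl L) ζ := (sl_diff L ζ hζ).differentiableAt (isOpen_ball.mem_nhds hζ)
  exact h1.comp ζ h2

/-- The uniqueness estimate at one scale. -/
theorem stage (hν : ν ≠ 0) (hsupp : ∀ᵐ t ∂ν, (16:ℝ) ≤ t)
    (hV : Integrable (fun t : ℝ => t ^ 2) ν) {H : ℂ → ℂ}
    (hH : DifferentiableOn ℂ H {w | 0 < w.im}) (hb : ∀ w : ℂ, 0 < w.im → ‖H w‖ ≤ 1) {q0 : ℂ}
    (hq0 : 1 < q0.re) (hq0' : q0.im < 0) {L : ℝ} (hL : 4 ≤ L) {p : ℕ} (hp : 0 < p) {δ : ℝ}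
    (hδ : ∀ w : ℂ, L ^ 2 ≤ w.im → ‖w‖ ≤ 4 * L ^ 2 → ‖H w - f ν w‖ ≤ δ)
    (hζ : 1/10 ≤ ‖zt L q0‖) :
    ‖1 - H (16 - q0 ^ 2) * Complex.exp (-(I * N ν (16 - q0 ^ 2)))‖ ≤
      Real.sqrt (((K H (16 - q0 ^ 2) (16 - q0 ^ 2)).re + 1) *
        ((∫ x : ℝ × ℝ, Real.exp (2 * mass ν) * (2 * (1 + ‖16 - q0 ^ 2‖) ^ 2 + 2 * x.1 ^ 2) ∂(mu ν)) *
          (2 * (‖zt L q0‖ ^ p / (1 - ‖zt L q0‖))) ^ 2
          + (p * 10 ^ p * (‖16 - q0 ^ 2‖ + 4 * L ^ 2)) ^ 2 * δ))
      + p * 10 ^ p * δ + (1 + Real.exp (mass ν)) * (2 * (‖zt L q0‖ ^ p / (1 - ‖zt L q0‖))) := by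
  set w0 : ℂ := 16 - q0 ^ 2 with hw0def
  set ζ0 := zt L q0 with hζ0
  set err : ℝ := 2 * (‖ζ0‖ ^ p / (1 - ‖ζ0‖)) with herr
  have hL1 : 1 < L := by linarith
  have hw0 : 0 < w0.im := by
    rw [hw0def, sq, Complex.sub_im, Complex.mul_im]
    simp
    nlinarith
  have hρ : (0:ℝ) < 1/10 := by norm_num
  have hρ1 : (1/10:ℝ) < 1 := by norm_num
  have hζ1 : ‖ζ0‖ < 1 := zt_norm_lt hL1 hq0
  have hζmem : ζ0 ∈ ball (0:ℂ) 1 := zt_mem hL1 hq0
  have hslw : sl L ζ0 = w0 := sl_zt hL1 hq0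
  have herr0 : 0 ≤ err := by
    rw [herr]
    have : 0 < 1 - ‖ζ0‖ := by linarith
    positivity
  -- nodes
  set nd : ℕ → ℂ := node (1/10) p with hnd
  have hndn : ∀ j, ‖nd j‖ = 1/10 := fun j => node_norm hρ hp j
  have hndm : ∀ j, nd j ∈ ball (0:ℂ) 1 := by
    intro j
    rw [mem_ball_zero_iff, hndn]
    norm_num
  set w : ℕ → ℂ := fun j => conj (sl L (nd j)) with hw
  have hwb : ∀ j, L ^ 2 ≤ (w j).im ∧ ‖w j‖ ≤ 4 * L ^ 2 := fun j => sl_bounds hL (hndn j)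
  have hL2 : 1 ≤ L ^ 2 := by nlinarith
  have hwim : ∀ j, 0 < (w j).im := fun j => by linarith [(hwb j).1]
  have hδj : ∀ j, ‖H (w j) - f ν (w j)‖ ≤ δ := fun j => hδ (w j) (hwb j).1 (hwb j).2
  have hδ0 : 0 ≤ δ := (norm_nonneg _).trans (hδj 0)
  set lm : ℕ → ℂ := lam (1/10) p ζ0 with hlm
  have hlmn : ∀ j, ‖lm j‖ ≤ 10 ^ p := by
    intro j
    have := lam_norm hρ hρ1.le hp hζ1.le j
    have e : (1 / (1/10:ℝ)) = 10 := by norm_num
    rw [e] at this
    exact this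
  set d : ℕ → ℂ := fun j => lm j * (w0 - conj (w j)) with hd
  set sm := Finset.range p with hsm
  -- the test function
  set Ψ : ℂ → ℂ := fun ζ => 1 - H w0 * Complex.exp (-(I * N ν (sl L ζ))) with hΨ
  have hNn : ∀ ζ ∈ ball (0:ℂ) 1, ‖N ν (sl L ζ)‖ ≤ mass ν := by
    intro ζ hζ
    exact norm_N_sl ν hsupp (q_re hL1 hζ).le
  have hΨb : ‖∑ j ∈ sm, lm j * Ψ (nd j) - Ψ ζ0‖ ≤ (1 + Real.exp (mass ν)) * err := by
    have h1 := interp hρ hρ1 hp hζ hζ1 (F := Ψ) (M := 1 + Real.exp (mass ν)) (by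
      have h2 := N_sl_diff ν hsupp hL1
      rw [hΨ]
      apply DifferentiableOn.sub (differentiableOn_const _)
      apply DifferentiableOn.mul (differentiableOn_const _)
      apply DifferentiableOn.cexp
      exact ((differentiableOn_const _).mul h2).neg) (by
      intro ζ hζ
      rw [hΨ]
      simp only
      refine (norm_sub_le _ _).trans ?_
      rw [norm_one, norm_mul]
      have h3 : ‖Complex.exp (-(I * N ν (sl L ζ)))‖ ≤ Real.exp (mass ν) := by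
        rw [Complex.norm_exp]
        apply Real.exp_le_exp.2
        refine (Complex.re_le_norm _).trans ?_
        rw [norm_neg, norm_mul, norm_I, one_mul]
        exact hNn ζ hζ
      have h4 : ‖H w0‖ * ‖Complex.exp (-(I * N ν (sl L ζ)))‖ ≤ 1 * Real.exp (mass ν) :=
        mul_le_mul (hb w0 hw0) h3 (norm_nonneg _) zero_le_one
      linarith)
    refine h1.trans (le_of_eq ?_)
    rw [herr]
    ring
  -- the linear term
  have hX : ∑ j ∈ sm, d j * K H w0 (w j)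
      = I * (∑ j ∈ sm, lm j * Ψ (nd j) - H w0 * ∑ j ∈ sm, lm j * conj (H (w j) - f ν (w j))) := by
    rw [Finset.mul_sum, ← Finset.sum_sub_distrib, Finset.mul_sum]
    apply Finset.sum_congr rfl
    intro j _
    have hne : w0 - conj (w j) ≠ 0 := by
      intro h
      have : (w0 - conj (w j)).im = 0 := by rw [h]; rfl
      rw [Complex.sub_im, Complex.conj_im] at this
      have := hwim j
      linarith
    have h1 : conj (f ν (w j)) = Complex.exp (-(I * N ν (sl L (nd j)))) := by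
      rw [conj_f, hw]
      simp only [Complex.conj_conj]
    rw [hd, hΨ]
    simp only
    rw [map_sub, h1]
    unfold K
    field_simp
    ring
  have hsumlm : ∑ j ∈ sm, ‖lm j‖ ≤ p * 10 ^ p := by
    calc ∑ j ∈ sm, ‖lm j‖ ≤ ∑ j ∈ sm, (10:ℝ) ^ p := Finset.sum_le_sum fun j _ => hlmn j
      _ = p * 10 ^ p := by rw [Finset.sum_const, hsm, Finset.card_range, nsmul_eq_mul]
  have hXn : ‖∑ j ∈ sm, lm j * Ψ (nd j)‖ ≤ ‖∑ j ∈ sm, d j * K H w0 (w j)‖ + p * 10 ^ p * δ := by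
    have h1 : ∑ j ∈ sm, lm j * Ψ (nd j) = (-I) * (∑ j ∈ sm, d j * K H w0 (w j))
        + H w0 * ∑ j ∈ sm, lm j * conj (H (w j) - f ν (w j)) := by
      rw [hX, ← mul_assoc, neg_mul, I_mul_I]
      ring
    rw [h1]
    refine (norm_add_le _ _).trans ?_
    rw [norm_mul, norm_neg, norm_I, one_mul]
    have h2 : ‖H w0 * ∑ j ∈ sm, lm j * conj (H (w j) - f ν (w j))‖ ≤ p * 10 ^ p * δ := by
      rw [norm_mul]
      have h3 : ‖∑ j ∈ sm, lm j * conj (H (w j) - f ν (w j))‖ ≤ (∑ j ∈ sm, ‖lm j‖) * δ := by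
        refine (norm_sum_le _ _).trans ?_
        rw [Finset.sum_mul]
        apply Finset.sum_le_sum
        intro j _
        rw [norm_mul, RCLike.norm_conj]
        exact mul_le_mul_of_nonneg_left (hδj j) (norm_nonneg _)
      calc ‖H w0‖ * ‖∑ j ∈ sm, lm j * conj (H (w j) - f ν (w j))‖
          ≤ 1 * ((∑ j ∈ sm, ‖lm j‖) * δ) := mul_le_mul (hb w0 hw0) h3 (norm_nonneg _) zero_le_one
        _ ≤ 1 * (p * 10 ^ p * δ) := by gcongr
        _ = _ := one_mul _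
    linarith
  -- the quadratic term
  have hdn : ∑ j ∈ sm, ‖d j‖ ≤ p * 10 ^ p * (‖w0‖ + 4 * L ^ 2) := by
    calc ∑ j ∈ sm, ‖d j‖ ≤ ∑ j ∈ sm, ‖lm j‖ * (‖w0‖ + 4 * L ^ 2) := by
          apply Finset.sum_le_sum
          intro j _
          rw [hd]
          simp only
          rw [norm_mul]
          apply mul_le_mul_of_nonneg_left _ (norm_nonneg _)
          refine (norm_sub_le _ _).trans ?_
          rw [RCLike.norm_conj]
          linarith [(hwb j).2]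
      _ = (∑ j ∈ sm, ‖lm j‖) * (‖w0‖ + 4 * L ^ 2) := by rw [Finset.sum_mul]
      _ ≤ _ := by gcongr
  have hAf := quad_formula ν hν sm w (fun j _ => hwim j) d
  have hint : ∫ x, ‖∑ j ∈ sm, d j * Eb ν (conj (w j)) x‖ ^ 2 ∂(mu ν)
      ≤ ∫ x : ℝ × ℝ, (Real.exp (2 * mass ν) * (2 * (1 + ‖w0‖) ^ 2 + 2 * x.1 ^ 2)) * err ^ 2
        ∂(mu ν) := by
    apply integral_mono_of_nonneg
    · exact Eventually.of_forall fun x => by positivity
    · apply Integrable.mul_const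
      apply Integrable.const_mul
      apply Integrable.add (integrable_const _)
      apply Integrable.const_mul
      have h1 := Integrable.mul_prod (μ := ν) (ν := volume.restrict (Set.Ioc (0:ℝ) 1)) hV
        (integrable_const (1:ℝ))
      simpa [mu] using h1
    · have hae : ∀ᵐ x ∂(mu ν), (16:ℝ) ≤ x.1 ∧ x.2 ∈ Set.Ioc (0:ℝ) 1 := by
        have h1 : ∀ᵐ x ∂(mu ν), (16:ℝ) ≤ x.1 := by
          unfold mu
          exact Measure.quasiMeasurePreserving_fst.ae hsupp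
        have h2 : ∀ᵐ x ∂(mu ν), x.2 ∈ Set.Ioc (0:ℝ) 1 := by
          unfold mu
          exact Measure.quasiMeasurePreserving_snd.ae (ae_restrict_mem measurableSet_Ioc)
        filter_upwards [h1, h2] with x hx1 hx2
        exact ⟨hx1, hx2⟩
      filter_upwards [hae] with x hx
      obtain ⟨hx1, hx2⟩ := hx
      set Fx : ℂ → ℂ := fun ζ => (w0 - sl L ζ) * Eb ν (sl L ζ) x with hFx
      have hFx0 : Fx ζ0 = 0 := by
        rw [hFx]
        simp only
        rw [hslw, sub_self, zero_mul]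
      have hsum : ∑ j ∈ sm, d j * Eb ν (conj (w j)) x = ∑ j ∈ sm, lm j * Fx (nd j) := by
        apply Finset.sum_congr rfl
        intro j _
        rw [hd, hFx, hw]
        simp only [Complex.conj_conj]
        ring
      have hbd : ∀ ζ ∈ ball (0:ℂ) 1, ‖Fx ζ‖ ≤ (1 + ‖w0 - x.1‖) * Real.exp (mass ν) := by
        intro ζ hζ
        have h1 : 1 ≤ ‖(x.1:ℂ) - sl L ζ‖ := dist_slit (q_re hL1 hζ).le hx1
        have hne : (x.1:ℂ) - sl L ζ ≠ 0 := norm_pos_iff.1 (by linarith)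
        have h2 : (w0 - sl L ζ) * ((x.1:ℂ) - sl L ζ)⁻¹ = 1 + (w0 - x.1) * ((x.1:ℂ) - sl L ζ)⁻¹ := by
          field_simp
          ring
        have h3 : ‖(w0 - sl L ζ) * ((x.1:ℂ) - sl L ζ)⁻¹‖ ≤ 1 + ‖w0 - x.1‖ := by
          rw [h2]
          refine (norm_add_le _ _).trans ?_
          rw [norm_one, norm_mul, norm_inv]
          have h4 : ‖(x.1:ℂ) - sl L ζ‖⁻¹ ≤ 1 := inv_le_one_of_one_le₀ h1
          nlinarith [norm_nonneg (w0 - (x.1:ℂ))]
        have h4 : ‖Complex.exp (-(I * x.2 * N ν (sl L ζ)))‖ ≤ Real.exp (mass ν) := by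
          rw [Complex.norm_exp]
          apply Real.exp_le_exp.2
          refine (Complex.re_le_norm _).trans ?_
          rw [norm_neg, norm_mul, norm_mul, norm_I, one_mul, Complex.norm_real,
            Real.norm_of_nonneg hx2.1.le]
          have h5 := hNn ζ hζ
          nlinarith [hx2.1, hx2.2, norm_nonneg (N ν (sl L ζ)), mass_nonneg ν]
        rw [hFx]
        simp only
        unfold Eb
        rw [← mul_assoc, norm_mul]
        exact mul_le_mul h3 h4 (norm_nonneg _) (by positivity)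
      have hdf : DifferentiableOn ℂ Fx (ball 0 1) := by
        rw [hFx]
        apply DifferentiableOn.mul ((differentiableOn_const _).sub (sl_diff L))
        unfold Eb
        apply DifferentiableOn.mul
        · intro ζ hζ
          apply DifferentiableWithinAt.inv
          · exact (differentiableWithinAt_const _).sub (sl_diff L ζ hζ)
          · have h1 : 1 ≤ ‖(x.1:ℂ) - sl L ζ‖ := dist_slit (q_re hL1 hζ).le hx1
            exact norm_pos_iff.1 (by linarith)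
        · apply DifferentiableOn.cexp
          exact ((differentiableOn_const _).mul (N_sl_diff ν hsupp hL1)).neg
      have h1 := interp hρ hρ1 hp hζ hζ1 hdf hbd
      rw [hFx0, sub_zero] at h1
      rw [hsum]
      have h2 : ‖∑ j ∈ sm, lm j * Fx (nd j)‖ ≤ ((1 + ‖w0 - x.1‖) * Real.exp (mass ν)) * err := by
        refine h1.trans (le_of_eq ?_)
        rw [herr]
        ring
      calc ‖∑ j ∈ sm, lm j * Fx (nd j)‖ ^ 2
          ≤ (((1 + ‖w0 - x.1‖) * Real.exp (mass ν)) * err) ^ 2 := by gcongr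
        _ = (Real.exp (mass ν) ^ 2 * (1 + ‖w0 - x.1‖) ^ 2) * err ^ 2 := by ring
        _ ≤ (Real.exp (2 * mass ν) * (2 * (1 + ‖w0‖) ^ 2 + 2 * x.1 ^ 2)) * err ^ 2 := by
          have h3 : Real.exp (mass ν) ^ 2 = Real.exp (2 * mass ν) := by
            rw [← Real.exp_nat_mul]
            norm_num
          rw [h3]
          gcongr
          have h4 : ‖w0 - x.1‖ ≤ ‖w0‖ + |x.1| := by
            refine (norm_sub_le _ _).trans ?_
            rw [Complex.norm_real, Real.norm_eq_abs]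
          have h5 : (1 + ‖w0 - x.1‖) ^ 2 ≤ ((1 + ‖w0‖) + |x.1|) ^ 2 := by
            apply pow_le_pow_left₀ (by positivity)
            linarith
          have h6 : |x.1| ^ 2 = x.1 ^ 2 := sq_abs _
          nlinarith [sq_nonneg ((1 + ‖w0‖) - |x.1|)]
  rw [integral_mul_const] at hint
  have hdiff : ‖(∑ j ∈ sm, ∑ k ∈ sm, conj (d j) * d k * K H (w j) (w k))
      - ∑ j ∈ sm, ∑ k ∈ sm, conj (d j) * d k * K (f ν) (w j) (w k)‖
      ≤ (p * 10 ^ p * (‖w0‖ + 4 * L ^ 2)) ^ 2 * δ := by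
    rw [← Finset.sum_sub_distrib]
    calc ‖∑ j ∈ sm, (∑ k ∈ sm, conj (d j) * d k * K H (w j) (w k)
          - ∑ k ∈ sm, conj (d j) * d k * K (f ν) (w j) (w k))‖
        ≤ ∑ j ∈ sm, ∑ k ∈ sm, ‖d j‖ * ‖d k‖ * δ := by
          refine (norm_sum_le _ _).trans ?_
          apply Finset.sum_le_sum
          intro j _
          rw [← Finset.sum_sub_distrib]
          refine (norm_sum_le _ _).trans ?_
          apply Finset.sum_le_sum
          intro k _
          rw [← mul_sub, norm_mul, norm_mul, RCLike.norm_conj]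
          apply mul_le_mul_of_nonneg_left _ (by positivity)
          have h1 := K_sub_le (H := H) (g := f ν) (w := w j) (w' := w k) (δ := δ) (η := L ^ 2)
            (by positivity) (hwb j).1 (hwb k).1 (hb _ (hwim k)) (norm_f_le_one ν (hwim j)) (hδj j)
            (hδj k)
          refine h1.trans ?_
          exact div_le_self hδ0 hL2
      _ = (∑ j ∈ sm, ‖d j‖) ^ 2 * δ := by
          rw [sq, Finset.sum_mul_sum, Finset.sum_mul]
          apply Finset.sum_congr rfl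
          intro j _
          rw [Finset.sum_mul]
      _ ≤ _ := by gcongr
  have hA : (∑ j ∈ sm, ∑ k ∈ sm, conj (d j) * d k * K H (w j) (w k)).re
      ≤ (∫ x : ℝ × ℝ, Real.exp (2 * mass ν) * (2 * (1 + ‖w0‖) ^ 2 + 2 * x.1 ^ 2) ∂(mu ν)) * err ^ 2
        + (p * 10 ^ p * (‖w0‖ + 4 * L ^ 2)) ^ 2 * δ := by
    have h1 := (Complex.re_le_norm _).trans hdiff
    rw [Complex.sub_re, hAf] at h1
    linarith
  have hcs := halfpick_cs sm w (fun j _ => hwim j) hH hb d hw0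
  have hB : 0 ≤ (K H w0 w0).re := by
    have := halfpick {()} (fun _ => w0) (fun _ _ => hw0) hH hb (fun _ => 1)
    simpa using this
  have hXsq : ‖∑ j ∈ sm, d j * K H w0 (w j)‖ ≤ Real.sqrt (((K H w0 w0).re + 1) *
      ((∫ x : ℝ × ℝ, Real.exp (2 * mass ν) * (2 * (1 + ‖w0‖) ^ 2 + 2 * x.1 ^ 2) ∂(mu ν)) * err ^ 2
        + (p * 10 ^ p * (‖w0‖ + 4 * L ^ 2)) ^ 2 * δ)) := by
    apply Real.le_sqrt_of_sq_le
    refine hcs.trans ?_
    apply mul_le_mul_of_nonneg_left hA (by linarith)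
  have hfin : ‖Ψ ζ0‖ ≤ ‖∑ j ∈ sm, lm j * Ψ (nd j)‖ + (1 + Real.exp (mass ν)) * err := by
    have : Ψ ζ0 = ∑ j ∈ sm, lm j * Ψ (nd j) - (∑ j ∈ sm, lm j * Ψ (nd j) - Ψ ζ0) := by ring
    calc ‖Ψ ζ0‖ = ‖∑ j ∈ sm, lm j * Ψ (nd j) - (∑ j ∈ sm, lm j * Ψ (nd j) - Ψ ζ0)‖ := by
          rw [← this]
      _ ≤ _ := (norm_sub_le _ _).trans (by linarith)
  have hΨw : Ψ ζ0 = 1 - H w0 * Complex.exp (-(I * N ν w0)) := by
    rw [hΨ]
    simp only
    rw [hslw]
  rw [hΨw] at hfin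
  linarith

end

end Pool.Agent.Helper897.Stage
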