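import Mathlib
import Pool.Agent.Helper897.Stage
import Pool.Agent.Helper897.BlaschkeDiv

set_option autoImplicit false

open Complex ComplexConjugate Metric Filter Topology MeasureTheory

namespace Pool.Agent.Helper897.Uniq

open Pool.Agent.Helper897.InnerUnique Pool.Agent.Helper897.HalfPick Pool.Agent.Helper897.NevF
  Pool.Agent.Helper897.Interp Pool.Agent.Helper897.Stage Pool.Agent.Helper897.BlaschkeDiv

noncomputable section

lemma norm_one_add_I_le : ‖(1 + I : ℂ)‖ ≤ 2 := by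
  refine (norm_add_le _ _).trans ?_
  rw [norm_one, norm_I]
  norm_num

lemma norm_one_sub_I_le : ‖(1 - I : ℂ)‖ ≤ 2 := by
  refine (norm_sub_le _ _).trans ?_
  rw [norm_one, norm_I]
  norm_num

lemma one_le_norm_one_add_I : 1 ≤ ‖(1 + I : ℂ)‖ := by
  refine le_trans ?_ (Complex.re_le_norm _)
  simp

lemma den_le {L : ℝ} (hL : 1 ≤ L) (q0 : ℂ) :
    ‖q0 + (1 - I) * L - 2‖ ≤ (‖q0‖ + 4) * L := by
  have h1 : ‖(1 - I) * (L:ℂ)‖ ≤ 2 * L := by
    rw [norm_mul, Complex.norm_real, Real.norm_of_nonneg (by linarith)]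
    exact mul_le_mul_of_nonneg_right norm_one_sub_I_le (by linarith)
  have h2 : ‖(2:ℂ)‖ = 2 := by norm_num
  calc ‖q0 + (1 - I) * L - 2‖ ≤ ‖q0 + (1 - I) * L‖ + ‖(2:ℂ)‖ := norm_sub_le _ _
    _ ≤ ‖q0‖ + ‖(1 - I) * (L:ℂ)‖ + ‖(2:ℂ)‖ := by
        gcongr
        exact norm_add_le _ _
    _ ≤ ‖q0‖ + 2 * L + 2 := by rw [h2]; linarith
    _ ≤ (‖q0‖ + 4) * L := by nlinarith [norm_nonneg q0]

/-- lower bound for `1 - ‖zt‖`. -/
lemma one_sub_zt {L : ℝ} (hL : 4 ≤ L) {q0 : ℂ} (hq0 : 1 < q0.re) :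
    (q0.re - 1) / (‖q0‖ + 4) ^ 2 / L ≤ 1 - ‖zt L q0‖ := by
  have hL1 : 1 < L := by linarith
  have h1 := zt_norm_sq hL1 hq0
  have h2 := den_le hL1.le q0
  have h3 : 0 < ‖q0 + (1 - I) * L - 2‖ := norm_pos_iff.2 (zt_den_ne hL1 hq0)
  have h4 := zt_norm_lt hL1 hq0
  have h5 : 1 - ‖zt L q0‖ ^ 2 ≤ 2 * (1 - ‖zt L q0‖) := by nlinarith [norm_nonneg (zt L q0)]
  have h6 : 2 * ((q0.re - 1) / (‖q0‖ + 4) ^ 2 / L)
      ≤ 4 * (q0.re - 1) * (L - 1) / ‖q0 + (1 - I) * L - 2‖ ^ 2 := by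
    have h7 : ‖q0 + (1 - I) * L - 2‖ ^ 2 ≤ ((‖q0‖ + 4) * L) ^ 2 := by gcongr
    calc 2 * ((q0.re - 1) / (‖q0‖ + 4) ^ 2 / L)
        = (2 * (q0.re - 1) * L) / ((‖q0‖ + 4) * L) ^ 2 := by
          have : 0 < ‖q0‖ + 4 := by positivity
          field_simp
      _ ≤ (4 * (q0.re - 1) * (L - 1)) / ((‖q0‖ + 4) * L) ^ 2 := by
          apply div_le_div_of_nonneg_right _ (by positivity)
          nlinarith
      _ ≤ 4 * (q0.re - 1) * (L - 1) / ‖q0 + (1 - I) * L - 2‖ ^ 2 := by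
          apply div_le_div_of_nonneg_left _ (by positivity) h7
          apply mul_nonneg (by nlinarith) (by linarith)
  linarith

lemma zt_ge {L : ℝ} (hL : 4 ≤ L) {q0 : ℂ} (hq0 : 1 < q0.re) (hL2 : 2 * (‖q0‖ + 1) ≤ L) :
    1/10 ≤ ‖zt L q0‖ := by
  have hL1 : 1 < L := by linarith
  have h3 : 0 < ‖q0 + (1 - I) * L - 2‖ := norm_pos_iff.2 (zt_den_ne hL1 hq0)
  unfold zt
  rw [norm_div, le_div_iff₀ h3]
  have h1 : ‖(1 - I) * (L:ℂ)‖ ≤ 2 * L := by
    rw [norm_mul, Complex.norm_real, Real.norm_of_nonneg (by linarith)]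
    exact mul_le_mul_of_nonneg_right norm_one_sub_I_le (by linarith)
  have h2 : ‖(2:ℂ)‖ = 2 := by norm_num
  have h4 : ‖q0 + (1 - I) * L - 2‖ ≤ ‖q0‖ + 2 * L + 2 := by
    calc ‖q0 + (1 - I) * L - 2‖ ≤ ‖q0 + (1 - I) * L‖ + ‖(2:ℂ)‖ := norm_sub_le _ _
      _ ≤ ‖q0‖ + ‖(1 - I) * (L:ℂ)‖ + ‖(2:ℂ)‖ := by
          gcongr
          exact norm_add_le _ _
      _ ≤ ‖q0‖ + 2 * L + 2 := by rw [h2]; linarith
  have h5 : L - ‖q0‖ ≤ ‖q0 - (1 + I) * L‖ := by
    have h6 : L ≤ ‖(1 + I) * (L:ℂ)‖ := by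
      rw [norm_mul, Complex.norm_real, Real.norm_of_nonneg (by linarith)]
      nlinarith [one_le_norm_one_add_I]
    have h7 := norm_sub_norm_le ((1 + I) * (L:ℂ)) q0
    rw [norm_sub_rev]
    linarith
  linarith [norm_nonneg q0]

lemma exp5 : (100:ℝ) ≤ Real.exp 5 := by
  have h1 : Real.exp 5 = Real.exp 1 ^ 5 := by
    rw [← Real.exp_nat_mul]
    norm_num
  rw [h1]
  have h2 := Real.exp_one_gt_d9
  calc (100:ℝ) ≤ 2.7 ^ 5 := by norm_num
    _ ≤ Real.exp 1 ^ 5 := by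
      apply pow_le_pow_left₀ (by norm_num)
      linarith

/-- scale parameters -/
def Lk (k : ℕ) : ℝ := 4 ^ (k + 1)

def pk (k : ℕ) : ℕ := 8 ^ (k + 1)

def dk (k : ℕ) : ℝ := 2 * Real.exp (-(64/9 * 8 ^ (k + 1)))

lemma Lk_ge (k : ℕ) : 4 ≤ Lk k := by
  unfold Lk
  calc (4:ℝ) = 4 ^ 1 := by norm_num
    _ ≤ 4 ^ (k + 1) := pow_le_pow_right₀ (by norm_num) (by omega)

lemma tend_pow {a : ℝ} (ha : 1 < a) : Tendsto (fun k : ℕ => a ^ (k + 1)) atTop atTop :=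
  (tendsto_pow_atTop_atTop_of_one_lt ha).comp (tendsto_add_atTop_nat 1)

lemma err_tendsto {q0 : ℂ} (hq0 : 1 < q0.re) :
    Tendsto (fun k => 2 * (‖zt (Lk k) q0‖ ^ (pk k) / (1 - ‖zt (Lk k) q0‖))) atTop (𝓝 0) := by
  set c := (q0.re - 1) / (‖q0‖ + 4) ^ 2 with hc
  have hc0 : 0 < c := by
    apply div_pos (by linarith)
    positivity
  have hlim : Tendsto (fun k : ℕ => (2 / c) * ((2:ℝ) ^ (k + 1)) ^ 2 * Real.exp (-(c * 2 ^ (k + 1))))
      atTop (𝓝 0) := by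
    have h1 := (Real.tendsto_pow_mul_exp_neg_atTop_nhds_zero 2).comp
      ((tendsto_const_mul_atTop_of_pos hc0).2 (tend_pow (a := 2) (by norm_num)))
    have h2 := h1.const_mul (2 / c * (1 / c ^ 2))
    rw [mul_zero] at h2
    refine h2.congr ?_
    intro k
    simp only [Function.comp]
    field_simp
  apply squeeze_zero _ _ hlim
  · intro k
    have h1 := zt_norm_lt (by linarith [Lk_ge k] : 1 < Lk k) hq0
    have : 0 < 1 - ‖zt (Lk k) q0‖ := by linarith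
    positivity
  · intro k
    have hL := Lk_ge k
    have h1 := zt_norm_lt (by linarith [Lk_ge k] : 1 < Lk k) hq0
    have h2 := one_sub_zt hL hq0
    rw [← hc] at h2
    have hpos : 0 < 1 - ‖zt (Lk k) q0‖ := by linarith
    have hcL : 0 < c / Lk k := by
      apply div_pos hc0
      linarith
    have h3 : ‖zt (Lk k) q0‖ ^ (pk k) ≤ Real.exp (-(c * 2 ^ (k + 1))) := by
      have h4 : ‖zt (Lk k) q0‖ ≤ Real.exp (-(c / Lk k)) := by
        have := Real.add_one_le_exp (-(c / Lk k))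
        linarith
      calc ‖zt (Lk k) q0‖ ^ (pk k) ≤ Real.exp (-(c / Lk k)) ^ (pk k) := by gcongr
        _ = Real.exp (-(c * 2 ^ (k + 1))) := by
          rw [← Real.exp_nat_mul]
          congr 1
          unfold pk Lk
          push_cast
          have : (8:ℝ) ^ (k + 1) = 2 ^ (k + 1) * 4 ^ (k + 1) := by
            rw [← mul_pow]
            norm_num
          rw [this]
          field_simp
    calc 2 * (‖zt (Lk k) q0‖ ^ (pk k) / (1 - ‖zt (Lk k) q0‖))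
        ≤ 2 * (Real.exp (-(c * 2 ^ (k + 1))) / (c / Lk k)) := by
          gcongr
      _ = (2 / c) * ((2:ℝ) ^ (k + 1)) ^ 2 * Real.exp (-(c * 2 ^ (k + 1))) := by
          unfold Lk
          have : (4:ℝ) ^ (k + 1) = ((2:ℝ) ^ (k + 1)) ^ 2 := by
            rw [← pow_mul, mul_comm (k + 1) 2, pow_mul]
            norm_num
          rw [this]
          field_simp

lemma big_tendsto (A : ℝ) (hA : 0 ≤ A) :
    Tendsto (fun k => ((pk k : ℝ) * 10 ^ (pk k) * (A + 4 * (Lk k) ^ 2)) ^ 2 * dk k) atTop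
      (𝓝 0) := by
  have hlim : Tendsto (fun k : ℕ => (2 * (A + 4) ^ 2) * ((8:ℝ) ^ (k + 1)) ^ 6 *
      Real.exp (-(2 * 8 ^ (k + 1)))) atTop (𝓝 0) := by
    have h1 := (Real.tendsto_pow_mul_exp_neg_atTop_nhds_zero 6).comp
      ((tendsto_const_mul_atTop_of_pos (by norm_num : (0:ℝ) < 2)).2 (tend_pow (a := 8) (by norm_num)))
    have h2 := h1.const_mul ((2 * (A + 4) ^ 2) * (1 / 2 ^ 6))
    rw [mul_zero] at h2
    refine h2.congr ?_
    intro k
    simp only [Function.comp]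
    field_simp
  apply squeeze_zero _ _ hlim
  · intro k
    unfold dk
    positivity
  · intro k
    set y : ℝ := 8 ^ (k + 1) with hy
    have hpk : (pk k : ℝ) = y := by
      unfold pk
      push_cast
      rfl
    have hy1 : 1 ≤ y := one_le_pow₀ (by norm_num)
    have hLy : (Lk k) ^ 2 ≤ y ^ 2 := by
      unfold Lk
      rw [hy]
      apply pow_le_pow_left₀ (by positivity)
      apply pow_le_pow_left₀ (by norm_num)
      norm_num
    have hAy : A ≤ A * y ^ 2 := le_mul_of_one_le_right hA (one_le_pow₀ hy1)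
    have hA4 : A + 4 * (Lk k) ^ 2 ≤ (A + 4) * y ^ 2 := by linarith
    have h10 : ((10:ℝ) ^ (pk k)) ^ 2 ≤ Real.exp (5 * y) := by
      have h1 : ((10:ℝ) ^ (pk k)) ^ 2 = 100 ^ (pk k) := by
        rw [← pow_mul, mul_comm, pow_mul]
        norm_num
      rw [h1]
      calc (100:ℝ) ^ (pk k) ≤ Real.exp 5 ^ (pk k) := by
            apply pow_le_pow_left₀ (by norm_num) exp5
        _ = Real.exp (5 * y) := by
          rw [← Real.exp_nat_mul, hpk]
          ring_nf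
    have hLpos : 0 ≤ (Lk k) ^ 2 := sq_nonneg _
    calc ((pk k : ℝ) * 10 ^ (pk k) * (A + 4 * (Lk k) ^ 2)) ^ 2 * dk k
        = y ^ 2 * (10 ^ (pk k)) ^ 2 * (A + 4 * (Lk k) ^ 2) ^ 2 * dk k := by
          rw [hpk]
          ring
      _ ≤ y ^ 2 * Real.exp (5 * y) * ((A + 4) * y ^ 2) ^ 2 * dk k := by
          unfold dk
          gcongr
      _ = (2 * (A + 4) ^ 2) * y ^ 6 * (Real.exp (5 * y) * Real.exp (-(64/9 * y))) := by
          unfold dk
          rw [← hy]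
          ring
      _ ≤ (2 * (A + 4) ^ 2) * y ^ 6 * Real.exp (-(2 * y)) := by
          rw [← Real.exp_add]
          gcongr
          linarith

variable (ν : Measure ℝ) [IsFiniteMeasure ν]

theorem eq_at (hν : ν ≠ 0) (hsupp : ∀ᵐ t ∂ν, (16:ℝ) ≤ t)
    (hV : Integrable (fun t : ℝ => t ^ 2) ν) {H : ℂ → ℂ}
    (hH : DifferentiableOn ℂ H {w | 0 < w.im}) (hb : ∀ w : ℂ, 0 < w.im → ‖H w‖ ≤ 1)
    (hδ : ∀ k : ℕ, ∀ w : ℂ, (Lk k) ^ 2 ≤ w.im → ‖w‖ ≤ 4 * (Lk k) ^ 2 → ‖H w - f ν w‖ ≤ dk k)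
    {q0 : ℂ} (hq0 : 1 < q0.re) (hq0' : q0.im < 0) :
    H (16 - q0 ^ 2) = f ν (16 - q0 ^ 2) := by
  set w0 : ℂ := 16 - q0 ^ 2 with hw0
  set B := (K H w0 w0).re with hB
  set C1 := ∫ x : ℝ × ℝ, Real.exp (2 * mass ν) * (2 * (1 + ‖w0‖) ^ 2 + 2 * x.1 ^ 2) ∂(mu ν) with hC1
  set C2 := 1 + Real.exp (mass ν) with hC2
  set err : ℕ → ℝ := fun k => 2 * (‖zt (Lk k) q0‖ ^ (pk k) / (1 - ‖zt (Lk k) q0‖)) with herr
  have herr0 : Tendsto err atTop (𝓝 0) := err_tendsto hq0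
  have hbig : Tendsto (fun k => ((pk k : ℝ) * 10 ^ (pk k) * (‖w0‖ + 4 * (Lk k) ^ 2)) ^ 2 * dk k)
      atTop (𝓝 0) := big_tendsto ‖w0‖ (norm_nonneg _)
  have hsmall : Tendsto (fun k => (pk k : ℝ) * 10 ^ (pk k) * dk k) atTop (𝓝 0) := by
    apply squeeze_zero _ _ hbig
    · intro k
      unfold dk
      positivity
    · intro k
      have hp1 : (1:ℝ) ≤ (pk k : ℝ) := by
        unfold pk
        push_cast
        exact one_le_pow₀ (by norm_num)
      have h1 : (1:ℝ) ≤ (pk k : ℝ) * 10 ^ (pk k) := by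
        have : (1:ℝ) ≤ 10 ^ (pk k) := one_le_pow₀ (by norm_num)
        nlinarith
      have h2 : (1:ℝ) ≤ ‖w0‖ + 4 * (Lk k) ^ 2 := by
        have := Lk_ge k
        nlinarith [norm_nonneg w0]
      have h3 : (pk k : ℝ) * 10 ^ (pk k) ≤ ((pk k : ℝ) * 10 ^ (pk k) * (‖w0‖ + 4 * (Lk k) ^ 2)) ^ 2 := by
        have h4 : (pk k : ℝ) * 10 ^ (pk k) ≤ (pk k : ℝ) * 10 ^ (pk k) * (‖w0‖ + 4 * (Lk k) ^ 2) :=
          le_mul_of_one_le_right (by positivity) h2
        nlinarith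
      have h5 : 0 ≤ dk k := by
        unfold dk
        positivity
      exact mul_le_mul_of_nonneg_right h3 h5
  have hlim : Tendsto (fun k => Real.sqrt ((B + 1) * (C1 * (err k) ^ 2 +
      ((pk k : ℝ) * 10 ^ (pk k) * (‖w0‖ + 4 * (Lk k) ^ 2)) ^ 2 * dk k))
      + (pk k : ℝ) * 10 ^ (pk k) * dk k + C2 * err k) atTop (𝓝 0) := by
    have h1 : Tendsto (fun k => (B + 1) * (C1 * (err k) ^ 2 +
      ((pk k : ℝ) * 10 ^ (pk k) * (‖w0‖ + 4 * (Lk k) ^ 2)) ^ 2 * dk k)) atTop (𝓝 0) := by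
      have := (((herr0.pow 2).const_mul C1).add hbig).const_mul (B + 1)
      simpa using this
    have h2 := (Real.continuous_sqrt.tendsto _).comp h1
    rw [Real.sqrt_zero] at h2
    have h3 := (h2.add hsmall).add (herr0.const_mul C2)
    simpa using h3
  have hev : ∀ᶠ k in atTop, ‖1 - H w0 * Complex.exp (-(I * N ν w0))‖ ≤
      Real.sqrt ((B + 1) * (C1 * (err k) ^ 2 +
      ((pk k : ℝ) * 10 ^ (pk k) * (‖w0‖ + 4 * (Lk k) ^ 2)) ^ 2 * dk k))
      + (pk k : ℝ) * 10 ^ (pk k) * dk k + C2 * err k := by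
    have hbigL : ∀ᶠ k in atTop, 2 * (‖q0‖ + 1) ≤ Lk k :=
      (tend_pow (a := 4) (by norm_num)).eventually_ge_atTop _
    filter_upwards [hbigL] with k hk
    have hp : 0 < pk k := by
      unfold pk
      positivity
    exact stage ν hν hsupp hV hH hb hq0 hq0' (Lk_ge k) hp (hδ k) (zt_ge (Lk_ge k) hq0 hk)
  have h0 : ‖1 - H w0 * Complex.exp (-(I * N ν w0))‖ ≤ 0 := ge_of_tendsto hlim hev
  have h1 : 1 - H w0 * Complex.exp (-(I * N ν w0)) = 0 := norm_le_zero_iff.1 h0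
  have h2 : H w0 * Complex.exp (-(I * N ν w0)) = 1 := (sub_eq_zero.1 h1).symm
  unfold f
  calc H w0 = H w0 * (Complex.exp (-(I * N ν w0)) * Complex.exp (I * N ν w0)) := by
        rw [← Complex.exp_add, neg_add_cancel, Complex.exp_zero, mul_one]
    _ = (H w0 * Complex.exp (-(I * N ν w0))) * Complex.exp (I * N ν w0) := by ring
    _ = _ := by rw [h2, one_mul]

/-- Uniqueness in the half-plane. -/
theorem eq_half (hν : ν ≠ 0) (hsupp : ∀ᵐ t ∂ν, (16:ℝ) ≤ t)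
    (hV : Integrable (fun t : ℝ => t ^ 2) ν) {H : ℂ → ℂ}
    (hH : DifferentiableOn ℂ H {w | 0 < w.im}) (hb : ∀ w : ℂ, 0 < w.im → ‖H w‖ ≤ 1)
    (hδ : ∀ k : ℕ, ∀ w : ℂ, (Lk k) ^ 2 ≤ w.im → ‖w‖ ≤ 4 * (Lk k) ^ 2 → ‖H w - f ν w‖ ≤ dk k) :
    Set.EqOn H (f ν) {w | 0 < w.im} := by
  have hopen : IsOpen {w : ℂ | 0 < w.im} := isOpen_lt continuous_const Complex.continuous_im
  have hconv : Convex ℝ {w : ℂ | 0 < w.im} := convex_halfSpace_im_gt 0
  have han1 : AnalyticOnNhd ℂ H {w | 0 < w.im} := hH.analyticOnNhd hopen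
  have han2 : AnalyticOnNhd ℂ (f ν) {w | 0 < w.im} := (f_differentiableOn ν).analyticOnNhd hopen
  -- base point `q = 2 - i`, `w = 16 - (2-i)^2 = 13 + 4 i`
  set qn : ℕ → ℂ := fun n => (2 + 1 / ((n:ℝ) + 1) : ℝ) - I with hqn
  set wn : ℕ → ℂ := fun n => 16 - qn n ^ 2 with hwn
  have hlimq : Tendsto qn atTop (𝓝 (2 - I)) := by
    have h1 : Tendsto (fun n : ℕ => (2 + 1 / ((n:ℝ) + 1) : ℝ)) atTop (𝓝 (2 + 0)) :=
      tendsto_one_div_add_atTop_nhds_zero_nat.const_add 2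
    rw [add_zero] at h1
    have h2 := (Complex.continuous_ofReal.tendsto 2).comp h1
    have h3 := h2.sub_const I
    have e : ((2:ℝ):ℂ) = 2 := by norm_num
    rw [e] at h3
    exact h3
  have hlimw : Tendsto wn atTop (𝓝 (16 - (2 - I) ^ 2)) := (hlimq.pow 2).const_sub 16
  have hbase : (0:ℝ) < ((16:ℂ) - (2 - I) ^ 2).im := by
    rw [sq, Complex.sub_im, Complex.mul_im]
    simp
  have hne : ∀ n, wn n ≠ 16 - (2 - I) ^ 2 := by
    intro n h
    have h1 := congrArg Complex.im h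
    rw [hwn] at h1
    simp only [hqn] at h1
    rw [sq, sq, Complex.sub_im, Complex.sub_im, Complex.mul_im, Complex.mul_im] at h1
    simp only [Complex.sub_re, Complex.sub_im, Complex.ofReal_re, Complex.ofReal_im, Complex.I_re,
      Complex.I_im, Complex.re_ofNat, Complex.im_ofNat] at h1
    have h2 : (0:ℝ) < 1 / ((n:ℝ) + 1) := by positivity
    linarith
  have hfreq : ∃ᶠ w in 𝓝[≠] ((16:ℂ) - (2 - I) ^ 2), H w = f ν w := by
    have h1 : Tendsto wn atTop (𝓝[≠] ((16:ℂ) - (2 - I) ^ 2)) := by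
      rw [tendsto_nhdsWithin_iff]
      exact ⟨hlimw, Eventually.of_forall hne⟩
    apply h1.frequently
    apply Frequently.of_forall
    intro n
    apply eq_at ν hν hsupp hV hH hb hδ
    · rw [hqn]
      simp only [Complex.sub_re, Complex.ofReal_re, Complex.I_re]
      have h2 : (0:ℝ) < 1 / ((n:ℝ) + 1) := by positivity
      linarith
    · rw [hqn]
      simp
  exact han1.eqOn_of_preconnected_of_frequently_eq han2 hconv.isPreconnected hbase hfreq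

/-- Product of pseudo-hyperbolic distances of a cluster. -/
lemma cluster_bound {ι : Type*} (F : Finset ι) (v : ι → ℂ) (hv : ∀ j ∈ F, 0 < (v j).im)
    {L : ℝ} (hL : 1 ≤ L) (hvL : ∀ j ∈ F, ‖v j‖ ≤ 2 * L ^ 2) {w : ℂ} (hw : L ^ 2 ≤ w.im)
    (hw' : ‖w‖ ≤ 4 * L ^ 2) :
    ∏ j ∈ F, ‖(w - v j) / (w - conj (v j))‖ ≤ Real.exp (-((∑ j ∈ F, (v j).im) / (18 * L ^ 2))) := by
  have hL2 : 0 < L ^ 2 := by positivity
  have hw0 : 0 < w.im := by linarith
  calc ∏ j ∈ F, ‖(w - v j) / (w - conj (v j))‖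
      ≤ ∏ j ∈ F, Real.exp (-((v j).im / (18 * L ^ 2))) := by
        apply Finset.prod_le_prod (fun j _ => norm_nonneg _)
        intro j hj
        refine (rho_le_exp hw0 (hv j hj)).trans ?_
        apply Real.exp_le_exp.2
        apply neg_le_neg
        have h1 : ‖w - conj (v j)‖ ≤ 6 * L ^ 2 := by
          refine (norm_sub_le _ _).trans ?_
          rw [RCLike.norm_conj]
          linarith [hvL j hj]
        have h2 : 0 < ‖w - conj (v j)‖ := norm_pos_iff.2 (sub_conj_ne hw0 (hv j hj))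
        have h3 : ‖w - conj (v j)‖ ^ 2 ≤ (6 * L ^ 2) ^ 2 := by gcongr
        calc (v j).im / (18 * L ^ 2) = 2 * L ^ 2 * (v j).im / (6 * L ^ 2) ^ 2 := by
              field_simp
              ring
          _ ≤ 2 * w.im * (v j).im / (6 * L ^ 2) ^ 2 := by
              have := hv j hj
              gcongr
          _ ≤ 2 * w.im * (v j).im / ‖w - conj (v j)‖ ^ 2 := by
              have := hv j hj
              gcongr
    _ = Real.exp (-((∑ j ∈ F, (v j).im) / (18 * L ^ 2))) := by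
        rw [← Real.exp_sum]
        congr 1
        rw [Finset.sum_neg_distrib, Finset.sum_div]

/-- Final uniqueness theorem in the half-plane, in terms of the clusters. -/
theorem uniq {ι : Type*} (v : ι → ℂ) (hv : ∀ j, 0 < (v j).im) (hinj : Function.Injective v)
    (F : ℕ → Finset ι) (hF1 : ∀ k, ∀ j ∈ F k, ‖v j‖ ≤ 2 * (Lk k) ^ 2)
    (hF2 : ∀ k, 128 * 128 ^ (k + 1) ≤ ∑ j ∈ F k, (v j).im)
    (hν : ν ≠ 0) (hsupp : ∀ᵐ t ∂ν, (16:ℝ) ≤ t)
    (hV : Integrable (fun t : ℝ => t ^ 2) ν) {H : ℂ → ℂ}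
    (hH : DifferentiableOn ℂ H {w | 0 < w.im}) (hb : ∀ w : ℂ, 0 < w.im → ‖H w‖ ≤ 1)
    (hint : ∀ j, H (v j) = f ν (v j)) :
    Set.EqOn H (f ν) {w | 0 < w.im} := by
  apply eq_half ν hν hsupp hV hH hb
  intro k w hw hw'
  have hL := Lk_ge k
  have hL2 : 0 < (Lk k) ^ 2 := by positivity
  have hw0 : 0 < w.im := by linarith
  have h1 := half_div (F k) v (fun j _ => hv j) (hinj.injOn) (M := 2) (G := fun w => H w - f ν w)
    (hH.sub (f_differentiableOn ν)) (by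
      intro w hw
      refine (norm_sub_le _ _).trans ?_
      have := hb w hw
      have := norm_f_le_one ν hw
      linarith) (by
      intro j _
      rw [hint j, sub_self]) hw0
  refine h1.trans ?_
  unfold dk
  apply mul_le_mul_of_nonneg_left _ (by norm_num)
  refine (cluster_bound (F k) v (fun j _ => hv j) (by linarith) (hF1 k) hw hw').trans ?_
  apply Real.exp_le_exp.2
  apply neg_le_neg
  rw [le_div_iff₀ (by positivity)]
  refine le_trans (le_of_eq ?_) (hF2 k)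
  unfold Lk
  have e1 : ((4:ℝ) ^ (k + 1)) ^ 2 = 16 ^ (k + 1) := by
    rw [← pow_mul, mul_comm (k + 1) 2, pow_mul]
    norm_num
  have e2 : (128:ℝ) ^ (k + 1) = 8 ^ (k + 1) * 16 ^ (k + 1) := by
    rw [← mul_pow]
    norm_num
  rw [e1, e2]
  ring

end

end Pool.Agent.Helper897.Uniq
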