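import Mathlib
import Pool.Agent.Helper897.Uniq

set_option autoImplicit false

open Complex ComplexConjugate Metric Filter Topology MeasureTheory
open scoped ENNReal

namespace Pool.Agent.Helper897.MeasNu

open Pool.Agent.Helper897.InnerUnique Pool.Agent.Helper897.NevF
  Pool.Agent.Helper897.Uniq Pool.Agent.Helper897.BlaschkeDiv

noncomputable section

/-- Left end point of the `k`-th interval. -/
def X (k : ℕ) : ℝ := 16 ^ (k + 1)

/-- Length of the `k`-th interval. -/
def ell (k : ℕ) : ℝ := (1 / 4096) ^ (k + 1)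

lemma X_ge (k : ℕ) : 16 ≤ X k := by
  unfold X
  calc (16:ℝ) = 16 ^ 1 := by norm_num
    _ ≤ 16 ^ (k + 1) := pow_le_pow_right₀ (by norm_num) (by omega)

lemma ell_pos (k : ℕ) : 0 < ell k := by unfold ell; positivity

lemma ell_le (k : ℕ) : ell k ≤ 1 / 4096 := by
  unfold ell
  calc (1 / 4096 : ℝ) ^ (k + 1) ≤ (1 / 4096) ^ 1 :=
        pow_le_pow_of_le_one (by norm_num) (by norm_num) (by omega)
    _ = 1 / 4096 := pow_one _

lemma X_gap {k k' : ℕ} (h : k < k') : X k + 2 ≤ X k' := by
  have h1 : X k * 16 ≤ X k' := by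
    unfold X
    rw [← pow_succ]
    exact pow_le_pow_right₀ (by norm_num) (by omega)
  have := X_ge k
  linarith

/-- The measure: density `k+1` on `[X_k, X_k + ell_k]`. -/
def nu : Measure ℝ :=
  Measure.sum (fun k : ℕ => ENNReal.ofReal (k + 1) • volume.restrict (Set.Icc (X k) (X k + ell k)))

lemma summ : Summable (fun k : ℕ => ((k:ℝ) + 1) * ((5 * X k ^ 2) * ell k)) := by
  have h1 : Summable (fun n : ℕ => ((n:ℝ)) ^ 1 * (1/16:ℝ) ^ n) :=
    summable_pow_mul_geometric_of_norm_lt_one 1 (by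
      rw [Real.norm_eq_abs, abs_of_nonneg (by norm_num)]
      norm_num)
  have h2 := ((summable_nat_add_iff 1).2 h1).mul_left 5
  refine h2.congr ?_
  intro k
  unfold X ell
  push_cast
  have e1 : ((16:ℝ) ^ (k + 1)) ^ 2 = 256 ^ (k + 1) := by
    rw [← pow_mul, mul_comm (k + 1) 2, pow_mul]
    norm_num
  have e2 : (1/16:ℝ) ^ (k + 1) = 256 ^ (k + 1) * (1/4096) ^ (k + 1) := by
    rw [← mul_pow]
    norm_num
  rw [e1, e2]
  ring

lemma lint_bound : ∫⁻ t, ENNReal.ofReal (1 + t ^ 2) ∂nu < ⊤ := by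
  unfold nu
  rw [lintegral_sum_measure]
  have h1 : ∀ k : ℕ, ∫⁻ t, ENNReal.ofReal (1 + t ^ 2) ∂(ENNReal.ofReal (k + 1) •
      volume.restrict (Set.Icc (X k) (X k + ell k))) ≤
      ENNReal.ofReal (((k:ℝ) + 1) * ((5 * X k ^ 2) * ell k)) := by
    intro k
    rw [lintegral_smul_measure, smul_eq_mul, ENNReal.ofReal_mul (by positivity)]
    apply mul_le_mul_right
    calc ∫⁻ t in Set.Icc (X k) (X k + ell k), ENNReal.ofReal (1 + t ^ 2)
        ≤ ∫⁻ t in Set.Icc (X k) (X k + ell k), ENNReal.ofReal (5 * X k ^ 2) := by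
          apply setLIntegral_mono measurable_const
          intro t ht
          apply ENNReal.ofReal_le_ofReal
          have h1 := X_ge k
          have h2 := ell_le k
          obtain ⟨h3, h4⟩ := ht
          nlinarith
      _ = ENNReal.ofReal ((5 * X k ^ 2) * ell k) := by
          rw [setLIntegral_const, Real.volume_Icc, ← ENNReal.ofReal_mul (by positivity)]
          congr 2
          ring
  exact lt_of_le_of_lt (ENNReal.tsum_le_tsum h1) summ.tsum_ofReal_lt_top

instance : IsFiniteMeasure nu := by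
  constructor
  refine lt_of_le_of_lt ?_ lint_bound
  calc nu Set.univ = ∫⁻ _, 1 ∂nu := by simp
    _ ≤ ∫⁻ t, ENNReal.ofReal (1 + t ^ 2) ∂nu := by
      apply lintegral_mono
      intro t
      rw [ENNReal.one_le_ofReal]
      nlinarith [sq_nonneg t]

lemma nu_V : Integrable (fun t : ℝ => t ^ 2) nu := by
  refine ⟨by fun_prop, ?_⟩
  refine lt_of_le_of_lt ?_ lint_bound
  apply lintegral_mono
  intro t
  simp only
  rw [Real.enorm_eq_ofReal (sq_nonneg t)]
  apply ENNReal.ofReal_le_ofReal
  linarith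

lemma nu_supp : ∀ᵐ t ∂nu, (16:ℝ) ≤ t := by
  unfold nu
  rw [Measure.ae_sum_iff]
  intro k
  apply Measure.ae_smul_measure
  filter_upwards [ae_restrict_mem measurableSet_Icc] with t ht
  exact (X_ge k).trans ht.1

lemma nu_lower (k : ℕ) {a b : ℝ} (ha : X k ≤ a) (hb : b ≤ X k + ell k) :
    ((k:ℝ) + 1) * (b - a) ≤ nu.real (Set.Icc a b) := by
  have h1 : ENNReal.ofReal (((k:ℝ) + 1) * (b - a)) ≤ nu (Set.Icc a b) := by
    have h2 : (ENNReal.ofReal (k + 1) • volume.restrict (Set.Icc (X k) (X k + ell k)))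
        (Set.Icc a b) ≤ nu (Set.Icc a b) := by
      unfold nu
      rw [Measure.sum_apply _ measurableSet_Icc]
      exact ENNReal.le_tsum k
    refine le_trans (le_of_eq ?_) h2
    rw [Measure.smul_apply, Measure.restrict_apply measurableSet_Icc, smul_eq_mul,
      Set.inter_eq_left.2 (Set.Icc_subset_Icc ha hb), Real.volume_Icc,
      ENNReal.ofReal_mul (by positivity)]
  unfold Measure.real
  rw [← ENNReal.ofReal_le_iff_le_toReal (measure_ne_top _ _)]
  exact h1

lemma nu_ne : nu ≠ 0 := by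
  intro h
  have h1 := nu_lower 0 (a := X 0) (b := X 0 + ell 0) le_rfl le_rfl
  rw [h] at h1
  simp at h1
  have := ell_pos 0
  linarith

/-- number of rows -/
def J (k : ℕ) : ℕ := 256 * 524288 ^ (k + 1)

lemma J_pos (k : ℕ) : 0 < J k := by unfold J; positivity

/-- Index set: cluster, row, column. -/
abbrev Idx : Type := Σ k : ℕ, Σ j : Fin (J k), Fin (2 ^ ((j:ℕ) + 1) - 1)

/-- height of the `j`-th row of the `k`-th cluster -/
def ht (k j : ℕ) : ℝ := ell k * (1 / 2) ^ (j + 1)

lemma ht_pos (k j : ℕ) : 0 < ht k j := by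
  unfold ht
  have := ell_pos k
  positivity

lemma ht_le (k j : ℕ) : ht k j ≤ ell k := by
  unfold ht
  have h1 : (1 / 2 : ℝ) ^ (j + 1) ≤ 1 := pow_le_one₀ (by norm_num) (by norm_num)
  have := ell_pos k
  nlinarith

lemma ht_le_one (k j : ℕ) : ht k j ≤ 1 := by
  have := ht_le k j
  have := ell_le k
  linarith

lemma ht_mul (k j : ℕ) : ht k j * 2 ^ (j + 1) = ell k := by
  unfold ht
  rw [mul_assoc, ← mul_pow]
  norm_num

/-- the nodes in the half-plane -/
def v (a : Idx) : ℂ := ⟨X a.1 + ht a.1 a.2.1 * (((a.2.2 : ℕ) : ℝ) + 1), ht a.1 a.2.1⟩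

lemma v_im (a : Idx) : (v a).im = ht a.1 a.2.1 := rfl

lemma v_re (a : Idx) : (v a).re = X a.1 + ht a.1 a.2.1 * (((a.2.2 : ℕ) : ℝ) + 1) := rfl

lemma v_im_pos (a : Idx) : 0 < (v a).im := ht_pos _ _

lemma col_lt (a : Idx) : ((a.2.2 : ℕ) : ℝ) + 2 ≤ 2 ^ ((a.2.1 : ℕ) + 1) := by
  have h1 := a.2.2.2
  have h3 : (a.2.2 : ℕ) + 2 ≤ 2 ^ ((a.2.1 : ℕ) + 1) := by omega
  exact_mod_cast h3

lemma v_left (a : Idx) : X a.1 ≤ (v a).re - (v a).im := by
  rw [v_re, v_im]
  have h1 := ht_pos a.1 a.2.1
  have h2 : (0:ℝ) ≤ ((a.2.2 : ℕ) : ℝ) := Nat.cast_nonneg _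
  nlinarith

lemma v_right (a : Idx) : (v a).re + (v a).im ≤ X a.1 + ell a.1 := by
  rw [v_re, v_im, ← ht_mul a.1 a.2.1]
  have h1 := ht_pos a.1 a.2.1
  have h2 := col_lt a
  nlinarith

lemma v_sep {a b : Idx} (hab : a ≠ b) : min (v a).im (v b).im ≤ ‖v a - v b‖ := by
  obtain ⟨k, j, i⟩ := a
  obtain ⟨k', j', i'⟩ := b
  by_cases hk : k = k'
  · subst hk
    by_cases hj : j = j'
    · subst hj
      have hi : i ≠ i' := by
        intro h
        apply hab
        rw [h]
      have hi' : (i:ℕ) ≠ (i':ℕ) := fun h => hi (Fin.ext h)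
      have h1 : ‖v ⟨k, j, i⟩ - v ⟨k, j, i'⟩‖ ≥ ht k j := by
        refine le_trans ?_ (Complex.abs_re_le_norm _)
        rw [Complex.sub_re, v_re, v_re]
        simp only
        have h2 : X k + ht k j * (((i : ℕ) : ℝ) + 1) - (X k + ht k j * (((i' : ℕ) : ℝ) + 1))
            = ht k j * ((i:ℕ) - (i':ℕ)) := by ring
        rw [h2, abs_mul, abs_of_pos (ht_pos k j)]
        have h3 : (1:ℝ) ≤ |((i:ℕ):ℝ) - ((i':ℕ):ℝ)| := by
          have h4 : (1:ℤ) ≤ |((i:ℕ):ℤ) - ((i':ℕ):ℤ)| := Int.one_le_abs (by omega)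
          exact_mod_cast h4
        have := ht_pos k j
        nlinarith
      exact (min_le_left _ _).trans h1
    · have h1 : min (ht k j) (ht k j') ≤ |ht k j - ht k j'| := by
        have hj' : (j:ℕ) ≠ (j':ℕ) := fun h => hj (Fin.ext h)
        have key : ∀ m n : ℕ, m < n → 2 * ht k n ≤ ht k m := by
          intro m n hmn
          unfold ht
          have h2 : (1/2:ℝ) ^ (n + 1) ≤ (1/2) ^ (m + 2) :=
            pow_le_pow_of_le_one (by norm_num) (by norm_num) (by omega)
          have h3 : (1/2:ℝ) ^ (m + 2) = (1/2) * (1/2) ^ (m + 1) := by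
            rw [← pow_succ']
          rw [h3] at h2
          have := ell_pos k
          nlinarith
        rcases Nat.lt_or_gt_of_ne hj' with h | h
        · have := key _ _ h
          refine (min_le_right _ _).trans ?_
          refine le_trans ?_ (le_abs_self _)
          linarith
        · have := key _ _ h
          refine (min_le_left _ _).trans ?_
          rw [abs_sub_comm]
          refine le_trans ?_ (le_abs_self _)
          linarith
      refine le_trans ?_ (Complex.abs_im_le_norm _)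
      rw [Complex.sub_im]
      exact h1
  · have hle : min (v ⟨k, j, i⟩).im (v ⟨k', j', i'⟩).im ≤ 1 :=
      (min_le_left _ _).trans (ht_le_one _ _)
    refine hle.trans ?_
    refine le_trans ?_ (Complex.abs_re_le_norm _)
    rw [Complex.sub_re]
    have a1 := v_left ⟨k, j, i⟩
    have a2 := v_right ⟨k, j, i⟩
    have a3 := v_im_pos ⟨k, j, i⟩
    have b1 := v_left ⟨k', j', i'⟩
    have b2 := v_right ⟨k', j', i'⟩
    have b3 := v_im_pos ⟨k', j', i'⟩
    have c1 := ell_le k
    have c2 := ell_le k'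
    simp only at a1 a2 b1 b2
    rcases Nat.lt_or_gt_of_ne hk with h | h
    · have := X_gap h
      rw [abs_sub_comm]
      refine le_trans ?_ (le_abs_self _)
      linarith
    · have := X_gap h
      refine le_trans ?_ (le_abs_self _)
      linarith

lemma v_inj : Function.Injective v := by
  intro a b hab
  by_contra hne
  have h1 := v_sep hne
  rw [hab, sub_self, norm_zero] at h1
  have h2 := v_im_pos b
  simp only [min_self] at h1
  linarith

lemma v_norm (a : Idx) : ‖v a‖ ≤ 2 * (Lk a.1) ^ 2 := by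
  have h1 : ‖v a‖ ≤ |(v a).re| + |(v a).im| := Complex.norm_le_abs_re_add_abs_im _
  have h2 := v_left a
  have h3 := v_right a
  have h4 := v_im_pos a
  have h5 := X_ge a.1
  have h6 := ell_le a.1
  rw [abs_of_pos h4, abs_of_pos (by linarith : 0 < (v a).re)] at h1
  have h7 : (Lk a.1) ^ 2 = X a.1 := by
    unfold Lk X
    rw [← pow_mul, mul_comm (a.1 + 1) 2, pow_mul]
    norm_num
  rw [h7]
  linarith

/-- The `k`-th cluster. -/
def cl (k : ℕ) : Finset Idx :=
  (Finset.univ : Finset (Σ j : Fin (J k), Fin (2 ^ ((j:ℕ) + 1) - 1))).map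
    (Function.Embedding.sigmaMk (β := fun k => Σ j : Fin (J k), Fin (2 ^ ((j:ℕ) + 1) - 1)) k)

lemma sum_cl (k : ℕ) (g : Idx → ℝ) :
    ∑ a ∈ cl k, g a = ∑ j : Fin (J k), ∑ i : Fin (2 ^ ((j:ℕ) + 1) - 1), g ⟨k, j, i⟩ := by
  unfold cl
  rw [Finset.sum_map, Fintype.sum_sigma]
  rfl

lemma row (k j : ℕ) : ∑ _i : Fin (2 ^ (j + 1) - 1), ht k j = ell k * (1 - (1/2) ^ (j + 1)) := by
  rw [Finset.sum_const, Finset.card_univ, Fintype.card_fin, nsmul_eq_mul,
    Nat.cast_sub Nat.one_le_two_pow]
  push_cast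
  rw [sub_mul, mul_comm _ (ht k j), ht_mul, one_mul]
  unfold ht
  ring

lemma cl_sum_ge (k : ℕ) : 128 * 128 ^ (k + 1) ≤ ∑ a ∈ cl k, (v a).im := by
  rw [sum_cl]
  simp only [v_im]
  calc (128:ℝ) * 128 ^ (k + 1) = ∑ j : Fin (J k), ell k * (1/2) := by
        rw [Finset.sum_const, Finset.card_univ, Fintype.card_fin, nsmul_eq_mul]
        unfold J ell
        push_cast
        have : (128:ℝ) ^ (k + 1) = 524288 ^ (k + 1) * (1/4096) ^ (k + 1) := by
          rw [← mul_pow]
          norm_num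
        rw [this]
        ring
    _ ≤ ∑ j : Fin (J k), ∑ _i : Fin (2 ^ ((j:ℕ) + 1) - 1), ht k j := by
        apply Finset.sum_le_sum
        intro j _
        rw [row]
        have h1 : (1/2:ℝ) ^ ((j:ℕ) + 1) ≤ 1/2 := by
          calc (1/2:ℝ) ^ ((j:ℕ) + 1) ≤ (1/2) ^ 1 :=
                pow_le_pow_of_le_one (by norm_num) (by norm_num) (by omega)
            _ = 1/2 := pow_one _
        have := ell_pos k
        nlinarith

lemma cl_sum_le (k : ℕ) : ∑ j : Fin (J k), ∑ _i : Fin (2 ^ ((j:ℕ) + 1) - 1), ht k j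
    ≤ 256 * 128 ^ (k + 1) := by
  calc ∑ j : Fin (J k), ∑ _i : Fin (2 ^ ((j:ℕ) + 1) - 1), ht k j
      ≤ ∑ j : Fin (J k), ell k := by
        apply Finset.sum_le_sum
        intro j _
        rw [row]
        have h1 : (0:ℝ) ≤ (1/2:ℝ) ^ ((j:ℕ) + 1) := by positivity
        have := ell_pos k
        nlinarith
    _ = 256 * 128 ^ (k + 1) := by
        rw [Finset.sum_const, Finset.card_univ, Fintype.card_fin, nsmul_eq_mul]
        unfold J ell
        push_cast
        have : (128:ℝ) ^ (k + 1) = 524288 ^ (k + 1) * (1/4096) ^ (k + 1) := by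
          rw [← mul_pow]
          norm_num
        rw [this]
        ring

/-- `1 - |Z v| ≤ 4 im / X²`. -/
lemma one_sub_Z (a : Idx) : 1 - ‖Z (v a)‖ ≤ 4 * ht a.1 a.2.1 / X a.1 ^ 2 := by
  have h1 := one_sub_norm_sq_Z (v_im_pos a)
  have h2 := Z_mem (v_im_pos a)
  rw [mem_ball_zero_iff] at h2
  have h3 : 1 - ‖Z (v a)‖ ≤ 1 - ‖Z (v a)‖ ^ 2 := by nlinarith [norm_nonneg (Z (v a))]
  refine h3.trans ?_
  rw [h1, v_im]
  have h4 : X a.1 ^ 2 ≤ normSq (v a + I) := by
    rw [Complex.normSq_apply]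
    have h5 := v_left a
    have h6 := v_im_pos a
    have h7 := X_ge a.1
    simp only [Complex.add_re, Complex.I_re, add_zero]
    nlinarith [mul_self_nonneg ((v a + I).im)]
  have h5 := ht_pos a.1 a.2.1
  have h6 : 0 < X a.1 ^ 2 := by
    have := X_ge a.1
    positivity
  gcongr

lemma summable_Z : Summable (fun a : Idx => 1 - ‖Z (v a)‖) := by
  have hmain : Summable (fun a : Idx => 4 * ht a.1 a.2.1 / X a.1 ^ 2) := by
    rw [summable_sigma_of_nonneg]
    · constructor
      · intro k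
        exact (hasSum_fintype _).summable
      · have h1 : ∀ k : ℕ, ∑' (y : Σ j : Fin (J k), Fin (2 ^ ((j:ℕ) + 1) - 1)),
            4 * ht k y.1 / X k ^ 2 ≤ 1024 * (1/2) ^ (k + 1) := by
          intro k
          rw [tsum_fintype, Fintype.sum_sigma]
          calc ∑ j : Fin (J k), ∑ _i : Fin (2 ^ ((j:ℕ) + 1) - 1), 4 * ht k j / X k ^ 2
              = (4 / X k ^ 2) * ∑ j : Fin (J k), ∑ _i : Fin (2 ^ ((j:ℕ) + 1) - 1), ht k j := by
                rw [Finset.mul_sum]
                apply Finset.sum_congr rfl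
                intro j _
                rw [Finset.mul_sum]
                apply Finset.sum_congr rfl
                intro i _
                ring
            _ ≤ (4 / X k ^ 2) * (256 * 128 ^ (k + 1)) := by
                apply mul_le_mul_of_nonneg_left (cl_sum_le k)
                positivity
            _ = 1024 * (1/2) ^ (k + 1) := by
                unfold X
                have e1 : ((16:ℝ) ^ (k + 1)) ^ 2 = 256 ^ (k + 1) := by
                  rw [← pow_mul, mul_comm (k + 1) 2, pow_mul]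
                  norm_num
                have e2 : (128:ℝ) ^ (k + 1) = 256 ^ (k + 1) * (1/2) ^ (k + 1) := by
                  rw [← mul_pow]
                  norm_num
                rw [e1, e2]
                field_simp
                norm_num
        refine Summable.of_nonneg_of_le ?_ h1 ?_
        · intro k
          apply tsum_nonneg
          intro y
          have := ht_pos k y.1
          positivity
        · exact ((summable_nat_add_iff 1).2 summable_geometric_two).mul_left 1024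
    · intro a
      have := ht_pos a.1 a.2.1
      positivity
  refine Summable.of_nonneg_of_le ?_ one_sub_Z hmain
  intro a
  have h2 := Z_mem (v_im_pos a)
  rw [mem_ball_zero_iff] at h2
  linarith

lemma f_small (a : Idx) : ‖f nu (v a)‖ ≤ Real.exp (-((a.1:ℝ) + 1)) := by
  rw [norm_f]
  apply Real.exp_le_exp.2
  apply neg_le_neg
  apply N_im_lower nu (v_im_pos a)
  have h1 := nu_lower a.1 (v_left a) (v_right a)
  refine le_trans (le_of_eq ?_) h1
  ring

lemma f_tendsto : Tendsto (fun a : Idx => f nu (v a)) cofinite (𝓝 0) := by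
  rw [Metric.tendsto_nhds]
  intro ε hε
  have h1 : Tendsto (fun k : ℕ => Real.exp (-((k:ℝ) + 1))) atTop (𝓝 0) := by
    apply Real.tendsto_exp_atBot.comp
    apply tendsto_neg_atTop_atBot.comp
    exact tendsto_atTop_add_const_right _ _ tendsto_natCast_atTop_atTop
  obtain ⟨K, hK⟩ := (h1.eventually (gt_mem_nhds hε)).exists
  rw [Filter.eventually_cofinite]
  apply Set.Finite.subset ((Finset.range K).sigma
    (fun k => (Finset.univ : Finset (Σ j : Fin (J k), Fin (2 ^ ((j:ℕ) + 1) - 1))))).finite_toSet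
  intro a ha
  rw [Finset.mem_coe, Finset.mem_sigma]
  refine ⟨?_, Finset.mem_univ _⟩
  rw [Finset.mem_range]
  by_contra hcon
  push Not at hcon
  apply ha
  rw [dist_zero_right]
  refine lt_of_le_of_lt (f_small a) (lt_of_le_of_lt ?_ hK)
  apply Real.exp_le_exp.2
  have : (K:ℝ) ≤ (a.1:ℝ) := by exact_mod_cast hcon
  linarith

lemma rho_sep {a b : Idx} (hab : a ≠ b) :
    1/3 ≤ ‖(v a - v b) / (v a - conj (v b))‖ := by
  have h1 := v_sep hab
  have h2 := sub_conj_ne (v_im_pos a) (v_im_pos b)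
  rw [norm_div, le_div_iff₀ (norm_pos_iff.2 h2)]
  have h3 : ‖v a - conj (v b)‖ ≤ ‖v a - v b‖ + 2 * (v b).im := by
    have e : v a - conj (v b) = (v a - v b) + (v b - conj (v b)) := by ring
    rw [e]
    refine (norm_add_le _ _).trans ?_
    rw [Complex.sub_conj, norm_mul, norm_I, mul_one, Complex.norm_real,
      Real.norm_of_nonneg (by have := v_im_pos b; positivity)]
  have h4 : ‖v a - conj (v b)‖ ≤ ‖v a - v b‖ + 2 * (v a).im := by
    have e : v a - conj (v b) = conj (v a - v b) + (v a - conj (v a)) := by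
      rw [map_sub]
      ring
    rw [e]
    refine (norm_add_le _ _).trans ?_
    rw [Complex.sub_conj, norm_mul, norm_I, mul_one, Complex.norm_real, RCLike.norm_conj,
      Real.norm_of_nonneg (by have := v_im_pos a; positivity)]
  rcases min_le_iff.1 h1 with h | h
  · linarith
  · linarith

end

end Pool.Agent.Helper897.MeasNu
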